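import Pool.Agent.Gauss35.Graded

/-!
# The first two coefficients of the generating functions
-/

set_option autoImplicit false
open scoped Classical
open Finset

namespace Pool.Gauss

variable {α : Type} [Fintype α] [PartialOrder α]

/-- the elements of `F` that can be raised by one in the minimal strictly reversing map -/
noncomputable def free (F : Finset α) : Finset α :=
  F.filter fun x => ∀ y ∈ F, y < x → corank y ≠ corank x + 1

/-- the maximal elements of `S` -/
noncomputable def mx (S : Finset α) : Finset α := S.filter fun x => ∀ y ∈ S, ¬ x < y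

/-- sum of coranks plus one -/
noncomputable def wt (F : Finset α) : ℕ := ∑ x ∈ F, (corank x + 1)

lemma coeff_Ut_lt {F : Finset α} (hF : F ∈ upSets α) {N : ℕ} (hN : N < wt F) :
    PowerSeries.coeff N (Ut F) = 0 := by
  by_contra h
  obtain ⟨τ, hτ, hτ'⟩ := exists_of_cnt_ne h
  rw [mem_piAntidiag] at hτ
  have h1 : wt F ≤ ∑ x ∈ F, τ x := Finset.sum_le_sum (hτ'.corank_lt hF)
  have h2 : ∑ x ∈ F, τ x = N := hτ.1
  omega

lemma eq_of_sum_eq {F : Finset α} {a b : α → ℕ} (hab : ∀ x ∈ F, a x ≤ b x)
    (hs : ∑ x ∈ F, b x = ∑ x ∈ F, a x) : ∀ x ∈ F, b x = a x := by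
  intro x hx
  have := (Finset.sum_eq_sum_iff_of_le hab).1 hs.symm x hx
  exact this.symm

/-- if `b ≥ a` and the sums differ by one then `b = a + δ` -/
lemma exists_single {F : Finset α} {a b : α → ℕ} (hab : ∀ x ∈ F, a x ≤ b x)
    (hs : ∑ x ∈ F, b x = ∑ x ∈ F, a x + 1) :
    ∃ x ∈ F, ∀ y ∈ F, b y = a y + (if y = x then 1 else 0) := by
  have h1 : ∑ x ∈ F, (b x - a x) = 1 := by
    have : ∑ x ∈ F, b x = ∑ x ∈ F, ((b x - a x) + a x) := by
      apply Finset.sum_congr rfl
      intro x hx
      have := hab x hx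
      omega
    rw [this, Finset.sum_add_distrib] at hs
    omega
  obtain ⟨x, hx, hx'⟩ := Finset.exists_ne_zero_of_sum_ne_zero (s := F) (f := fun x => b x - a x)
    (by rw [h1]; norm_num)
  refine ⟨x, hx, ?_⟩
  have h2 := Finset.add_sum_erase F (fun x => b x - a x) hx
  rw [h1] at h2
  have h3 : b x - a x = 1 := by
    have : b x - a x ≠ 0 := hx'
    omega
  have h4 : ∑ y ∈ F.erase x, (b y - a y) = 0 := by omega
  intro y hy
  have hy1 := hab y hy
  by_cases hyx : y = x
  · rw [if_pos hyx]
    subst hyx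
    omega
  · rw [if_neg hyx]
    have h5 := (Finset.sum_eq_zero_iff.1 h4) y (mem_erase.2 ⟨hyx, hy⟩)
    omega

lemma coeff_Ut_self {F : Finset α} (hF : F ∈ upSets α) :
    PowerSeries.coeff (wt F) (Ut F) = 1 := by
  rw [Ut, coeff_cnt]
  have e : (F.piAntidiag (wt F)).filter (StrictRev F) = {minRev F} := by
    ext τ
    rw [mem_filter, mem_singleton, mem_piAntidiag]
    constructor
    · rintro ⟨⟨h1, h2⟩, h3⟩
      have h4 := h3.corank_lt hF
      have h5 := eq_of_sum_eq (a := fun x => corank x + 1) (b := τ) h4 h1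
      funext x
      by_cases hx : x ∈ F
      · rw [h5 x hx]
        simp [minRev, hx]
      · have : τ x = 0 := by
          by_contra h0
          exact hx (h2 x h0)
        simp [minRev, hx, this]
    · rintro rfl
      refine ⟨⟨sum_minRev F, fun x hx => ?_⟩, minRev_strictRev F⟩
      by_contra h0
      exact hx (by simp [minRev, h0])
  rw [e, card_singleton]
  rfl

lemma coeff_Ut_succ {F : Finset α} (hF : F ∈ upSets α) :
    PowerSeries.coeff (wt F + 1) (Ut F) = (free F).card := by
  rw [Ut, coeff_cnt]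
  congr 1
  symm
  refine Finset.card_bij (fun x _ y => minRev F y + (if y = x then 1 else 0)) ?_ ?_ ?_
  · intro x hx
    rw [free, mem_filter] at hx
    rw [mem_filter, mem_piAntidiag]
    refine ⟨⟨?_, ?_⟩, ?_, ?_⟩
    · rw [Finset.sum_add_distrib, Finset.sum_ite_eq' F x, if_pos hx.1, sum_minRev]
      rfl
    · intro y hy
      by_contra h0
      apply hy
      have : y ≠ x := by
        rintro rfl
        exact h0 hx.1
      simp [minRev, h0, this]
    · intro y hy
      simp only [minRev, hy, if_true]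
      omega
    · intro a ha b hb hab
      have h1 := corank_lt hab
      simp only [minRev, ha, hb, if_true]
      by_cases hbx : b = x
      · subst hbx
        have h2 := hx.2 a ha hab
        have h3 : a ≠ b := hab.ne
        rw [if_pos rfl, if_neg h3]
        omega
      · rw [if_neg hbx]
        omega
  · intro x hx y hy hxy
    have h1 := congrFun hxy x
    simp only [if_true] at h1
    by_contra h0
    rw [if_neg h0] at h1
    omega
  · intro τ hτ
    rw [mem_filter, mem_piAntidiag] at hτ
    obtain ⟨⟨h1, h2⟩, h3⟩ := hτ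
    have h4 := h3.corank_lt hF
    obtain ⟨x, hx, hx'⟩ := exists_single (a := fun x => corank x + 1) (b := τ) h4 h1
    refine ⟨x, ?_, ?_⟩
    · rw [free, mem_filter]
      refine ⟨hx, fun y hy hyx hc => ?_⟩
      have h5 := h3.2 y hy x hx hyx
      rw [hx' y hy, hx' x hx, if_pos rfl, if_neg hyx.ne] at h5
      omega
    · funext y
      by_cases hy : y ∈ F
      · rw [hx' y hy]
        simp only [minRev, hy, if_true]
      · have : τ y = 0 := by
          by_contra h0
          exact hy (h2 y h0)
        have hyx : y ≠ x := by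
          rintro rfl
          exact hy hx
        simp [minRev, hy, this, hyx]

lemma coeff_Uinf_one (S : Finset α) : PowerSeries.coeff 1 (Uinf S) = (mx S).card := by
  rw [Uinf, coeff_cnt]
  congr 1
  symm
  refine Finset.card_bij (fun x _ y => if y = x then 1 else 0) ?_ ?_ ?_
  · intro x hx
    rw [mx, mem_filter] at hx
    rw [mem_filter, mem_piAntidiag]
    refine ⟨⟨?_, ?_⟩, ?_⟩
    · rw [Finset.sum_ite_eq' S x, if_pos hx.1]
    · intro y hy
      by_contra h0
      apply hy
      rw [if_neg]
      rintro rfl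
      exact h0 hx.1
    · intro a ha b hb hab
      by_cases hax : a = x
      · subst hax
        have hba : b = a := by
          by_contra hne
          exact hx.2 b hb (lt_of_le_of_ne hab (Ne.symm hne))
        rw [hba]
      · simp only [hax, if_false]
        exact Nat.zero_le _
  · intro x hx y hy hxy
    have h1 := congrFun hxy x
    simp only [if_true] at h1
    by_contra h0
    rw [if_neg h0] at h1
    omega
  · intro σ hσ
    rw [mem_filter, mem_piAntidiag] at hσ
    obtain ⟨⟨h1, h2⟩, h3⟩ := hσ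
    obtain ⟨x, hx, hx'⟩ := exists_single (F := S) (a := fun _ => 0) (b := σ)
      (fun _ _ => Nat.zero_le _) (by simpa using h1)
    refine ⟨x, ?_, ?_⟩
    · rw [mx, mem_filter]
      refine ⟨hx, fun y hy hxy => ?_⟩
      have h5 := h3 x hx y hy hxy.le
      rw [hx' y hy, hx' x hx, if_pos rfl, if_neg hxy.ne'] at h5
      omega
    · funext y
      by_cases hy : y ∈ S
      · rw [hx' y hy]
        simp
      · have h4 : σ y = 0 := by
          by_contra h0
          exact hy (h2 y h0)
        have hyx : y ≠ x := by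
          rintro rfl
          exact hy hx
        simp [h4, hyx]

lemma coeff_mul_lt {f g : PowerSeries ℤ} {s N : ℕ} (hf : ∀ n < s, PowerSeries.coeff n f = 0)
    (hN : N < s) : PowerSeries.coeff N (f * g) = 0 := by
  obtain ⟨f', rfl⟩ := PowerSeries.X_pow_dvd_iff.2 hf
  rw [mul_assoc, PowerSeries.coeff_X_pow_mul', if_neg (by omega)]

lemma coeff_mul_self {f g : PowerSeries ℤ} {s : ℕ} (hf : ∀ n < s, PowerSeries.coeff n f = 0)
    (h1 : PowerSeries.coeff s f = 1) (h2 : PowerSeries.coeff 0 g = 1) :
    PowerSeries.coeff s (f * g) = 1 := by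
  obtain ⟨f', rfl⟩ := PowerSeries.X_pow_dvd_iff.2 hf
  rw [PowerSeries.coeff_X_pow_mul', if_pos le_rfl, Nat.sub_self] at h1
  rw [mul_assoc, PowerSeries.coeff_X_pow_mul', if_pos le_rfl, Nat.sub_self]
  rw [PowerSeries.coeff_zero_eq_constantCoeff] at *
  rw [map_mul, h1, h2, mul_one]

lemma coeff_mul_succ {f g : PowerSeries ℤ} {s : ℕ} {a b : ℤ}
    (hf : ∀ n < s, PowerSeries.coeff n f = 0)
    (h1 : PowerSeries.coeff s f = 1) (h1' : PowerSeries.coeff (s + 1) f = a)
    (h2 : PowerSeries.coeff 0 g = 1) (h2' : PowerSeries.coeff 1 g = b) :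
    PowerSeries.coeff (s + 1) (f * g) = a + b := by
  obtain ⟨f', rfl⟩ := PowerSeries.X_pow_dvd_iff.2 hf
  rw [PowerSeries.coeff_X_pow_mul', if_pos le_rfl, Nat.sub_self] at h1
  rw [PowerSeries.coeff_X_pow_mul', if_pos (by omega), Nat.add_sub_cancel_left] at h1'
  rw [mul_assoc, PowerSeries.coeff_X_pow_mul', if_pos (by omega), Nat.add_sub_cancel_left,
    PowerSeries.coeff_mul, Finset.Nat.antidiagonal_succ]
  simp [h1, h1', h2, h2']
  ring

/-- the first two coefficients of a term of the expansion -/
lemma coeff_term_lt {F : Finset α} (hF : F ∈ upSets α) {N : ℕ} (hN : N < wt F) :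
    PowerSeries.coeff N (Ut F * Uinf Fᶜ) = 0 :=
  coeff_mul_lt (fun _ hn => coeff_Ut_lt hF hn) hN

lemma coeff_term_self {F : Finset α} (hF : F ∈ upSets α) :
    PowerSeries.coeff (wt F) (Ut F * Uinf Fᶜ) = 1 :=
  coeff_mul_self (fun _ hn => coeff_Ut_lt hF hn) (coeff_Ut_self hF) (constCoeff_Uinf _)

lemma coeff_term_succ {F : Finset α} (hF : F ∈ upSets α) :
    PowerSeries.coeff (wt F + 1) (Ut F * Uinf Fᶜ) = ((free F).card + (mx Fᶜ).card : ℤ) :=
  coeff_mul_succ (fun _ hn => coeff_Ut_lt hF hn) (coeff_Ut_self hF) (coeff_Ut_succ hF)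
    (constCoeff_Uinf _) (coeff_Uinf_one _)

end Pool.Gauss
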