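import Pool.Agent.Gauss35.Expansion

/-!
# The numbers `h_i` of a Gaussian poset are the coranks plus one
-/

set_option autoImplicit false
open scoped Classical
open Finset

namespace Pool.Gauss

variable {α : Type} [Fintype α] [PartialOrder α]

omit [Fintype α] in
lemma coheight_lt_top' [Finite α] (x : α) : Order.coheight x < ⊤ := by
  have := Fintype.ofFinite α
  rw [lt_top_iff_ne_top]
  intro h
  obtain ⟨p, _, hp⟩ := Order.coheight_eq_top_iff.1 h (Fintype.card α)
  have h1 := Fintype.card_le_of_injective p p.strictMono.injective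
  rw [Fintype.card_fin, hp] at h1
  omega

/-- the length of a longest chain above `x` -/
noncomputable def corank (x : α) : ℕ := (Order.coheight x).toNat

lemma coe_corank (x : α) : (corank x : ℕ∞) = Order.coheight x :=
  ENat.natCast_toNat (coheight_lt_top' x).ne

lemma corank_lt {x y : α} (h : x < y) : corank y < corank x := by
  have h1 := Order.coheight_strictAnti h (coheight_lt_top' y)
  rw [← coe_corank, ← coe_corank] at h1
  exact_mod_cast h1

lemma corank_anti {x y : α} (h : x ≤ y) : corank y ≤ corank x := by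
  rcases eq_or_lt_of_le h with rfl | h
  · exact le_rfl
  · exact (corank_lt h).le

lemma exists_gt_corank {x : α} {n : ℕ} (h : n < corank x) : ∃ y > x, corank y = n := by
  have h1 : (n : ℕ∞) < Order.coheight x := by
    rw [← coe_corank]
    exact_mod_cast h
  obtain ⟨y, hy, hy'⟩ := (Order.coe_lt_coheight_iff (coheight_lt_top' x)).1 h1
  rw [← coe_corank] at hy'
  exact ⟨y, hy, by exact_mod_cast hy'⟩

lemma corank_eq_zero {x : α} : corank x = 0 ↔ ∀ y, ¬ x < y := by
  constructor
  · intro h y hxy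
    have := corank_lt hxy
    omega
  · intro h
    by_contra h0
    obtain ⟨y, hy, _⟩ := exists_gt_corank (Nat.pos_of_ne_zero h0)
    exact h y hy

/-- a strictly reversing positive map is at least corank plus one -/
lemma StrictRev.corank_lt {F : Finset α} (hF : F ∈ upSets α) {τ : α → ℕ} (hτ : StrictRev F τ) :
    ∀ x ∈ F, corank x + 1 ≤ τ x := by
  have key : ∀ n : ℕ, ∀ x ∈ F, corank x = n → n + 1 ≤ τ x := by
    intro n
    induction n with
    | zero =>
      intro x hx _
      exact hτ.1 x hx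
    | succ n ih =>
      intro x hx hn
      obtain ⟨y, hy, hy'⟩ := exists_gt_corank (x := x) (n := n) (by omega)
      have hyF := mem_upSets.1 hF x hx y hy.le
      have h1 := ih y hyF hy'
      have h2 := hτ.2 x hx y hyF hy
      omega
  intro x hx
  exact key _ x hx rfl

/-- the minimal strictly reversing map -/
noncomputable def minRev (F : Finset α) (x : α) : ℕ := if x ∈ F then corank x + 1 else 0

lemma minRev_strictRev (F : Finset α) : StrictRev F (minRev F) := by
  constructor
  · intro x hx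
    simp [minRev, hx]
  · intro x hx y hy hxy
    have := corank_lt hxy
    simp only [minRev, hx, hy, if_true]
    omega

lemma sum_minRev (F : Finset α) : ∑ x ∈ F, minRev F x = ∑ x ∈ F, (corank x + 1) :=
  Finset.sum_congr rfl fun x hx => by simp [minRev, hx]

lemma cnt_nonneg (S : Finset α) (p : (α → ℕ) → Prop) (N : ℕ) :
    0 ≤ PowerSeries.coeff N (cnt S p) := by
  rw [coeff_cnt]
  positivity

lemma cnt_pos {S : Finset α} {p : (α → ℕ) → Prop} {N : ℕ} {v : α → ℕ}
    (hv : v ∈ S.piAntidiag N) (hp : p v) : 0 < PowerSeries.coeff N (cnt S p) := by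
  rw [coeff_cnt]
  exact_mod_cast Finset.card_pos.2 ⟨v, mem_filter.2 ⟨hv, hp⟩⟩

lemma exists_of_cnt_ne {S : Finset α} {p : (α → ℕ) → Prop} {N : ℕ}
    (h : PowerSeries.coeff N (cnt S p) ≠ 0) : ∃ v ∈ S.piAntidiag N, p v := by
  rw [coeff_cnt] at h
  have h1 : ((S.piAntidiag N).filter p).card ≠ 0 := by exact_mod_cast h
  obtain ⟨v, hv⟩ := Finset.card_pos.1 (Nat.pos_of_ne_zero h1)
  rw [mem_filter] at hv
  exact ⟨v, hv.1, hv.2⟩

lemma constCoeff_Uinf (S : Finset α) : PowerSeries.coeff 0 (Uinf S) = 1 := by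
  rw [Uinf, coeff_cnt, piAntidiag_zero]
  have : MonoOn S (0 : α → ℕ) := by
    intro x _ y _ _
    exact le_rfl
  rw [filter_singleton, if_pos this]
  simp

lemma Ut_nonneg (F : Finset α) (N : ℕ) : 0 ≤ PowerSeries.coeff N (Ut F) := cnt_nonneg _ _ N

lemma Uinf_nonneg (F : Finset α) (N : ℕ) : 0 ≤ PowerSeries.coeff N (Uinf F) := cnt_nonneg _ _ N

lemma coeff_mul_nonneg {f g : PowerSeries ℤ} (hf : ∀ n, 0 ≤ PowerSeries.coeff n f)
    (hg : ∀ n, 0 ≤ PowerSeries.coeff n g) (N : ℕ) : 0 ≤ PowerSeries.coeff N (f * g) := by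
  rw [PowerSeries.coeff_mul]
  exact Finset.sum_nonneg fun ab _ => mul_nonneg (hf _) (hg _)

lemma coeff_mul_pos {f g : PowerSeries ℤ} (hf : ∀ n, 0 ≤ PowerSeries.coeff n f)
    (hg : ∀ n, 0 ≤ PowerSeries.coeff n g) {a b : ℕ} (ha : 0 < PowerSeries.coeff a f)
    (hb : 0 < PowerSeries.coeff b g) : 0 < PowerSeries.coeff (a + b) (f * g) := by
  rw [PowerSeries.coeff_mul]
  refine Finset.sum_pos' (fun ab _ => mul_nonneg (hf _) (hg _)) ⟨(a, b), ?_, mul_pos ha hb⟩
  simp

lemma esym_nonneg {ι : Type} [Fintype ι] (h : ι → ℕ) (k N : ℕ) :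
    0 ≤ PowerSeries.coeff N (esym h k) := by
  rw [esym, map_sum]
  refine Finset.sum_nonneg fun s _ => ?_
  rw [PowerSeries.coeff_X_pow]
  split_ifs <;> norm_num

lemma esym_pos {ι : Type} [Fintype ι] (h : ι → ℕ) (s : Finset ι) :
    0 < PowerSeries.coeff (∑ i ∈ s, h i) (esym h s.card) := by
  rw [esym, map_sum]
  refine Finset.sum_pos' (fun t _ => ?_) ⟨s, ?_, ?_⟩
  · rw [PowerSeries.coeff_X_pow]
    split_ifs <;> norm_num
  · rw [mem_powersetCard_univ]
  · rw [PowerSeries.coeff_X_pow, if_pos rfl]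
    norm_num

/-- exponents of `esym` are bounded below by subset sums -/
lemma exists_of_esym {ι : Type} [Fintype ι] {h : ι → ℕ} {k N : ℕ}
    (hN : PowerSeries.coeff N (esym h k) ≠ 0) : ∃ s : Finset ι, s.card = k ∧ ∑ i ∈ s, h i = N := by
  rw [esym, map_sum] at hN
  obtain ⟨s, hs, hs'⟩ := Finset.exists_ne_zero_of_sum_ne_zero hN
  rw [mem_powersetCard_univ] at hs
  rw [PowerSeries.coeff_X_pow] at hs'
  refine ⟨s, hs, ?_⟩
  by_contra h0
  exact hs' (if_neg (Ne.symm h0))

lemma exists_of_mul {f g : PowerSeries ℤ} {N : ℕ} (h : PowerSeries.coeff N (f * g) ≠ 0) :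
    ∃ a b : ℕ, a + b = N ∧ PowerSeries.coeff a f ≠ 0 ∧ PowerSeries.coeff b g ≠ 0 := by
  rw [PowerSeries.coeff_mul] at h
  obtain ⟨ab, h1, h2⟩ := Finset.exists_ne_zero_of_sum_ne_zero h
  exact ⟨ab.1, ab.2, by simpa using h1, left_ne_zero_of_mul h2, right_ne_zero_of_mul h2⟩

lemma A_nonneg (k N : ℕ) : 0 ≤ PowerSeries.coeff N (A α k) := by
  rw [A, map_sum]
  exact Finset.sum_nonneg fun F _ => coeff_mul_nonneg (Ut_nonneg F) (Uinf_nonneg Fᶜ) N

lemma A_pos {F : Finset α} (hF : F ∈ upSets α) :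
    0 < PowerSeries.coeff (∑ x ∈ F, (corank x + 1)) (A α F.card) := by
  rw [A, map_sum]
  refine Finset.sum_pos' (fun F _ => coeff_mul_nonneg (Ut_nonneg F) (Uinf_nonneg Fᶜ) _)
    ⟨F, mem_filter.2 ⟨hF, rfl⟩, ?_⟩
  have h1 : 0 < PowerSeries.coeff (∑ x ∈ F, (corank x + 1)) (Ut F) := by
    refine cnt_pos (v := minRev F) ?_ (minRev_strictRev F)
    rw [mem_piAntidiag]
    refine ⟨sum_minRev F, fun x hx => ?_⟩
    by_contra h0
    exact hx (by simp [minRev, h0])
  have h2 : 0 < PowerSeries.coeff 0 (Uinf Fᶜ) := by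
    rw [constCoeff_Uinf]
    norm_num
  have h3 := coeff_mul_pos (Ut_nonneg F) (Uinf_nonneg Fᶜ) h1 h2
  rw [add_zero] at h3
  exact h3

lemma exists_of_A {k N : ℕ} (h : PowerSeries.coeff N (A α k) ≠ 0) :
    ∃ F ∈ upSets α, F.card = k ∧ ∑ x ∈ F, (corank x + 1) ≤ N := by
  rw [A, map_sum] at h
  obtain ⟨F, hF, hF'⟩ := Finset.exists_ne_zero_of_sum_ne_zero h
  rw [mem_filter] at hF
  obtain ⟨a, b, hab, ha, _⟩ := exists_of_mul hF'
  obtain ⟨τ, hτ, hτ'⟩ := exists_of_cnt_ne ha
  rw [mem_piAntidiag] at hτ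
  refine ⟨F, hF.1, hF.2, ?_⟩
  calc ∑ x ∈ F, (corank x + 1) ≤ ∑ x ∈ F, τ x := Finset.sum_le_sum (hτ'.corank_lt hF.1)
    _ = a := hτ.1
    _ ≤ N := by omega

/-- comparison of multisets through truncated sums -/
lemma sum_sub_eq {ι : Type} [Fintype ι] (w : ι → ℕ) (v : ℕ) :
    ∑ i, (v + 1 - w i) = ∑ i, (v - w i) + (univ.filter fun i => w i ≤ v).card := by
  rw [Finset.card_filter, ← Finset.sum_add_distrib]
  apply Finset.sum_congr rfl
  intro i _
  split_ifs with h <;> omega

lemma card_le_eq {ι κ : Type} [Fintype ι] [Fintype κ] (w : ι → ℕ) (w' : κ → ℕ)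
    (h : ∀ v : ℕ, ∑ i, (v - w i) = ∑ i, (v - w' i)) (v : ℕ) :
    (univ.filter fun i => w i ≤ v).card = (univ.filter fun i => w' i ≤ v).card := by
  have h1 := sum_sub_eq w v
  have h2 := sum_sub_eq w' v
  rw [h, h] at h1
  omega

lemma card_le_succ {ι : Type} [Fintype ι] (w : ι → ℕ) (v : ℕ) :
    (univ.filter fun i => w i ≤ v + 1).card =
      (univ.filter fun i => w i ≤ v).card + (univ.filter fun i => w i = v + 1).card := by
  rw [← Finset.card_union_of_disjoint]
  · congr 1
    ext i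
    simp only [mem_filter, mem_univ, true_and, mem_union]
    omega
  · rw [Finset.disjoint_left]
    intro i hi hi'
    rw [mem_filter] at hi hi'
    omega

lemma card_eq_eq {ι κ : Type} [Fintype ι] [Fintype κ] (w : ι → ℕ) (w' : κ → ℕ)
    (h : ∀ v : ℕ, ∑ i, (v - w i) = ∑ i, (v - w' i)) (v : ℕ) :
    (univ.filter fun i => w i = v).card = (univ.filter fun i => w' i = v).card := by
  cases v with
  | zero =>
    have := card_le_eq w w' h 0
    simpa using this
  | succ v =>
    have h1 := card_le_eq w w' h v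
    have h2 := card_le_eq w w' h (v + 1)
    rw [card_le_succ w, card_le_succ w'] at h2
    omega

/-- a subset sum as a truncated sum -/
lemma sum_filter_sub {ι : Type} [Fintype ι] (w : ι → ℕ) (v : ℕ) :
    ∑ i, (v - w i) + ∑ i ∈ univ.filter (fun i => w i < v), w i =
      (univ.filter fun i => w i < v).card * v := by
  have h1 : ∑ i, (v - w i) = ∑ i ∈ univ.filter (fun i => w i < v), (v - w i) := by
    rw [Finset.sum_filter]
    apply Finset.sum_congr rfl
    intro i _
    split_ifs with h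
    · rfl
    · omega
  rw [h1, ← Finset.sum_add_distrib, Finset.sum_congr rfl (g := fun _ => v), Finset.sum_const,
    smul_eq_mul]
  intro i hi
  rw [mem_filter] at hi
  omega

lemma card_mul_le {ι : Type} [Fintype ι] (w : ι → ℕ) (v : ℕ) (s : Finset ι) :
    s.card * v ≤ ∑ i, (v - w i) + ∑ i ∈ s, w i := by
  have h1 : ∑ i ∈ s, (v - w i) ≤ ∑ i, (v - w i) :=
    Finset.sum_le_sum_of_subset (subset_univ s)
  have h2 : s.card * v ≤ ∑ i ∈ s, (v - w i) + ∑ i ∈ s, w i := by
    rw [← Finset.sum_add_distrib, ← smul_eq_mul, ← Finset.sum_const]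
    apply Finset.sum_le_sum
    intro i _
    omega
  omega

/-- **(I2)** the numbers `h_i` are the coranks plus one -/
theorem card_h_eq {h : Fin (Fintype.card α) → ℕ} (hG : IsGaussianWith α h) (v : ℕ) :
    (univ.filter fun i => h i = v).card = (univ.filter fun x : α => corank x + 1 = v).card := by
  apply card_eq_eq h (fun x : α => corank x + 1)
  intro v
  apply le_antisymm
  · -- choose `s = {h < v}`
    set s := univ.filter (fun i => h i < v) with hs
    have h1 := sum_filter_sub h v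
    rw [← hs] at h1
    have hsc : s.card ≤ Fintype.card α := by
      have := card_le_univ s
      rwa [Fintype.card_fin] at this
    have h2 : PowerSeries.coeff (0 + ∑ i ∈ s, h i) (A α s.card) ≠ 0 := by
      rw [A_eq hG _ hsc]
      have h0 : 0 < PowerSeries.coeff 0 (Uinf (univ : Finset α)) := by
        rw [constCoeff_Uinf]; norm_num
      exact (coeff_mul_pos (Uinf_nonneg _) (esym_nonneg _ _) h0 (esym_pos h s)).ne'
    rw [zero_add] at h2
    obtain ⟨F, _, hF2, hF3⟩ := exists_of_A h2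
    have h3 := card_mul_le (fun x : α => corank x + 1) v F
    rw [hF2] at h3
    omega
  · -- choose `F = {corank + 1 < v}`
    set F := univ.filter (fun x : α => corank x + 1 < v) with hF
    have hFup : F ∈ upSets α := by
      rw [mem_upSets]
      intro x hx y hxy
      rw [hF, mem_filter] at hx ⊢
      have := corank_anti hxy
      exact ⟨mem_univ y, by omega⟩
    have h1 := sum_filter_sub (fun x : α => corank x + 1) v
    rw [← hF] at h1
    have h2 := (A_pos hFup).ne'
    rw [A_eq hG _ (card_le_univ F)] at h2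
    obtain ⟨a, b, hab, _, hb⟩ := exists_of_mul h2
    obtain ⟨s, hs1, hs2⟩ := exists_of_esym hb
    have h3 := card_mul_le h v s
    rw [hs1] at h3
    omega

end Pool.Gauss
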