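import Mathlib

/-!
# Counting functions `α → ℕ` of given sum by a power series
-/

set_option autoImplicit false
open scoped Classical
open Finset

namespace Pool.Gauss

variable {α : Type}

/-- the generating function of the functions `v : α → ℕ` supported in `S` and satisfying `p` -/
noncomputable def cnt (S : Finset α) (p : (α → ℕ) → Prop) : PowerSeries ℤ :=
  PowerSeries.mk fun N => (((S.piAntidiag N).filter p).card : ℤ)

lemma coeff_cnt (S : Finset α) (p : (α → ℕ) → Prop) (N : ℕ) :
    PowerSeries.coeff N (cnt S p) = (((S.piAntidiag N).filter p).card : ℤ) := by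
  rw [cnt, PowerSeries.coeff_mk]

lemma cnt_congr {S : Finset α} {p q : (α → ℕ) → Prop}
    (h : ∀ v : α → ℕ, (∀ x, v x ≠ 0 → x ∈ S) → (p v ↔ q v)) : cnt S p = cnt S q := by
  ext N
  rw [coeff_cnt, coeff_cnt]
  congr 2
  apply Finset.filter_congr
  intro v hv
  exact h v (mem_piAntidiag.1 hv).2

lemma sum_eq_zero_of_support {S T : Finset α} (hd : Disjoint S T) {v : α → ℕ}
    (hv : ∀ x, v x ≠ 0 → x ∈ S) : ∑ x ∈ T, v x = 0 := by
  apply Finset.sum_eq_zero
  intro x hx
  by_contra h
  exact Finset.disjoint_left.1 hd (hv x h) hx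

/-- product formula -/
lemma cnt_mul {S T : Finset α} (hd : Disjoint S T) {p q r : (α → ℕ) → Prop}
    (h : ∀ u v : α → ℕ, (∀ x, u x ≠ 0 → x ∈ S) → (∀ x, v x ≠ 0 → x ∈ T) →
      (r (u + v) ↔ p u ∧ q v)) :
    cnt S p * cnt T q = cnt (S ∪ T) r := by
  ext N
  rw [PowerSeries.coeff_mul, coeff_cnt]
  have h1 : ∀ ab ∈ antidiagonal N, PowerSeries.coeff ab.1 (cnt S p) *
      PowerSeries.coeff ab.2 (cnt T q) =
      ((((S.piAntidiag ab.1).filter p) ×ˢ ((T.piAntidiag ab.2).filter q)).card : ℤ) := by
    intro ab _
    rw [coeff_cnt, coeff_cnt, Finset.card_product]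
    push_cast
    rfl
  rw [Finset.sum_congr rfl h1, ← Nat.cast_sum, ← Finset.card_sigma]
  congr 1
  refine Finset.card_nbij' (fun z => z.2.1 + z.2.2)
    (fun v => ⟨(∑ x ∈ S, v x, ∑ x ∈ T, v x),
      (fun x => if x ∈ S then v x else 0, fun x => if x ∈ T then v x else 0)⟩) ?_ ?_ ?_ ?_
  · rintro ⟨⟨a, b⟩, ⟨u, v⟩⟩ hz
    simp only [Finset.coe_sigma, Set.mem_sigma_iff, Finset.mem_coe, HasAntidiagonal.mem_antidiagonal,
      Finset.mem_product, Finset.mem_filter, mem_piAntidiag] at hz
    obtain ⟨hab, ⟨⟨hu1, hu2⟩, hu3⟩, ⟨⟨hv1, hv2⟩, hv3⟩⟩ := hz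
    simp only [Finset.coe_filter, mem_piAntidiag, Set.mem_ofPred_eq]
    refine ⟨⟨?_, ?_⟩, (h u v hu2 hv2).2 ⟨hu3, hv3⟩⟩
    · rw [Finset.sum_union hd]
      simp only [Pi.add_apply, Finset.sum_add_distrib]
      have e1 := sum_eq_zero_of_support hd hu2
      have e2 := sum_eq_zero_of_support hd.symm hv2
      have e3 : ∑ x ∈ S, u x = a := hu1
      have e4 : ∑ x ∈ T, v x = b := hv1
      omega
    · intro x hx
      rw [Finset.mem_union]
      by_cases hux : u x = 0
      · right
        apply hv2
        intro h0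
        apply hx
        simp [hux, h0]
      · left; exact hu2 x hux
  · intro v hv
    simp only [Finset.coe_filter, mem_piAntidiag, Set.mem_ofPred_eq] at hv
    obtain ⟨⟨hv1, hv2⟩, hv3⟩ := hv
    have hu : ∀ x, (fun x => if x ∈ S then v x else 0) x ≠ 0 → x ∈ S := by
      intro x hx
      by_contra h0
      exact hx (by simp [h0])
    have hw : ∀ x, (fun x => if x ∈ T then v x else 0) x ≠ 0 → x ∈ T := by
      intro x hx
      by_contra h0
      exact hx (by simp [h0])
    have hsum : (fun x => if x ∈ S then v x else 0) + (fun x => if x ∈ T then v x else 0) = v := by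
      funext x
      simp only [Pi.add_apply]
      by_cases hS : x ∈ S
      · have hT : x ∉ T := Finset.disjoint_left.1 hd hS
        simp [hS, hT]
      · by_cases hT : x ∈ T
        · simp [hS, hT]
        · have : v x = 0 := by
            by_contra h0
            have := hv2 x h0
            rw [Finset.mem_union] at this
            tauto
          simp [hS, hT, this]
    have hpq := (h _ _ hu hw).1 (by rw [hsum]; exact hv3)
    simp only [Finset.coe_sigma, Set.mem_sigma_iff, Finset.mem_coe, HasAntidiagonal.mem_antidiagonal,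
      Finset.mem_product, Finset.mem_filter, mem_piAntidiag]
    refine ⟨?_, ⟨⟨?_, hu⟩, hpq.1⟩, ⟨⟨?_, hw⟩, hpq.2⟩⟩
    · rw [← hv1, Finset.sum_union hd]
    · apply Finset.sum_congr rfl
      intro x hx
      simp [hx]
    · apply Finset.sum_congr rfl
      intro x hx
      simp [hx]
  · rintro ⟨⟨a, b⟩, ⟨u, v⟩⟩ hz
    simp only [Finset.coe_sigma, Set.mem_sigma_iff, Finset.mem_coe, HasAntidiagonal.mem_antidiagonal,
      Finset.mem_product, Finset.mem_filter, mem_piAntidiag] at hz
    obtain ⟨hab, ⟨⟨hu1, hu2⟩, hu3⟩, ⟨⟨hv1, hv2⟩, hv3⟩⟩ := hz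
    have e1 := sum_eq_zero_of_support hd hu2
    have e2 := sum_eq_zero_of_support hd.symm hv2
    have e3 : ∑ x ∈ S, u x = a := hu1
    have e4 : ∑ x ∈ T, v x = b := hv1
    have e5 : (fun x => if x ∈ S then (u + v) x else 0) = u := by
      funext x
      by_cases hS : x ∈ S
      · have : v x = 0 := by
          by_contra h0
          exact Finset.disjoint_left.1 hd hS (hv2 x h0)
        simp [hS, this]
      · have : u x = 0 := by
          by_contra h0
          exact hS (hu2 x h0)
        simp [hS, this]
    have e6 : (fun x => if x ∈ T then (u + v) x else 0) = v := by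
      funext x
      by_cases hT : x ∈ T
      · have : u x = 0 := by
          by_contra h0
          exact Finset.disjoint_left.1 hd (hu2 x h0) hT
        simp [hT, this]
      · have : v x = 0 := by
          by_contra h0
          exact hT (hv2 x h0)
        simp [hT, this]
    have e7 : ∑ x ∈ S, (u + v) x = a := by
      simp only [Pi.add_apply, Finset.sum_add_distrib]
      omega
    have e8 : ∑ x ∈ T, (u + v) x = b := by
      simp only [Pi.add_apply, Finset.sum_add_distrib]
      omega
    simp only [e5, e6, e7, e8]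
  · intro v hv
    simp only [Finset.coe_filter, mem_piAntidiag, Set.mem_ofPred_eq] at hv
    obtain ⟨⟨hv1, hv2⟩, hv3⟩ := hv
    funext x
    simp only [Pi.add_apply]
    by_cases hS : x ∈ S
    · have hT : x ∉ T := Finset.disjoint_left.1 hd hS
      simp [hS, hT]
    · by_cases hT : x ∈ T
      · simp [hS, hT]
      · have : v x = 0 := by
          by_contra h0
          have := hv2 x h0
          rw [Finset.mem_union] at this
          tauto
        simp [hS, hT, this]

/-- shift by a constant -/
lemma X_pow_mul_cnt (S : Finset α) (m : ℕ) {p q : (α → ℕ) → Prop}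
    (h : ∀ v : α → ℕ, (∀ x, v x ≠ 0 → x ∈ S) →
      (q (fun x => if x ∈ S then m + v x else 0) ↔ p v))
    (hq : ∀ v, q v → ∀ x ∈ S, m ≤ v x) :
    (PowerSeries.X : PowerSeries ℤ) ^ (m * S.card) * cnt S p = cnt S q := by
  ext N
  rw [PowerSeries.coeff_X_pow_mul']
  have hsum : ∀ v : α → ℕ, ∑ x ∈ S, (if x ∈ S then m + v x else 0) = m * S.card + ∑ x ∈ S, v x := by
    intro v
    rw [Finset.sum_congr rfl (g := fun x => m + v x) (fun x hx => by simp [hx]),
      Finset.sum_add_distrib, Finset.sum_const, smul_eq_mul, mul_comm]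
  split_ifs with hN
  · rw [coeff_cnt, coeff_cnt]
    congr 1
    refine Finset.card_nbij' (fun v x => if x ∈ S then m + v x else 0)
      (fun v x => v x - m) ?_ ?_ ?_ ?_
    · intro v hv
      simp only [Finset.coe_filter, mem_piAntidiag, Set.mem_ofPred_eq] at hv ⊢
      obtain ⟨⟨hv1, hv2⟩, hv3⟩ := hv
      refine ⟨⟨?_, ?_⟩, (h v hv2).2 hv3⟩
      · rw [hsum, hv1]; omega
      · intro x hx
        by_contra h0
        exact hx (by simp [h0])
    · intro v hv
      simp only [Finset.coe_filter, mem_piAntidiag, Set.mem_ofPred_eq] at hv ⊢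
      obtain ⟨⟨hv1, hv2⟩, hv3⟩ := hv
      have hge := hq v hv3
      have hback : (fun x => if x ∈ S then m + (v x - m) else 0) = v := by
        funext x
        by_cases hx : x ∈ S
        · have := hge x hx
          simp only [hx, if_true]
          omega
        · have : v x = 0 := by
            by_contra h0
            exact hx (hv2 x h0)
          simp [hx, this]
      have hsup : ∀ x, v x - m ≠ 0 → x ∈ S := by
        intro x hx
        apply hv2
        omega
      refine ⟨⟨?_, hsup⟩, ?_⟩
      · have e := hsum (fun x => v x - m)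
        have e2 : ∑ x ∈ S, (if x ∈ S then m + (v x - m) else 0) = ∑ x ∈ S, v x :=
          Finset.sum_congr rfl fun x _ => congrFun hback x
        rw [e2, hv1] at e
        omega
      · rw [← h _ hsup, hback]
        exact hv3
    · intro v hv
      simp only [Finset.coe_filter, mem_piAntidiag, Set.mem_ofPred_eq] at hv
      obtain ⟨⟨hv1, hv2⟩, hv3⟩ := hv
      funext x
      by_cases hx : x ∈ S
      · simp [hx]
      · have : v x = 0 := by
          by_contra h0
          exact hx (hv2 x h0)
        simp [hx, this]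
    · intro v hv
      simp only [Finset.coe_filter, mem_piAntidiag, Set.mem_ofPred_eq] at hv
      obtain ⟨⟨hv1, hv2⟩, hv3⟩ := hv
      funext x
      by_cases hx : x ∈ S
      · have := hq v hv3 x hx
        simp only [hx, if_true]
        omega
      · have : v x = 0 := by
          by_contra h0
          exact hx (hv2 x h0)
        simp [hx, this]
  · symm
    rw [coeff_cnt, Nat.cast_eq_zero, Finset.card_eq_zero, Finset.filter_eq_empty_iff]
    intro v hv hqv
    rw [mem_piAntidiag] at hv
    apply hN
    rw [← hv.1]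
    calc m * S.card = ∑ _x ∈ S, m := by rw [Finset.sum_const, smul_eq_mul, mul_comm]
      _ ≤ ∑ x ∈ S, v x := Finset.sum_le_sum fun x hx => hq v hqv x hx

end Pool.Gauss
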