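import Pool.Agent.Gauss35.Excess

/-!
# The exact formula in terms of energies and covers

`w = min (corank, i) + ε`; the sets 'in', 'out' and 'free' are described by covers only.
-/

set_option autoImplicit false
open scoped Classical
open Finset

namespace Pool.Gauss

variable {α : Type} [Fintype α] [PartialOrder α]

/-- gradedness by the corank -/
def Grad (α : Type) [Fintype α] [PartialOrder α] : Prop :=
  ∀ x y : α, x ⋖ y → corank x = corank y + 1

lemma grad {h : Fin (Fintype.card α) → ℕ} (hG : IsGaussianWith α h) : Grad α :=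
  fun _ _ hxy => corank_covBy hG hxy

/-- 'in' condition by covers, for the function `w` -/
def inC (i : ℕ) (w : α → ℕ) (y : α) : Prop := w y < i ∨ ∃ x, x ⋖ y ∧ w y < w x

/-- 'out' condition by covers, for the function `w` -/
def outC (w : α → ℕ) (y : α) : Prop := ∃ z, y ⋖ z ∧ w y ≤ w z

/-- if no element is both in and out (by covers), then elements above an element
of value `≥` are larger -/
lemma out_mono {i : ℕ} {w : α → ℕ} (h : ∀ y, ¬ (inC i w y ∧ outC w y)) :
    ∀ n : ℕ, ∀ x y : α, corank x ≤ corank y + n → x < y →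
      (∀ c, c ⋖ y → x ≤ c → w c ≤ w y) → w x ≤ w y := by
  intro n
  induction n with
  | zero =>
    intro x y hn hxy _
    have := corank_lt hxy
    omega
  | succ n ih =>
    intro x y hn hxy hc
    obtain ⟨c, hxc, hcy⟩ := exists_covBy_of_lt' hxy
    have h1 := hc c hcy hxc
    rcases eq_or_lt_of_le hxc with h2 | h2
    · rw [h2]
      exact h1
    · have h3 := corank_lt hcy.lt
      refine le_trans (ih x c (by omega) h2 ?_) h1
      intro e he _
      by_contra h4
      push Not at h4
      exact h c ⟨Or.inr ⟨e, he, h4⟩, ⟨y, hcy, h1⟩⟩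

lemma inC_of_inS {i : ℕ} {w : α → ℕ} (h : ∀ y, ¬ (inC i w y ∧ outC w y)) {y : α}
    (hy : y ∈ inS i w) : inC i w y := by
  rw [mem_inS] at hy
  rcases hy with h1 | ⟨x, hx, h1⟩
  · exact Or.inl h1
  · by_contra h2
    have h3 : ∀ c, c ⋖ y → x ≤ c → w c ≤ w y := by
      intro c hc _
      by_contra h4
      push Not at h4
      exact h2 (Or.inr ⟨c, hc, h4⟩)
    have := out_mono h (corank x) x y (by omega) hx h3
    omega

lemma outC_of_outS_aux {i : ℕ} {w : α → ℕ} (h : ∀ y, ¬ (inC i w y ∧ outC w y)) :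
    ∀ n : ℕ, ∀ x y : α, corank x ≤ corank y + n → x < y → w x ≤ w y → outC w x := by
  intro n
  induction n with
  | zero =>
    intro x y hn hxy _
    have := corank_lt hxy
    omega
  | succ n ih =>
    intro x y hn hxy hw
    by_contra h0
    -- every element strictly between has smaller value
    obtain ⟨c, hxc, hcy⟩ := exists_covBy_of_lt hxy
    have h1 : w c < w x := by
      by_contra h2
      push Not at h2
      exact h0 ⟨c, hxc, h2⟩
    rcases eq_or_lt_of_le hcy with h2 | h2
    · rw [h2] at h1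
      omega
    · have h3 := corank_lt hxc.lt
      have h4 := ih c y (by omega) h2 (by omega)
      exact h c ⟨Or.inr ⟨x, hxc, h1⟩, h4⟩

lemma good_iff_cover {i : ℕ} {w : α → ℕ} :
    Good i w ↔ ∀ y, ¬ (inC i w y ∧ outC w y) := by
  constructor
  · rintro h y ⟨h1, z, hz, h2⟩
    have h3 : y ∈ inS i w := by
      rw [mem_inS]
      rcases h1 with h1 | ⟨x, hx, h1⟩
      · exact Or.inl h1
      · exact Or.inr ⟨x, hx.lt, h1⟩
    have h4 : y ∈ outS w := by
      rw [mem_outS]
      exact ⟨z, hz.lt, h2⟩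
    exact Finset.disjoint_left.1 h h3 h4
  · intro h
    rw [Good, Finset.disjoint_left]
    intro y h1 h2
    rw [mem_outS] at h2
    obtain ⟨z, hz, h3⟩ := h2
    exact h y ⟨inC_of_inS h h1, outC_of_outS_aux h (corank y) y z (by omega) hz h3⟩

lemma mem_inS_iff {i : ℕ} {w : α → ℕ} (h : Good i w) {y : α} : y ∈ inS i w ↔ inC i w y := by
  constructor
  · exact inC_of_inS (good_iff_cover.1 h)
  · intro h1
    rw [mem_inS]
    rcases h1 with h1 | ⟨x, hx, h1⟩
    · exact Or.inl h1
    · exact Or.inr ⟨x, hx.lt, h1⟩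

lemma mem_outS_iff {i : ℕ} {w : α → ℕ} (h : Good i w) {y : α} : y ∈ outS w ↔ outC w y := by
  constructor
  · intro h2
    rw [mem_outS] at h2
    obtain ⟨z, hz, h3⟩ := h2
    exact outC_of_outS_aux (good_iff_cover.1 h) (corank y) y z (by omega) hz h3
  · rintro ⟨z, hz, h2⟩
    rw [mem_outS]
    exact ⟨z, hz.lt, h2⟩

/-- 'in' condition for the energy function `ε` -/
def inE (i : ℕ) (ε : α → ℕ) (y : α) : Prop :=
  (corank y < i ∧ (corank y + ε y < i ∨ ∃ x, x ⋖ y ∧ ε y ≤ ε x)) ∨
    (i ≤ corank y ∧ ∃ x, x ⋖ y ∧ ε y < ε x)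

/-- 'out' condition for the energy function `ε` -/
def outE (i : ℕ) (ε : α → ℕ) (y : α) : Prop :=
  (corank y ≤ i ∧ ∃ z, y ⋖ z ∧ ε y < ε z) ∨ (i < corank y ∧ ∃ z, y ⋖ z ∧ ε y ≤ ε z)

lemma inC_iff (hg : Grad α) {i : ℕ} {ε : α → ℕ} {y : α} :
    inC i (w0 i + ε) y ↔ inE i ε y := by
  have e : ∀ z : α, (w0 i + ε : α → ℕ) z = min (corank z) i + ε z := fun _ => rfl
  constructor
  · rintro (h | ⟨x, hx, h⟩)
    · rw [e] at h
      have h1 : corank y < i := by
        by_contra h2
        rw [min_eq_right (by omega)] at h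
        omega
      rw [min_eq_left h1.le] at h
      exact Or.inl ⟨h1, Or.inl h⟩
    · rw [e, e] at h
      have h1 := hg x y hx
      by_cases h2 : corank y < i
      · rw [min_eq_left h2.le, min_eq_left (by omega), h1] at h
        exact Or.inl ⟨h2, Or.inr ⟨x, hx, by omega⟩⟩
      · rw [min_eq_right (by omega), min_eq_right (by omega)] at h
        exact Or.inr ⟨by omega, x, hx, by omega⟩
  · rintro (⟨h1, h⟩ | ⟨h1, x, hx, h⟩)
    · rcases h with h | ⟨x, hx, h⟩
      · left
        rw [e, min_eq_left h1.le]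
        exact h
      · right
        refine ⟨x, hx, ?_⟩
        have h2 := hg x y hx
        rw [e, e, min_eq_left h1.le, min_eq_left (by omega), h2]
        omega
    · right
      refine ⟨x, hx, ?_⟩
      have h2 := hg x y hx
      rw [e, e, min_eq_right h1, min_eq_right (by omega)]
      omega

lemma outC_iff (hg : Grad α) {i : ℕ} {ε : α → ℕ} {y : α} :
    outC (w0 i + ε) y ↔ outE i ε y := by
  have e : ∀ z : α, (w0 i + ε : α → ℕ) z = min (corank z) i + ε z := fun _ => rfl
  constructor
  · rintro ⟨z, hz, h⟩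
    rw [e, e] at h
    have h1 := hg y z hz
    by_cases h2 : corank y ≤ i
    · rw [min_eq_left h2, min_eq_left (by omega), h1] at h
      exact Or.inl ⟨h2, z, hz, by omega⟩
    · rw [min_eq_right (by omega), min_eq_right (by omega)] at h
      exact Or.inr ⟨by omega, z, hz, by omega⟩
  · rintro (⟨h1, z, hz, h⟩ | ⟨h1, z, hz, h⟩)
    · refine ⟨z, hz, ?_⟩
      have h2 := hg y z hz
      rw [e, e, min_eq_left h1, min_eq_left (by omega), h2]
      omega
    · refine ⟨z, hz, ?_⟩
      have h2 := hg y z hz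
      rw [e, e, min_eq_right (by omega), min_eq_right (by omega)]
      omega

/-- good energy functions -/
def GoodE (i : ℕ) (ε : α → ℕ) : Prop := ∀ y, ¬ (inE i ε y ∧ outE i ε y)

/-- the set 'in' -/
noncomputable def inF (i : ℕ) (ε : α → ℕ) : Finset α := univ.filter fun y => inE i ε y

/-- the free elements -/
noncomputable def pkF (i : ℕ) (ε : α → ℕ) : Finset α :=
  univ.filter fun y => ¬ inE i ε y ∧ ¬ outE i ε y

lemma good_iff (hg : Grad α) {i : ℕ} {ε : α → ℕ} : Good i (w0 i + ε) ↔ GoodE i ε := by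
  rw [good_iff_cover]
  constructor
  · intro h y hy
    exact h y ⟨(inC_iff hg).2 hy.1, (outC_iff hg).2 hy.2⟩
  · intro h y hy
    exact h y ⟨(inC_iff hg).1 hy.1, (outC_iff hg).1 hy.2⟩

lemma inS_eq (hg : Grad α) {i : ℕ} {ε : α → ℕ} (h : GoodE i ε) :
    inS i (w0 i + ε) = inF i ε := by
  ext y
  rw [mem_inS_iff ((good_iff hg).2 h), inC_iff hg, inF, mem_filter]
  simp

lemma pkS_eq (hg : Grad α) {i : ℕ} {ε : α → ℕ} (h : GoodE i ε) :
    pkS i (w0 i + ε) = pkF i ε := by
  ext y
  rw [pkS, mem_compl, mem_union, mem_inS_iff ((good_iff hg).2 h), inC_iff hg,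
    mem_outS_iff ((good_iff hg).2 h), outC_iff hg, pkF, mem_filter]
  simp

/-- the weight of an energy function -/
noncomputable def tm (i : ℕ) (ε : α → ℕ) : Polynomial ℤ :=
  if GoodE i ε then (Polynomial.X - 1) ^ (inF i ε).card * Polynomial.X ^ (pkF i ε).card else 0

open Polynomial in
/-- **the divisibility theorem**: for every level `i` and every total energy `r`, the sum of the
weights of the energy functions is divisible by `X ^ |R_i|` -/
theorem root_mult_energy {h : Fin (Fintype.card α) → ℕ} (hG : IsGaussianWith α h)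
    (hg : Grad α) (i r : ℕ) :
    (X : ℤ[X]) ^ (lev α i).card ∣ ∑ ε ∈ (univ : Finset α).piAntidiag r, tm i ε := by
  have h1 := root_mult_excess hG i r
  rw [Finset.sum_filter] at h1
  have h2 : ∀ ε ∈ (univ : Finset α).piAntidiag r,
      (if Good i (w0 i + ε) then (X - 1 : ℤ[X]) ^ (inS i (w0 i + ε)).card *
        X ^ (pkS i (w0 i + ε)).card else 0) = tm i ε := by
    intro ε _
    rw [tm]
    by_cases h3 : GoodE i ε
    · rw [if_pos h3, if_pos ((good_iff hg).2 h3), inS_eq hg h3, pkS_eq hg h3]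
    · rw [if_neg h3, if_neg (fun h4 => h3 ((good_iff hg).1 h4))]
  rw [Finset.sum_congr rfl h2] at h1
  exact h1

end Pool.Gauss
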