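import Pool.Agent.Gauss35.Unimodal

/-!
# Excess over the minimal function

`w = min (corank, i) + ε`.
-/

set_option autoImplicit false
open scoped Classical
open Finset

namespace Pool.Gauss

variable {α : Type} [Fintype α] [PartialOrder α]

/-- the minimal function at level `i` -/
noncomputable def w0 (i : ℕ) (x : α) : ℕ := min (corank x) i

lemma w0_le_of_good {i : ℕ} {w : α → ℕ} (hw : Good i w) (x : α) : w0 i x ≤ w x := by
  have hv : VW i (inS i w) w := by
    rw [VW_iff]
    exact ⟨Subset.refl _, hw⟩
  obtain ⟨h1, h2, h3, _⟩ := hv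
  by_cases hx : x ∈ inS i w
  · have hs : StrictRev (inS i w) (fun y => w y + 1) := by
      constructor
      · intro y _
        show 0 < w y + 1
        omega
      · intro y hy z hz hyz
        have h6 := h2 y hy z hz hyz
        show w z + 1 < w y + 1
        omega
    have h4 := hs.corank_lt h1 x hx
    have h5 : corank x + 1 ≤ w x + 1 := h4
    exact le_trans (min_le_left _ _) (by omega)
  · exact le_trans (min_le_right _ _) (h3 x hx)

open Polynomial in
/-- **multiplicity of the root `q^{-(i+1)}`**, in terms of the excess -/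
theorem root_mult_excess {h : Fin (Fintype.card α) → ℕ} (hG : IsGaussianWith α h) (i r : ℕ) :
    (X : ℤ[X]) ^ (lev α i).card ∣
      ∑ ε ∈ ((univ : Finset α).piAntidiag r).filter (fun ε => Good i (w0 i + ε)),
        (X - 1) ^ (inS i (w0 i + ε)).card * X ^ (pkS i (w0 i + ε)).card := by
  have h1 := root_mult hG i (∑ x : α, w0 i x + r)
  have h2 : ∑ w ∈ ((univ : Finset α).piAntidiag (∑ x : α, w0 i x + r)).filter
        (fun w => Good i w), (X : ℤ[X]) ^ (inS i w).card * (1 + X) ^ (pkS i w).card =
      ∑ ε ∈ ((univ : Finset α).piAntidiag r).filter (fun ε => Good i (w0 i + ε)),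
        X ^ (inS i (w0 i + ε)).card * (1 + X) ^ (pkS i (w0 i + ε)).card := by
    symm
    refine Finset.sum_nbij' (fun ε => w0 i + ε) (fun w x => w x - w0 i x) ?_ ?_ ?_ ?_ ?_
    · intro ε hε
      rw [mem_filter, mem_piAntidiag] at hε ⊢
      refine ⟨⟨?_, fun _ _ => mem_univ _⟩, hε.2⟩
      have h3 : ∑ x : α, ε x = r := hε.1.1
      change ∑ x : α, (w0 i x + ε x) = _
      rw [Finset.sum_add_distrib, h3]
    · intro w hw
      rw [mem_filter, mem_piAntidiag] at hw ⊢
      have h3 : ∑ x : α, w x = ∑ x : α, w0 i x + r := hw.1.1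
      have h4 : w0 i + (fun x => w x - w0 i x) = w := by
        funext x
        have := w0_le_of_good hw.2 x
        change w0 i x + (w x - w0 i x) = w x
        omega
      refine ⟨⟨?_, fun _ _ => mem_univ _⟩, ?_⟩
      · have h5 : ∑ x : α, w x = ∑ x : α, w0 i x + ∑ x : α, (w x - w0 i x) := by
          rw [← Finset.sum_add_distrib]
          apply Finset.sum_congr rfl
          intro x _
          have := w0_le_of_good hw.2 x
          omega
        change ∑ x : α, (w x - w0 i x) = r
        omega
      · rw [h4]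
        exact hw.2
    · intro ε _
      funext x
      change w0 i x + ε x - w0 i x = ε x
      omega
    · intro w hw
      rw [mem_filter, mem_piAntidiag] at hw
      funext x
      have := w0_le_of_good hw.2 x
      change w0 i x + (w x - w0 i x) = w x
      omega
    · intro ε _
      rfl
  rw [h2] at h1
  obtain ⟨g, hg⟩ := h1
  have h3 := congrArg (fun p : ℤ[X] => p.comp (X - 1)) hg
  simp only [Polynomial.mul_comp, Polynomial.pow_comp, Polynomial.add_comp, Polynomial.X_comp,
    Polynomial.one_comp, Polynomial.sum_comp, add_sub_cancel] at h3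
  rw [h3]
  exact dvd_mul_right _ _

open Polynomial in
/-- the coefficients below the multiplicity vanish -/
theorem root_coeff {h : Fin (Fintype.card α) → ℕ} (hG : IsGaussianWith α h) (i r j : ℕ)
    (hj : j < (lev α i).card) :
    ∑ ε ∈ ((univ : Finset α).piAntidiag r).filter (fun ε => Good i (w0 i + ε)),
      ((X - 1 : ℤ[X]) ^ (inS i (w0 i + ε)).card * X ^ (pkS i (w0 i + ε)).card).coeff j = 0 := by
  have h1 := root_mult_excess hG i r
  rw [Polynomial.X_pow_dvd_iff] at h1
  have h2 := h1 j hj
  rw [Polynomial.finsetSum_coeff] at h2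
  exact h2

open Polynomial in
lemma coeff_sub_one_mul_lt {a b j : ℕ} (h : j < b) :
    ((X - 1 : ℤ[X]) ^ a * X ^ b).coeff j = 0 := by
  rw [Polynomial.coeff_mul_X_pow', if_neg (by omega)]

open Polynomial in
lemma coeff_sub_one_mul_self (a b : ℕ) :
    ((X - 1 : ℤ[X]) ^ a * X ^ b).coeff b = (-1) ^ a := by
  rw [Polynomial.coeff_mul_X_pow', if_pos le_rfl, Nat.sub_self, Polynomial.coeff_zero_eq_eval_zero]
  simp

open Polynomial in
lemma coeff_sub_one_mul_succ (a b : ℕ) :
    ((X - 1 : ℤ[X]) ^ a * X ^ b).coeff (b + 1) = - (a : ℤ) * (-1) ^ a := by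
  rw [Polynomial.coeff_mul_X_pow', if_pos (by omega), Nat.add_sub_cancel_left]
  have h1 : ((X - 1 : ℤ[X]) ^ a).coeff 1 = (derivative ((X - 1 : ℤ[X]) ^ a)).eval 0 := by
    rw [← Polynomial.coeff_zero_eq_eval_zero, Polynomial.coeff_derivative]
    simp
  rw [h1, Polynomial.derivative_pow]
  simp only [derivative_sub, derivative_X, derivative_one, sub_zero, mul_one, eval_mul,
    eval_natCast, eval_pow, eval_sub, eval_X, eval_one, zero_sub, map_natCast]
  rcases a with _ | a
  · simp
  · rw [Nat.add_sub_cancel, pow_succ]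
    ring

end Pool.Gauss
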