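import Pool.Agent.Gauss35.Count

/-!
# The expansion of the order polynomials of a poset over filters
-/

set_option autoImplicit false
open scoped Classical
open Finset

namespace Pool.Gauss

variable {α : Type} [Fintype α] [PartialOrder α]

/-- `α` is Gaussian with numbers `h` -/
def IsGaussianWith (α : Type) [Fintype α] [PartialOrder α]
    (h : Fin (Fintype.card α) → ℕ) : Prop :=
  (∀ i, 0 < h i) ∧
    ∀ m : ℕ,
      (∑ σ ∈ (Finset.univ.filter (fun σ : α → Fin (m + 1) => Monotone σ)),
          (Polynomial.X : Polynomial ℤ) ^ (∑ x, (σ x).val)) *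
        ∏ i, (1 - (Polynomial.X : Polynomial ℤ) ^ (h i)) =
      ∏ i, (1 - (Polynomial.X : Polynomial ℤ) ^ (m + h i))

variable (α) in
/-- the up-sets (filters) -/
noncomputable def upSets : Finset (Finset α) :=
  univ.filter fun F => ∀ x ∈ F, ∀ y, x ≤ y → y ∈ F

lemma mem_upSets {F : Finset α} : F ∈ upSets α ↔ ∀ x ∈ F, ∀ y, x ≤ y → y ∈ F := by
  simp [upSets]

/-- positive strictly order-reversing maps on `F` -/
def StrictRev (F : Finset α) (τ : α → ℕ) : Prop :=
  (∀ x ∈ F, 0 < τ x) ∧ ∀ x ∈ F, ∀ y ∈ F, x < y → τ y < τ x

/-- order-preserving maps on `S` -/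
def MonoOn (S : Finset α) (σ : α → ℕ) : Prop := ∀ x ∈ S, ∀ y ∈ S, x ≤ y → σ x ≤ σ y

/-- generating function of the positive strictly order-reversing maps on `F` -/
noncomputable def Ut (F : Finset α) : PowerSeries ℤ := cnt F (StrictRev F)

/-- generating function of the order-preserving maps on `S` -/
noncomputable def Uinf (S : Finset α) : PowerSeries ℤ := cnt S (MonoOn S)

variable (α) in
/-- generating function of the order-preserving maps to `{0, ..., m}` -/
noncomputable def U (m : ℕ) : Polynomial ℤ :=
  ∑ σ ∈ (Finset.univ.filter (fun σ : α → Fin (m + 1) => Monotone σ)),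
    (Polynomial.X : Polynomial ℤ) ^ (∑ x, (σ x).val)

/-- the pairs `(F, v)` of the expansion -/
def Valid (m : ℕ) (F : Finset α) (v : α → ℕ) : Prop :=
  (∀ x ∈ F, m < v x) ∧ (∀ x ∈ F, ∀ y ∈ F, x < y → v y < v x) ∧
    ∀ x ∉ F, ∀ y ∉ F, x ≤ y → v x ≤ v y

lemma X_pow_mul_Ut_mul_Uinf (m : ℕ) (F : Finset α) :
    (PowerSeries.X : PowerSeries ℤ) ^ (m * F.card) * Ut F * Uinf Fᶜ = cnt univ (Valid m F) := by
  have h1 : (PowerSeries.X : PowerSeries ℤ) ^ (m * F.card) * Ut F =
      cnt F (fun v => (∀ x ∈ F, m < v x) ∧ ∀ x ∈ F, ∀ y ∈ F, x < y → v y < v x) := by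
    apply X_pow_mul_cnt
    · intro v _
      unfold StrictRev
      constructor
      · rintro ⟨h1, h2⟩
        constructor
        · intro x hx
          have := h1 x hx
          simp only [hx, if_true] at this
          omega
        · intro x hx y hy hxy
          have := h2 x hx y hy hxy
          simp only [hx, hy, if_true] at this
          omega
      · rintro ⟨h1, h2⟩
        constructor
        · intro x hx
          have := h1 x hx
          simp only [hx, if_true]
          omega
        · intro x hx y hy hxy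
          have := h2 x hx y hy hxy
          simp only [hx, hy, if_true]
          omega
    · intro v hv x hx
      exact (hv.1 x hx).le
  rw [h1, Uinf, cnt_mul (r := Valid m F) disjoint_compl_right, union_compl]
  intro u v hu hv
  have hu0 : ∀ x, x ∉ F → u x = 0 := fun x hx => by
    by_contra h0
    exact hx (hu x h0)
  have hv0 : ∀ x, x ∈ F → v x = 0 := fun x hx => by
    by_contra h0
    have := hv x h0
    rw [mem_compl] at this
    exact this hx
  unfold Valid MonoOn
  simp only [Pi.add_apply, mem_compl]
  constructor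
  · rintro ⟨h1, h2, h3⟩
    refine ⟨⟨?_, ?_⟩, ?_⟩
    · intro x hx
      have := h1 x hx
      rw [hv0 x hx] at this
      omega
    · intro x hx y hy hxy
      have := h2 x hx y hy hxy
      rw [hv0 x hx, hv0 y hy] at this
      omega
    · intro x hx y hy hxy
      have := h3 x hx y hy hxy
      rw [hu0 x hx, hu0 y hy] at this
      omega
  · rintro ⟨⟨h1, h2⟩, h3⟩
    refine ⟨?_, ?_, ?_⟩
    · intro x hx
      have := h1 x hx
      omega
    · intro x hx y hy hxy
      have := h2 x hx y hy hxy
      rw [hv0 x hx, hv0 y hy]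
      omega
    · intro x hx y hy hxy
      have := h3 x hx y hy hxy
      rw [hu0 x hx, hu0 y hy]
      omega

/-- the sign-reversing involution -/
lemma sum_valid (m : ℕ) (v : α → ℕ) :
    (∑ F ∈ (upSets α).filter (fun F => Valid m F v), (-1 : ℤ) ^ F.card) =
      if Monotone v ∧ ∀ x, v x ≤ m then 1 else 0 := by
  by_cases hm : ∀ x, v x ≤ m
  · -- only the empty filter
    have hF : ∀ F : Finset α, Valid m F v → F = ∅ := by
      intro F hF
      rw [eq_empty_iff_forall_notMem]
      intro x hx
      exact absurd (hF.1 x hx) (not_lt.2 (hm x))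
    by_cases hmono : Monotone v
    · have e : (upSets α).filter (fun F => Valid m F v) = {∅} := by
        ext F
        rw [mem_filter, mem_singleton]
        constructor
        · exact fun h => hF F h.2
        · rintro rfl
          refine ⟨mem_upSets.2 (by simp), by simp, by simp, ?_⟩
          intro x _ y _ hxy
          exact hmono hxy
      rw [e, if_pos ⟨hmono, hm⟩]
      simp
    · have e : (upSets α).filter (fun F => Valid m F v) = ∅ := by
        rw [filter_eq_empty_iff]
        intro F _ hV
        have := hF F hV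
        subst this
        apply hmono
        intro x y hxy
        exact hV.2.2 x (by simp) y (by simp) hxy
      rw [e, if_neg (fun h => hmono h.1)]
      simp
  · rw [if_neg (fun h => hm h.2)]
    push Not at hm
    obtain ⟨x0, hx0⟩ := hm
    -- an element of maximal value, maximal among those
    obtain ⟨x1, _, hx1⟩ := Finset.exists_max_image univ v ⟨x0, mem_univ x0⟩
    have hne : (univ.filter fun x => v x = v x1).Nonempty := ⟨x1, by simp⟩
    obtain ⟨x, hx⟩ := (univ.filter fun x => v x = v x1).exists_maximal hne
    have hxv : v x = v x1 := by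
      have := hx.prop
      simpa using this
    have hmax : ∀ y, v y ≤ v x := fun y => by rw [hxv]; exact hx1 y (mem_univ y)
    have hM : m < v x := lt_of_lt_of_le hx0 (hmax x0)
    have hlast : ∀ y, x < y → v y < v x := by
      intro y hxy
      refine lt_of_le_of_ne (hmax y) fun h => ?_
      have h1 : y ∈ univ.filter fun x => v x = v x1 := by simp [h, hxv]
      exact absurd (hx.le_of_ge h1 hxy.le) (not_le_of_gt hxy)
    -- toggling
    have hins : ∀ F ∈ upSets α, Valid m F v → x ∉ F → insert x F ∈ upSets α ∧
        Valid m (insert x F) v := by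
      intro F hF hV hxF
      rw [mem_upSets] at hF
      have hup : ∀ y, x < y → y ∈ F := by
        intro y hxy
        by_contra hy
        have := hV.2.2 x hxF y hy hxy.le
        exact absurd (hlast y hxy) (not_lt.2 this)
      refine ⟨?_, ?_, ?_, ?_⟩
      · rw [mem_upSets]
        intro a ha y hay
        rw [mem_insert] at ha ⊢
        rcases ha with rfl | ha
        · rcases eq_or_lt_of_le hay with h | h
          · exact Or.inl h.symm
          · exact Or.inr (hup y h)
        · exact Or.inr (hF a ha y hay)
      · intro a ha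
        rw [mem_insert] at ha
        rcases ha with rfl | ha
        · exact hM
        · exact hV.1 a ha
      · intro a ha b hb hab
        rw [mem_insert] at ha hb
        rcases ha with rfl | ha
        · exact hlast b hab
        · rcases hb with rfl | hb
          · exact absurd (hF a ha b hab.le) hxF
          · exact hV.2.1 a ha b hb hab
      · intro a ha b hb hab
        rw [mem_insert, not_or] at ha hb
        exact hV.2.2 a ha.2 b hb.2 hab
    have hera : ∀ F ∈ upSets α, Valid m F v → x ∈ F → F.erase x ∈ upSets α ∧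
        Valid m (F.erase x) v := by
      intro F hF hV hxF
      rw [mem_upSets] at hF
      have hmin : ∀ y ∈ F, ¬ y < x := by
        intro y hy hyx
        exact absurd (hV.2.1 y hy x hxF hyx) (not_lt.2 (hmax y))
      refine ⟨?_, ?_, ?_, ?_⟩
      · rw [mem_upSets]
        intro a ha y hay
        rw [mem_erase] at ha ⊢
        refine ⟨?_, hF a ha.2 y hay⟩
        rintro rfl
        exact hmin a ha.2 (lt_of_le_of_ne hay ha.1)
      · intro a ha
        rw [mem_erase] at ha
        exact hV.1 a ha.2
      · intro a ha b hb hab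
        rw [mem_erase] at ha hb
        exact hV.2.1 a ha.2 b hb.2 hab
      · intro a ha b hb hab
        rw [mem_erase, not_and_or, not_not] at ha hb
        rcases ha with rfl | ha
        · rcases hb with rfl | hb
          · exact le_rfl
          · exact absurd (hF a hxF b hab) hb
        · rcases hb with rfl | hb
          · exact hmax a
          · exact hV.2.2 a ha b hb hab
    apply Finset.sum_involution (fun F _ => if x ∈ F then F.erase x else insert x F)
    · intro F hF
      by_cases hxF : x ∈ F
      · have h1 : F.card = (F.erase x).card + 1 := by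
          rw [card_erase_add_one hxF]
        simp only [hxF, if_true]
        rw [h1, pow_succ]
        ring
      · have h1 : (insert x F).card = F.card + 1 := card_insert_of_notMem hxF
        simp only [hxF, if_false]
        rw [h1, pow_succ]
        ring
    · intro F hF _
      by_cases hxF : x ∈ F
      · simp only [hxF, if_true]
        intro h
        have := h ▸ hxF
        simp at this
      · simp only [hxF, if_false]
        intro h
        exact hxF (h ▸ mem_insert_self x F)
    · intro F hF
      by_cases hxF : x ∈ F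
      · simp only [hxF, if_true, mem_erase, ne_eq, not_true_eq_false, false_and, if_false]
        exact insert_erase hxF
      · simp only [hxF, if_false, mem_insert, true_or, if_true]
        exact erase_insert hxF
    · intro F hF
      rw [mem_filter] at hF ⊢
      by_cases hxF : x ∈ F
      · simp only [hxF, if_true]
        exact hera F hF.1 hF.2 hxF
      · simp only [hxF, if_false]
        exact hins F hF.1 hF.2 hxF

/-- the coefficients of `U m` -/
lemma coeff_U (m N : ℕ) : PowerSeries.coeff N ((U α m : Polynomial ℤ) : PowerSeries ℤ) =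
    (((univ : Finset α).piAntidiag N).filter
      (fun v => Monotone v ∧ ∀ x, v x ≤ m)).card := by
  rw [Polynomial.coeff_coe, U, Polynomial.finsetSum_coeff]
  simp only [Polynomial.coeff_X_pow]
  rw [Finset.sum_boole]
  congr 1
  rw [Finset.filter_filter]
  refine Finset.card_nbij' (fun σ x => (σ x).val) (fun v x => Fin.ofNat (m + 1) (v x)) ?_ ?_ ?_ ?_
  · intro σ hσ
    simp only [Finset.coe_filter, mem_univ, true_and, Set.mem_ofPred_eq, mem_piAntidiag] at hσ ⊢
    refine ⟨⟨hσ.2.symm, fun _ _ => trivial⟩, fun x y hxy => hσ.1 hxy, fun x => ?_⟩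
    have := (σ x).isLt
    omega
  · intro v hv
    simp only [Finset.coe_filter, mem_univ, true_and, Set.mem_ofPred_eq, mem_piAntidiag] at hv ⊢
    obtain ⟨⟨h1, _⟩, h2, h3⟩ := hv
    have h4 : ∀ x, (Fin.ofNat (m + 1) (v x)).val = v x := fun x =>
      Nat.mod_eq_of_lt (by have := h3 x; omega)
    refine ⟨?_, ?_⟩
    · intro x y hxy
      rw [Fin.le_def, h4, h4]
      exact h2 hxy
    · rw [← h1]
      exact (Finset.sum_congr rfl fun x _ => h4 x).symm
  · intro σ _
    funext x
    apply Fin.ext
    exact Nat.mod_eq_of_lt (σ x).isLt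
  · intro v hv
    simp only [Finset.coe_filter, mem_univ, true_and, Set.mem_ofPred_eq, mem_piAntidiag] at hv
    funext x
    exact Nat.mod_eq_of_lt (by have := hv.2.2 x; omega)

/-- **(I0)** expansion over filters -/
theorem U_eq (m : ℕ) : ((U α m : Polynomial ℤ) : PowerSeries ℤ) =
    ∑ F ∈ upSets α, (-1) ^ F.card *
      ((PowerSeries.X : PowerSeries ℤ) ^ (m * F.card) * (Ut F * Uinf Fᶜ)) := by
  ext N
  rw [coeff_U, map_sum]
  have h1 : ∀ F ∈ upSets α, PowerSeries.coeff N ((-1) ^ F.card *
      ((PowerSeries.X : PowerSeries ℤ) ^ (m * F.card) * (Ut F * Uinf Fᶜ))) =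
      ∑ v ∈ (univ : Finset α).piAntidiag N, if Valid m F v then (-1 : ℤ) ^ F.card else 0 := by
    intro F _
    have e : (-1 : PowerSeries ℤ) ^ F.card = PowerSeries.C ((-1 : ℤ) ^ F.card) := by simp
    rw [e, PowerSeries.coeff_C_mul, ← mul_assoc (PowerSeries.X ^ (m * F.card)),
      X_pow_mul_Ut_mul_Uinf, coeff_cnt, ← Finset.sum_filter, Finset.sum_const, nsmul_eq_mul,
      mul_comm]
  rw [Finset.sum_congr rfl h1, Finset.sum_comm, Finset.card_filter]
  push_cast
  apply Finset.sum_congr rfl
  intro v _
  rw [← Finset.sum_filter, sum_valid]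

/-- the coefficient of `(-X^m)^k` in the expansion -/
noncomputable def A (α : Type) [Fintype α] [PartialOrder α] (k : ℕ) : PowerSeries ℤ :=
  ∑ F ∈ (upSets α).filter (fun F => F.card = k), Ut F * Uinf Fᶜ

/-- elementary symmetric polynomial `e_k(X^{h_1}, ..., X^{h_p})` -/
noncomputable def esym {ι : Type} [Fintype ι] (h : ι → ℕ) (k : ℕ) : PowerSeries ℤ :=
  ∑ s ∈ (univ : Finset ι).powersetCard k, PowerSeries.X ^ (∑ i ∈ s, h i)

lemma U_eq_sum_A (m : ℕ) : ((U α m : Polynomial ℤ) : PowerSeries ℤ) =
    ∑ k ∈ range (Fintype.card α + 1), (-1) ^ k *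
      ((PowerSeries.X : PowerSeries ℤ) ^ (m * k) * A α k) := by
  rw [U_eq]
  have h1 : ∀ F ∈ upSets α, F.card ∈ range (Fintype.card α + 1) := fun F _ => by
    rw [mem_range, Nat.lt_succ_iff]
    exact card_le_univ F
  rw [← Finset.sum_fiberwise_of_maps_to h1]
  apply Finset.sum_congr rfl
  intro k _
  rw [A, Finset.mul_sum, Finset.mul_sum]
  apply Finset.sum_congr rfl
  intro F hF
  rw [(mem_filter.1 hF).2]

lemma prod_eq_sum_esym {ι : Type} [Fintype ι] (h : ι → ℕ) (m : ℕ) :
    (∏ i, (1 - (PowerSeries.X : PowerSeries ℤ) ^ (m + h i))) =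
    ∑ k ∈ range (Fintype.card ι + 1), (-1) ^ k *
      ((PowerSeries.X : PowerSeries ℤ) ^ (m * k) * esym h k) := by
  rw [Finset.prod_sub]
  have h1 : ∀ s ∈ (univ : Finset ι).powerset, s.card ∈ range (Fintype.card ι + 1) := fun s _ => by
    rw [mem_range, Nat.lt_succ_iff]
    exact card_le_univ s
  rw [← Finset.sum_fiberwise_of_maps_to h1]
  apply Finset.sum_congr rfl
  intro k _
  rw [esym, Finset.mul_sum, Finset.mul_sum]
  rw [← Finset.powersetCard_eq_filter]
  apply Finset.sum_congr rfl
  intro s hs
  rw [mem_powersetCard_univ] at hs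
  rw [hs, ← pow_add, Finset.prod_const_one, mul_one, Finset.prod_pow_eq_pow_sum,
    Finset.sum_add_distrib, Finset.sum_const, hs, smul_eq_mul, mul_comm m k]

/-- vanishing of a polynomial in `X^m` with power series coefficients -/
lemma eq_zero_of_sum_X_pow (n : ℕ) (B : ℕ → PowerSeries ℤ)
    (h : ∀ m : ℕ, ∑ k ∈ range n, (PowerSeries.X : PowerSeries ℤ) ^ (m * k) * B k = 0) :
    ∀ k < n, B k = 0 := by
  intro k
  induction k using Nat.strong_induction_on with
  | _ k ih =>
    intro hk
    ext N
    rw [map_zero]
    set m := N + 1 with hm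
    have h1 := congrArg (PowerSeries.coeff (m * k + N)) (h m)
    rw [map_sum, map_zero, Finset.sum_eq_single k] at h1
    · rw [PowerSeries.coeff_X_pow_mul', if_pos (by omega)] at h1
      have : m * k + N - m * k = N := by omega
      rwa [this] at h1
    · intro j hj hjk
      rcases lt_or_gt_of_ne hjk with hlt | hgt
      · rw [ih j hlt (by omega), mul_zero, map_zero]
      · rw [PowerSeries.coeff_X_pow_mul', if_neg]
        have h2 : m * (k + 1) ≤ m * j := Nat.mul_le_mul_left m hgt
        rw [mul_add, mul_one] at h2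
        omega
    · intro hkn
      exact absurd (mem_range.2 hk) hkn

/-- **(I1)** -/
theorem A_mul_prod {h : Fin (Fintype.card α) → ℕ} (hG : IsGaussianWith α h) (k : ℕ)
    (hk : k ≤ Fintype.card α) :
    A α k * ∏ i, (1 - (PowerSeries.X : PowerSeries ℤ) ^ (h i)) = esym h k := by
  set D := ∏ i, (1 - (PowerSeries.X : PowerSeries ℤ) ^ (h i)) with hD
  have h1 : ∀ m : ℕ, ((U α m : Polynomial ℤ) : PowerSeries ℤ) * D =
      ∏ i, (1 - (PowerSeries.X : PowerSeries ℤ) ^ (m + h i)) := by
    intro m
    have h2 := congrArg (fun p : Polynomial ℤ => (p : PowerSeries ℤ)) (hG.2 m)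
    have e : ∀ g : Fin (Fintype.card α) → ℕ,
        ((∏ i, (1 - (Polynomial.X : Polynomial ℤ) ^ (g i)) : Polynomial ℤ) : PowerSeries ℤ) =
        ∏ i, (1 - (PowerSeries.X : PowerSeries ℤ) ^ (g i)) := by
      intro g
      rw [← Polynomial.coeToPowerSeries.ringHom_apply, map_prod]
      apply Finset.prod_congr rfl
      intro i _
      simp
    rw [Polynomial.coe_mul, e, e] at h2
    exact h2
  have h3 := eq_zero_of_sum_X_pow (Fintype.card α + 1)
    (fun k => (-1) ^ k * (A α k * D - esym h k)) (fun m => by
      have h4 := h1 m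
      have hc : Fintype.card (Fin (Fintype.card α)) = Fintype.card α := Fintype.card_fin _
      rw [U_eq_sum_A, prod_eq_sum_esym, hc, Finset.sum_mul, ← sub_eq_zero,
        ← Finset.sum_sub_distrib] at h4
      rw [← h4]
      apply Finset.sum_congr rfl
      intro k _
      ring) k (by omega)
  have h5 : ((-1) ^ k : PowerSeries ℤ) ≠ 0 := pow_ne_zero _ (by simp)
  exact sub_eq_zero.1 ((mul_eq_zero.1 h3).resolve_left h5)

lemma A_zero : A α 0 = Uinf (univ : Finset α) := by
  have e : (upSets α).filter (fun F => F.card = 0) = {∅} := by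
    ext F
    rw [mem_filter, mem_singleton, card_eq_zero]
    constructor
    · exact fun h => h.2
    · rintro rfl
      exact ⟨mem_upSets.2 (by simp), rfl⟩
  have h1 : Ut (∅ : Finset α) = 1 := by
    ext N
    rw [Ut, coeff_cnt, PowerSeries.coeff_one, piAntidiag_empty]
    split_ifs with h0
    · have : StrictRev (∅ : Finset α) (0 : α → ℕ) := by simp [StrictRev]
      rw [filter_singleton, if_pos this]
      simp
    · simp
  rw [A, e, sum_singleton, h1, one_mul, compl_empty]

/-- **(I1')** all `A_k` in terms of `A_0` -/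
theorem A_eq {h : Fin (Fintype.card α) → ℕ} (hG : IsGaussianWith α h) (k : ℕ)
    (hk : k ≤ Fintype.card α) :
    A α k = Uinf (univ : Finset α) * esym h k := by
  set D := ∏ i, (1 - (PowerSeries.X : PowerSeries ℤ) ^ (h i)) with hD
  have hD0 : D ≠ 0 := by
    rw [hD, Finset.prod_ne_zero_iff]
    intro i _ h0
    have h1 := congrArg (PowerSeries.coeff 0) h0
    have hi := hG.1 i
    rw [map_sub, map_zero, PowerSeries.coeff_one, PowerSeries.coeff_X_pow, if_pos rfl,
      if_neg (by omega)] at h1
    norm_num at h1
  have h1 := A_mul_prod hG k hk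
  have h2 := A_mul_prod hG 0 (by omega)
  rw [A_zero] at h2
  have h3 : esym h 0 = 1 := by simp [esym]
  rw [h3] at h2
  apply mul_right_cancel₀ hD0
  rw [h1, mul_right_comm, h2, one_mul]

end Pool.Gauss
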