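import Pool.Agent.Gauss35.Coeff

/-!
# The first order relation at a level
-/

set_option autoImplicit false
open scoped Classical
open Finset

namespace Pool.Gauss

variable {α : Type} [Fintype α] [PartialOrder α]

/-- excess of the weight of `S` over the minimum, level `i` being neutral -/
noncomputable def cost (i : ℕ) (S : Finset α) : ℕ :=
  ∑ x, if x ∈ S then corank x - i else i - corank x

variable (α) in
/-- the maximal gain -/
noncomputable def gain (i : ℕ) : ℕ := ∑ x : α, (i - corank x)

lemma wt_add_gain (i : ℕ) (S : Finset α) :
    wt S + gain α i = (i + 1) * S.card + cost i S := by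
  have h1 : wt S = ∑ x, if x ∈ S then corank x + 1 else 0 := by
    rw [wt, Finset.sum_ite_mem, univ_inter]
  have h2 : (i + 1) * S.card = ∑ x, if x ∈ S then i + 1 else 0 := by
    rw [Finset.sum_ite_mem, univ_inter, Finset.sum_const, smul_eq_mul, mul_comm]
  rw [h1, h2, gain, cost, ← Finset.sum_add_distrib, ← Finset.sum_add_distrib]
  apply Finset.sum_congr rfl
  intro x _
  split_ifs <;> omega

/-- weight function of the first order relation -/
noncomputable def gg (c a : ℕ) : ℕ := if c = 0 then a else if c = 1 then 1 else 0

lemma coeff_esym (k N n : ℕ) (hn : PowerSeries.coeff 1 (Uinf (univ : Finset α)) = n) (i : ℕ)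
    (hN : N + gain α i = (i + 1) * k + 1) :
    PowerSeries.coeff N (Uinf (univ : Finset α) * esym (fun x : α => corank x + 1) k) =
      ∑ S ∈ (univ : Finset α).powersetCard k, (gg (cost i S) n : ℤ) := by
  rw [esym, Finset.mul_sum, map_sum]
  apply Finset.sum_congr rfl
  intro S hS
  rw [mem_powersetCard_univ] at hS
  have h1 := wt_add_gain i S
  rw [hS] at h1
  have h2 : ∑ x ∈ S, (corank x + 1) = wt S := rfl
  rw [h2, PowerSeries.coeff_mul_X_pow', gg]
  by_cases h0 : cost i S = 0
  · rw [if_pos h0, if_pos (by omega)]
    have : N - wt S = 1 := by omega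
    rw [this, hn]
  · rw [if_neg h0]
    by_cases h3 : cost i S = 1
    · rw [if_pos h3, if_pos (by omega)]
      have : N - wt S = 0 := by omega
      rw [this, constCoeff_Uinf]
      rfl
    · rw [if_neg h3, if_neg (by omega)]
      rfl

lemma coeff_A (k N i : ℕ) (hN : N + gain α i = (i + 1) * k + 1) :
    PowerSeries.coeff N (A α k) =
      ∑ F ∈ (upSets α).filter (fun F => F.card = k),
        (gg (cost i F) ((free F).card + (mx Fᶜ).card) : ℤ) := by
  rw [A, map_sum]
  apply Finset.sum_congr rfl
  intro F hF
  rw [mem_filter] at hF
  have h1 := wt_add_gain i F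
  rw [hF.2] at h1
  rw [gg]
  by_cases h0 : cost i F = 0
  · rw [if_pos h0]
    have : N = wt F + 1 := by omega
    rw [this, coeff_term_succ hF.1]
    push_cast
    rfl
  · rw [if_neg h0]
    by_cases h3 : cost i F = 1
    · rw [if_pos h3]
      have : N = wt F := by omega
      rw [this, coeff_term_self hF.1]
      rfl
    · rw [if_neg h3]
      rw [coeff_term_lt hF.1 (by omega)]
      rfl

/-- the number of elements of corank `i` -/
noncomputable def lev (α : Type) [Fintype α] [PartialOrder α] (i : ℕ) : Finset α :=
  univ.filter fun x => corank x = i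

lemma mem_lev {i : ℕ} {x : α} : x ∈ lev α i ↔ corank x = i := by simp [lev]

lemma mx_univ : mx (univ : Finset α) = lev α 0 := by
  ext x
  rw [mx, mem_filter, mem_lev, corank_eq_zero]
  simp

/-- first order relation for fixed cardinality -/
lemma first_order_k {h : Fin (Fintype.card α) → ℕ} (hG : IsGaussianWith α h) (i k : ℕ)
    (hk : k ≤ Fintype.card α) :
    ∑ F ∈ (upSets α).filter (fun F => F.card = k),
        gg (cost i F) ((free F).card + (mx Fᶜ).card) =
      ∑ S ∈ (univ : Finset α).powersetCard k, gg (cost i S) (lev α 0).card := by
  by_cases hM : gain α i ≤ (i + 1) * k + 1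
  · obtain ⟨N, hN⟩ : ∃ N, N + gain α i = (i + 1) * k + 1 := ⟨(i + 1) * k + 1 - gain α i, by omega⟩
    have h1 := coeff_A k N i hN
    have h2 := coeff_esym k N (lev α 0).card (by rw [coeff_Uinf_one, mx_univ]) i hN
    rw [A_eq' hG k hk, h2] at h1
    exact_mod_cast h1.symm
  · have h1 : ∀ S : Finset α, S.card = k → ∀ a, gg (cost i S) a = 0 := by
      intro S hS a
      have h2 := wt_add_gain i S
      rw [hS] at h2
      rw [gg, if_neg (by omega), if_neg (by omega)]
    rw [Finset.sum_eq_zero, Finset.sum_eq_zero]
    · intro S hS
      rw [mem_powersetCard_univ] at hS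
      exact h1 S hS _
    · intro F hF
      rw [mem_filter] at hF
      exact h1 F hF.2 _

open Polynomial in
/-- first order relation as a polynomial identity -/
lemma first_order_poly {h : Fin (Fintype.card α) → ℕ} (hG : IsGaussianWith α h) (i : ℕ) :
    ∑ F ∈ upSets α, (gg (cost i F) ((free F).card + (mx Fᶜ).card) : ℤ[X]) * X ^ F.card =
      ∑ S : Finset α, (gg (cost i S) (lev α 0).card : ℤ[X]) * X ^ S.card := by
  have h1 : ∀ F ∈ upSets α, F.card ∈ range (Fintype.card α + 1) := fun F _ => by
    rw [mem_range, Nat.lt_succ_iff]
    exact card_le_univ F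
  have h2 : ∀ S ∈ (univ : Finset (Finset α)), S.card ∈ range (Fintype.card α + 1) := fun S _ => by
    rw [mem_range, Nat.lt_succ_iff]
    exact card_le_univ S
  rw [← Finset.sum_fiberwise_of_maps_to h1, ← Finset.sum_fiberwise_of_maps_to h2]
  apply Finset.sum_congr rfl
  intro k hk
  rw [mem_range, Nat.lt_succ_iff] at hk
  have h3 := first_order_k hG i k hk
  have e1 : ∑ F ∈ (upSets α).filter (fun F => F.card = k),
      (gg (cost i F) ((free F).card + (mx Fᶜ).card) : ℤ[X]) * X ^ F.card =
      ((∑ F ∈ (upSets α).filter (fun F => F.card = k),
        gg (cost i F) ((free F).card + (mx Fᶜ).card) : ℕ) : ℤ[X]) * X ^ k := by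
    push_cast
    rw [Finset.sum_mul]
    apply Finset.sum_congr rfl
    intro F hF
    rw [(mem_filter.1 hF).2]
  have e2 : ∑ S ∈ (univ : Finset (Finset α)).filter (fun S => S.card = k),
      (gg (cost i S) (lev α 0).card : ℤ[X]) * X ^ S.card =
      ((∑ S ∈ (univ : Finset α).powersetCard k, gg (cost i S) (lev α 0).card : ℕ) : ℤ[X]) *
        X ^ k := by
    push_cast
    rw [Finset.sum_mul, powersetCard_eq_filter, powerset_univ]
    apply Finset.sum_congr rfl
    intro F hF
    rw [(mem_filter.1 hF).2]
  rw [e1, e2, h3]

/-! ### sets of cost zero and one -/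

/-- the elements of corank less than `i` -/
noncomputable def low (α : Type) [Fintype α] [PartialOrder α] (i : ℕ) : Finset α :=
  univ.filter fun x => corank x < i

lemma mem_low {i : ℕ} {x : α} : x ∈ low α i ↔ corank x < i := by simp [low]

lemma cost_eq_zero {i : ℕ} {S : Finset α} :
    cost i S = 0 ↔ low α i ⊆ S ∧ S ⊆ low α i ∪ lev α i := by
  rw [cost, Finset.sum_eq_zero_iff]
  constructor
  · intro h
    constructor
    · intro x hx
      by_contra h0
      have h1 := h x (mem_univ x)
      rw [if_neg h0] at h1
      rw [mem_low] at hx
      omega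
    · intro x hx
      have h1 := h x (mem_univ x)
      rw [if_pos hx] at h1
      rw [mem_union, mem_low, mem_lev]
      omega
  · rintro ⟨h1, h2⟩ x _
    split_ifs with hx
    · have := h2 hx
      rw [mem_union, mem_low, mem_lev] at this
      omega
    · have h3 : x ∉ low α i := fun h => hx (h1 h)
      rw [mem_low] at h3
      omega

/-- the two kinds of sets of cost one -/
lemma cost_eq_one {i : ℕ} {S : Finset α} :
    cost i S = 1 ↔ (∃ x ∈ lev α (i + 1), insert x (low α i) ⊆ S ∧
        S ⊆ insert x (low α i ∪ lev α i)) ∨
      (∃ z, corank z + 1 = i ∧ z ∉ S ∧ (low α i).erase z ⊆ S ∧ S ⊆ low α i ∪ lev α i) := by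
  constructor
  · intro h
    rw [cost] at h
    obtain ⟨x, hx⟩ : ∃ x : α, (if x ∈ S then corank x - i else i - corank x) = 1 ∧
        ∀ y, y ≠ x → (if y ∈ S then corank y - i else i - corank y) = 0 := by
      obtain ⟨x, _, hx⟩ := Finset.exists_ne_zero_of_sum_ne_zero (by rw [h]; norm_num)
      have h2 := Finset.add_sum_erase univ
        (fun x => if x ∈ S then corank x - i else i - corank x) (mem_univ x)
      rw [h] at h2
      refine ⟨x, by omega, fun y hy => ?_⟩
      have h3 : ∑ x ∈ univ.erase x, (if x ∈ S then corank x - i else i - corank x) = 0 := by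
        omega
      exact (Finset.sum_eq_zero_iff.1 h3) y (mem_erase.2 ⟨hy, mem_univ y⟩)
    obtain ⟨h1, h2⟩ := hx
    by_cases hxS : x ∈ S
    · left
      rw [if_pos hxS] at h1
      refine ⟨x, mem_lev.2 (by omega), ?_, ?_⟩
      · intro y hy
        rw [mem_insert, mem_low] at hy
        rcases hy with rfl | hy
        · exact hxS
        · by_contra h0
          have hyx : y ≠ x := by
            rintro rfl
            exact h0 hxS
          have h3 := h2 y hyx
          rw [if_neg h0] at h3
          omega
      · intro y hy
        rw [mem_insert, mem_union, mem_low, mem_lev]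
        by_cases hyx : y = x
        · exact Or.inl hyx
        · have h3 := h2 y hyx
          rw [if_pos hy] at h3
          omega
    · right
      rw [if_neg hxS] at h1
      refine ⟨x, by omega, hxS, ?_, ?_⟩
      · intro y hy
        rw [mem_erase, mem_low] at hy
        by_contra h0
        have h3 := h2 y hy.1
        rw [if_neg h0] at h3
        omega
      · intro y hy
        rw [mem_union, mem_low, mem_lev]
        have hyx : y ≠ x := by
          rintro rfl
          exact hxS hy
        have h3 := h2 y hyx
        rw [if_pos hy] at h3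
        omega
  · rintro (⟨x, hx, h1, h2⟩ | ⟨z, hz, hzS, h1, h2⟩)
    · rw [mem_lev] at hx
      have hxS : x ∈ S := h1 (mem_insert_self _ _)
      rw [cost, Finset.sum_eq_single x]
      · rw [if_pos hxS]
        omega
      · intro y _ hyx
        split_ifs with hy
        · have h3 := h2 hy
          rw [mem_insert, mem_union, mem_low, mem_lev] at h3
          rcases h3 with h3 | h3
          · exact absurd h3 hyx
          · omega
        · have h3 : y ∉ insert x (low α i) := fun h => hy (h1 h)
          rw [mem_insert, mem_low] at h3
          omega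
      · intro h
        exact absurd (mem_univ x) h
    · rw [cost, Finset.sum_eq_single z]
      · rw [if_neg hzS]
        omega
      · intro y _ hyz
        split_ifs with hy
        · have h3 := h2 hy
          rw [mem_union, mem_low, mem_lev] at h3
          omega
        · have h3 : y ∉ (low α i).erase z := fun h => hy (h1 h)
          rw [mem_erase, mem_low] at h3
          have : ¬ corank y < i := fun h4 => h3 ⟨hyz, h4⟩
          omega
      · intro h
        exact absurd (mem_univ z) h

lemma disjoint_low_lev (i : ℕ) : Disjoint (low α i) (lev α i) := by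
  rw [Finset.disjoint_left]
  intro x hx hx'
  rw [mem_low] at hx
  rw [mem_lev] at hx'
  omega

/-- the elements one level above `i` (of corank `i - 1`) -/
noncomputable def lev' (α : Type) [Fintype α] [PartialOrder α] (i : ℕ) : Finset α :=
  univ.filter fun x => corank x + 1 = i

lemma mem_lev' {i : ℕ} {x : α} : x ∈ lev' α i ↔ corank x + 1 = i := by simp [lev']

/-- sums over sets of cost zero -/
lemma sum_cost_zero {M : Type} [AddCommMonoid M] (i : ℕ) (f : Finset α → M) :
    ∑ S ∈ univ.filter (fun S : Finset α => cost i S = 0), f S =
      ∑ J ∈ (lev α i).powerset, f (low α i ∪ J) := by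
  refine Finset.sum_bij' (fun S _ => S ∩ lev α i) (fun J _ => low α i ∪ J) ?_ ?_ ?_ ?_ ?_
  · intro S _
    rw [mem_powerset]
    exact inter_subset_right
  · intro J hJ
    rw [mem_powerset] at hJ
    rw [mem_filter, cost_eq_zero]
    exact ⟨mem_univ _, subset_union_left, union_subset_union_right hJ⟩
  · intro S hS
    rw [mem_filter, cost_eq_zero] at hS
    obtain ⟨_, h1, h2⟩ := hS
    ext x
    rw [mem_union, mem_inter]
    constructor
    · rintro (h | h)
      · exact h1 h
      · exact h.1
    · intro h
      have := h2 h
      rw [mem_union] at this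
      tauto
  · intro J hJ
    rw [mem_powerset] at hJ
    ext x
    rw [mem_inter, mem_union]
    constructor
    · rintro ⟨h | h, h'⟩
      · exact absurd h' (Finset.disjoint_left.1 (disjoint_low_lev i) h)
      · exact h
    · intro h
      exact ⟨Or.inr h, hJ h⟩
  · intro S hS
    rw [mem_filter, cost_eq_zero] at hS
    obtain ⟨_, h1, h2⟩ := hS
    congr 1
    ext x
    rw [mem_union, mem_inter]
    constructor
    · intro h
      have := h2 h
      rw [mem_union] at this
      tauto
    · rintro (h | h)
      · exact h1 h
      · exact h.1

/-- sums over sets of cost one -/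
lemma sum_cost_one {M : Type} [AddCommMonoid M] (i : ℕ) (f : Finset α → M) :
    ∑ S ∈ univ.filter (fun S : Finset α => cost i S = 1), f S =
      ∑ x ∈ lev α (i + 1), ∑ J ∈ (lev α i).powerset, f (insert x (low α i ∪ J)) +
      ∑ z ∈ lev' α i, ∑ J ∈ (lev α i).powerset, f ((low α i).erase z ∪ J) := by
  rw [← Finset.sum_product', ← Finset.sum_product']
  have hA : Set.InjOn (fun p : α × Finset α => insert p.1 (low α i ∪ p.2))
      (((lev α (i + 1)) ×ˢ (lev α i).powerset : Finset (α × Finset α)) : Set _) := by
    rintro ⟨x, J⟩ h1 ⟨x', J'⟩ h2 h3
    simp only [coe_product, Set.mem_prod, mem_coe, mem_lev, mem_powerset] at h1 h2 h3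
    have hx : x = x' := by
      have : x ∈ insert x' (low α i ∪ J') := by
        rw [← h3]
        exact mem_insert_self _ _
      rw [mem_insert, mem_union, mem_low] at this
      rcases this with h | h | h
      · exact h
      · omega
      · have := h2.2 h
        rw [mem_lev] at this
        omega
    subst hx
    have hJ : J = J' := by
      have key : ∀ J : Finset α, J ⊆ lev α i →
          J = (insert x (low α i ∪ J)).filter (fun y => corank y = i) := by
        intro J hJ
        ext y
        rw [mem_filter, mem_insert, mem_union, mem_low]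
        constructor
        · intro h
          exact ⟨Or.inr (Or.inr h), mem_lev.1 (hJ h)⟩
        · rintro ⟨h | h | h, h'⟩
          · subst h; omega
          · omega
          · exact h
      rw [key J h1.2, key J' h2.2, h3]
    rw [hJ]
  have hB : Set.InjOn (fun p : α × Finset α => (low α i).erase p.1 ∪ p.2)
      (((lev' α i) ×ˢ (lev α i).powerset : Finset (α × Finset α)) : Set _) := by
    rintro ⟨z, J⟩ h1 ⟨z', J'⟩ h2 h3
    simp only [coe_product, Set.mem_prod, mem_coe, mem_lev', mem_powerset] at h1 h2 h3
    have hz : z = z' := by
      by_contra hne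
      have : z ∈ (low α i).erase z' ∪ J' := by
        rw [mem_union, mem_erase, mem_low]
        left
        exact ⟨hne, by omega⟩
      rw [← h3, mem_union, mem_erase] at this
      rcases this with h | h
      · exact h.1 rfl
      · have := h1.2 h
        rw [mem_lev] at this
        omega
    subst hz
    have hJ : J = J' := by
      have key : ∀ J : Finset α, J ⊆ lev α i →
          J = ((low α i).erase z ∪ J).filter (fun y => corank y = i) := by
        intro J hJ
        ext y
        rw [mem_filter, mem_union, mem_erase, mem_low]
        constructor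
        · intro h
          exact ⟨Or.inr h, mem_lev.1 (hJ h)⟩
        · rintro ⟨h | h, h'⟩
          · omega
          · exact h
      rw [key J h1.2, key J' h2.2, h3]
    rw [hJ]
  rw [← Finset.sum_image (f := f) hA, ← Finset.sum_image (f := f) hB, ← Finset.sum_union]
  · apply Finset.sum_congr _ (fun _ _ => rfl)
    ext S
    rw [mem_filter, cost_eq_one, mem_union, mem_image, mem_image]
    simp only [mem_univ, true_and, Prod.exists, mem_product, mem_powerset]
    constructor
    · rintro (⟨x, hx, h1, h2⟩ | ⟨z, hz, hzS, h1, h2⟩)
      · left
        refine ⟨x, S ∩ lev α i, ⟨hx, inter_subset_right⟩, ?_⟩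
        ext y
        rw [mem_insert, mem_union, mem_inter]
        constructor
        · rintro (rfl | h | h)
          · exact h1 (mem_insert_self _ _)
          · exact h1 (mem_insert_of_mem h)
          · exact h.1
        · intro h
          have := h2 h
          rw [mem_insert, mem_union] at this
          tauto
      · right
        refine ⟨z, S ∩ lev α i, ⟨mem_lev'.2 hz, inter_subset_right⟩, ?_⟩
        ext y
        rw [mem_union, mem_inter]
        constructor
        · rintro (h | h)
          · exact h1 h
          · exact h.1
        · intro h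
          have h3 := h2 h
          rw [mem_union] at h3
          rcases h3 with h3 | h3
          · left
            rw [mem_erase]
            refine ⟨?_, h3⟩
            rintro rfl
            exact hzS h
          · exact Or.inr ⟨h, h3⟩
    · rintro (⟨x, J, ⟨hx, hJ⟩, rfl⟩ | ⟨z, J, ⟨hz, hJ⟩, rfl⟩)
      · left
        refine ⟨x, hx, ?_, ?_⟩
        · exact insert_subset_insert _ subset_union_left
        · exact insert_subset_insert _ (union_subset_union_right hJ)
      · right
        rw [mem_lev'] at hz
        refine ⟨z, hz, ?_, subset_union_left, ?_⟩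
        · rw [mem_union, mem_erase]
          rintro (h | h)
          · exact h.1 rfl
          · have := hJ h
            rw [mem_lev] at this
            omega
        · exact union_subset_union (erase_subset _ _) hJ
  · rw [Finset.disjoint_left]
    intro S hS hS'
    rw [mem_image] at hS hS'
    obtain ⟨⟨x, J⟩, h1, rfl⟩ := hS
    obtain ⟨⟨z, J'⟩, h2, h3⟩ := hS'
    simp only [mem_product, mem_powerset, mem_lev, mem_lev'] at h1 h2 h3
    have : x ∈ (low α i).erase z ∪ J' := by
      rw [h3]
      exact mem_insert_self _ _
    rw [mem_union, mem_erase, mem_low] at this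
    rcases this with h | h
    · omega
    · have := h2.2 h
      rw [mem_lev] at this
      omega

end Pool.Gauss
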