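import Pool.Agent.Gauss35.FirstOrder

/-!
# The first order relation: explicit form
-/

set_option autoImplicit false
open scoped Classical
open Finset Polynomial

namespace Pool.Gauss

variable {α : Type} [Fintype α] [PartialOrder α]

/-! ### sums of powers over subsets -/

lemma sumPow {β : Type} (R : Finset β) : ∑ J ∈ R.powerset, (X : ℤ[X]) ^ J.card =
    (1 + X) ^ R.card := by
  have := Finset.sum_pow_mul_eq_add_pow (X : ℤ[X]) 1 R
  simp only [one_pow, mul_one] at this
  rw [this, add_comm]

lemma sumPow_disjoint {β : Type} (R D : Finset β) (hD : D ⊆ R)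
    {dec : ∀ J : Finset β, Decidable (∀ y ∈ J, y ∉ D)} :
    ∑ J ∈ R.powerset, (if ∀ y ∈ J, y ∉ D then (X : ℤ[X]) ^ J.card else 0) =
    (1 + X) ^ (R.card - D.card) := by
  rw [← Finset.sum_filter, ← card_sdiff_of_subset hD, ← sumPow]
  apply Finset.sum_congr _ (fun _ _ => rfl)
  ext J
  rw [mem_filter, mem_powerset, mem_powerset]
  constructor
  · rintro ⟨h1, h2⟩ y hy
    exact mem_sdiff.2 ⟨h1 hy, h2 y hy⟩
  · intro h
    exact ⟨fun y hy => (mem_sdiff.1 (h hy)).1, fun y hy => (mem_sdiff.1 (h hy)).2⟩

lemma sumPow_superset {β : Type} (R U : Finset β) (hU : U ⊆ R) :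
    ∑ J ∈ R.powerset, (if U ⊆ J then (X : ℤ[X]) ^ J.card else 0) =
    X ^ U.card * (1 + X) ^ (R.card - U.card) := by
  rw [← Finset.sum_filter, ← card_sdiff_of_subset hU, ← sumPow, Finset.mul_sum]
  refine Finset.sum_bij' (fun J _ => J \ U) (fun J _ => U ∪ J) ?_ ?_ ?_ ?_ ?_
  · intro J hJ
    rw [mem_filter, mem_powerset] at hJ
    rw [mem_powerset]
    exact sdiff_subset_sdiff hJ.1 (Subset.refl U)
  · intro J hJ
    rw [mem_powerset] at hJ
    rw [mem_filter, mem_powerset]
    exact ⟨union_subset hU (hJ.trans sdiff_subset), subset_union_left⟩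
  · intro J hJ
    rw [mem_filter, mem_powerset] at hJ
    exact union_sdiff_of_subset hJ.2
  · intro J hJ
    rw [mem_powerset] at hJ
    rw [union_sdiff_cancel_left]
    rw [Finset.disjoint_left]
    intro y hy hy'
    exact (mem_sdiff.1 (hJ hy')).2 hy
  · intro J hJ
    rw [mem_filter, mem_powerset] at hJ
    rw [← pow_add, card_sdiff_of_subset hJ.2, Nat.add_sub_cancel' (card_le_card hJ.2)]

/-! ### neighbours -/

/-- elements of corank `i` below `z` -/
noncomputable def dn (i : ℕ) (z : α) : Finset α := (lev α i).filter fun y => y < z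

/-- elements of corank `i` above `x` -/
noncomputable def up (i : ℕ) (x : α) : Finset α := (lev α i).filter fun y => x < y

lemma dn_subset (i : ℕ) (z : α) : dn i z ⊆ lev α i := filter_subset _ _
lemma up_subset (i : ℕ) (x : α) : up i x ⊆ lev α i := filter_subset _ _

lemma mem_dn {i : ℕ} {z y : α} : y ∈ dn i z ↔ corank y = i ∧ y < z := by
  rw [dn, mem_filter, mem_lev]

lemma mem_up {i : ℕ} {x y : α} : y ∈ up i x ↔ corank y = i ∧ x < y := by
  rw [up, mem_filter, mem_lev]

lemma low_union_mem (i : ℕ) {J : Finset α} (hJ : J ⊆ lev α i) : low α i ∪ J ∈ upSets α := by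
  rw [mem_upSets]
  intro x hx y hxy
  rw [mem_union, mem_low] at hx ⊢
  rcases hx with hx | hx
  · have := corank_anti hxy
    left; omega
  · have h1 := mem_lev.1 (hJ hx)
    rcases eq_or_lt_of_le hxy with rfl | h2
    · exact Or.inr hx
    · have := corank_lt h2
      left; omega

lemma insert_mem_iff (i : ℕ) {J : Finset α} (hJ : J ⊆ lev α i) {x : α}
    (hx : x ∈ lev α (i + 1)) : insert x (low α i ∪ J) ∈ upSets α ↔ up i x ⊆ J := by
  rw [mem_lev] at hx
  constructor
  · intro h y hy
    rw [mem_up] at hy
    have h1 := mem_upSets.1 h x (mem_insert_self _ _) y hy.2.le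
    rw [mem_insert, mem_union, mem_low] at h1
    rcases h1 with h1 | h1 | h1
    · exact absurd h1 hy.2.ne'
    · omega
    · exact h1
  · intro h
    rw [mem_upSets]
    intro a ha y hay
    rw [mem_insert] at ha
    rcases ha with rfl | ha
    · rcases eq_or_lt_of_le hay with rfl | h2
      · exact mem_insert_self _ _
      · have h3 := corank_lt h2
        rw [mem_insert, mem_union, mem_low]
        by_cases h4 : corank y = i
        · exact Or.inr (Or.inr (h (mem_up.2 ⟨h4, h2⟩)))
        · right; left; omega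
    · exact mem_insert_of_mem (mem_upSets.1 (low_union_mem i hJ) a ha y hay)

lemma erase_mem_iff (i : ℕ) {J : Finset α} (hJ : J ⊆ lev α i) {z : α}
    (hz : z ∈ lev' α i) : (low α i).erase z ∪ J ∈ upSets α ↔ ∀ y ∈ J, y ∉ dn i z := by
  rw [mem_lev'] at hz
  constructor
  · intro h y hy hy'
    rw [mem_dn] at hy'
    have h1 := mem_upSets.1 h y (mem_union_right _ hy) z hy'.2.le
    rw [mem_union, mem_erase] at h1
    rcases h1 with h1 | h1
    · exact h1.1 rfl
    · have := mem_lev.1 (hJ h1)
      omega
  · intro h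
    rw [mem_upSets]
    intro a ha y hay
    rw [mem_union, mem_erase, mem_low] at ha ⊢
    rcases ha with ha | ha
    · left
      have h1 := corank_anti hay
      refine ⟨?_, by omega⟩
      rintro rfl
      rcases eq_or_lt_of_le hay with h2 | h2
      · exact ha.1 h2
      · have := corank_lt h2
        omega
    · have h1 := mem_lev.1 (hJ ha)
      rcases eq_or_lt_of_le hay with rfl | h2
      · exact Or.inr ha
      · have h3 := corank_lt h2
        left
        refine ⟨?_, by omega⟩
        rintro rfl
        exact h a ha (mem_dn.2 ⟨h1, h2⟩)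

/-- no minimal elements above the level just above `i` -/
def NoMin (α : Type) [Fintype α] [PartialOrder α] (i : ℕ) : Prop :=
  ∀ x : α, corank x + 1 < i → ∃ y < x, corank y = corank x + 1

lemma card_free (i : ℕ) (hi : NoMin α i) {J : Finset α} (hJ : J ⊆ lev α i) :
    (free (low α i ∪ J)).card =
      J.card + ((lev' α i).filter fun z => ∀ y ∈ J, y ∉ dn i z).card := by
  rw [← card_union_of_disjoint]
  · congr 1
    ext x
    rw [free, mem_filter, mem_union, mem_union, mem_filter, mem_low, mem_lev']
    constructor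
    · rintro ⟨h1 | h1, h2⟩
      · right
        by_cases h3 : corank x + 1 < i
        · obtain ⟨y, hy, hy'⟩ := hi x h3
          exact absurd hy' (h2 y (by rw [mem_union, mem_low]; left; omega) hy)
        · refine ⟨by omega, fun y hy hy' => ?_⟩
          rw [mem_dn] at hy'
          exact h2 y (mem_union_right _ hy) hy'.2 (by omega)
      · exact Or.inl h1
    · rintro (h1 | ⟨h1, h2⟩)
      · refine ⟨Or.inr h1, fun y hy hyx => ?_⟩
        have h3 := mem_lev.1 (hJ h1)
        rw [mem_union, mem_low] at hy
        rcases hy with hy | hy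
        · omega
        · have := mem_lev.1 (hJ hy)
          omega
      · refine ⟨Or.inl (by omega), fun y hy hyx => ?_⟩
        rw [mem_union, mem_low] at hy
        rcases hy with hy | hy
        · omega
        · intro _
          exact h2 y hy (mem_dn.2 ⟨mem_lev.1 (hJ hy), hyx⟩)
  · rw [Finset.disjoint_left]
    intro x hx hx'
    rw [mem_filter, mem_lev'] at hx'
    have := mem_lev.1 (hJ hx)
    omega

lemma card_mx (i : ℕ) {J : Finset α} (hJ : J ⊆ lev α i) :
    (mx (low α i ∪ J)ᶜ).card =
      ((lev α i).card - J.card) + ((lev α (i + 1)).filter fun x => up i x ⊆ J).card := by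
  rw [← card_sdiff_of_subset hJ, ← card_union_of_disjoint]
  · congr 1
    ext x
    rw [mx, mem_filter, mem_compl, mem_union, mem_low, mem_union, mem_sdiff, mem_lev, mem_filter,
      mem_lev]
    constructor
    · rintro ⟨h1, h2⟩
      push Not at h1
      by_cases h3 : corank x = i
      · exact Or.inl ⟨h3, h1.2⟩
      · right
        have h4 : corank x = i + 1 := by
          by_contra h5
          obtain ⟨y, hy, hy'⟩ := exists_gt_corank (x := x) (n := i + 1) (by omega)
          refine h2 y ?_ hy
          rw [mem_compl, mem_union, mem_low]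
          rintro (h6 | h6)
          · omega
          · have := mem_lev.1 (hJ h6)
            omega
        refine ⟨h4, fun y hy => ?_⟩
        rw [mem_up] at hy
        by_contra h5
        refine h2 y ?_ hy.2
        rw [mem_compl, mem_union, mem_low]
        rintro (h6 | h6)
        · omega
        · exact h5 h6
    · rintro (⟨h1, h2⟩ | ⟨h1, h2⟩)
      · refine ⟨by push Not; exact ⟨by omega, h2⟩, fun y hy hxy => ?_⟩
        rw [mem_compl, mem_union, mem_low] at hy
        have := corank_lt hxy
        apply hy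
        left; omega
      · refine ⟨?_, fun y hy hxy => ?_⟩
        · rintro (h6 | h6)
          · omega
          · have := mem_lev.1 (hJ h6)
            omega
        · rw [mem_compl, mem_union, mem_low] at hy
          have h3 := corank_lt hxy
          apply hy
          by_cases h4 : corank y = i
          · exact Or.inr (h2 (mem_up.2 ⟨h4, hxy⟩))
          · left; omega
  · rw [Finset.disjoint_left]
    intro x hx hx'
    rw [mem_sdiff, mem_lev] at hx
    rw [mem_filter, mem_lev] at hx'
    omega

lemma card_low_union (i : ℕ) {J : Finset α} (hJ : J ⊆ lev α i) :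
    (low α i ∪ J).card = (low α i).card + J.card :=
  card_union_of_disjoint (Disjoint.mono_right hJ (disjoint_low_lev i))

lemma card_insert_low (i : ℕ) {J : Finset α} (hJ : J ⊆ lev α i) {x : α}
    (hx : x ∈ lev α (i + 1)) : (insert x (low α i ∪ J)).card = (low α i).card + J.card + 1 := by
  rw [card_insert_of_notMem, card_low_union i hJ]
  rw [mem_lev] at hx
  rw [mem_union, mem_low]
  rintro (h | h)
  · omega
  · have := mem_lev.1 (hJ h)
    omega

lemma card_erase_low (i : ℕ) {J : Finset α} (hJ : J ⊆ lev α i) {z : α}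
    (hz : z ∈ lev' α i) : ((low α i).erase z ∪ J).card + 1 = (low α i).card + J.card := by
  rw [mem_lev'] at hz
  have hz' : z ∈ low α i := by rw [mem_low]; omega
  rw [card_union_of_disjoint]
  · have := card_erase_add_one hz'
    omega
  · exact Disjoint.mono (erase_subset _ _) hJ (disjoint_low_lev i)

lemma sum_gg (s : Finset (Finset α)) (i : ℕ) (a : Finset α → ℕ) :
    ∑ S ∈ s, (gg (cost i S) (a S) : ℤ[X]) * X ^ S.card =
      ∑ S ∈ univ.filter (fun S : Finset α => cost i S = 0),
        (if S ∈ s then (a S : ℤ[X]) * X ^ S.card else 0) +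
      ∑ S ∈ univ.filter (fun S : Finset α => cost i S = 1),
        (if S ∈ s then (X : ℤ[X]) ^ S.card else 0) := by
  rw [Finset.sum_filter, Finset.sum_filter, ← Finset.sum_add_distrib]
  rw [← Finset.sum_subset (subset_univ s)]
  · apply Finset.sum_congr rfl
    intro S hS
    rw [gg]
    by_cases h0 : cost i S = 0
    · rw [if_pos h0, if_pos h0, if_pos hS, if_neg (by omega), add_zero]
    · by_cases h1 : cost i S = 1
      · rw [if_neg h0, if_pos h1, if_neg h0, if_pos h1, if_pos hS, zero_add]
        simp
      · rw [if_neg h0, if_neg h1, if_neg h0, if_neg h1]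
        simp
  · intro S _ hS
    rw [if_neg hS, if_neg hS]
    simp

/-- **(1)** the first order relation as an identity of polynomials -/
theorem first_order {h : Fin (Fintype.card α) → ℕ} (hG : IsGaussianWith α h) (i : ℕ)
    (hi : NoMin α i) :
    ((lev α i).card : ℤ[X]) * X * (1 + X) ^ (lev α i).card +
      (1 + X) * ∑ z ∈ lev' α i, (1 + X) ^ ((lev α i).card - (dn i z).card) +
      X * (1 + X) * ∑ x ∈ lev α (i + 1),
        X ^ (up i x).card * (1 + X) ^ ((lev α i).card - (up i x).card) =
    (((lev α 0).card : ℤ[X]) * X + ((lev α (i + 1)).card : ℤ[X]) * X ^ 2 +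
      ((lev' α i).card : ℤ[X])) * (1 + X) ^ (lev α i).card := by
  have h1 := first_order_poly hG i
  have e1 := sum_gg (upSets α) i (fun F => (free F).card + (mx Fᶜ).card)
  have e2 := sum_gg (univ : Finset (Finset α)) i (fun _ => (lev α 0).card)
  rw [e1, e2, sum_cost_zero, sum_cost_one, sum_cost_zero, sum_cost_one] at h1
  set n := (lev α i).card with hn
  set l := (low α i).card with hl
  -- evaluate the pieces
  have p1 : ∑ J ∈ (lev α i).powerset, (if low α i ∪ J ∈ upSets α then
      (((free (low α i ∪ J)).card + (mx (low α i ∪ J)ᶜ).card : ℕ) : ℤ[X]) *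
        X ^ (low α i ∪ J).card else 0) =
      X ^ l * ((n : ℤ[X]) * (1 + X) ^ n +
        ∑ z ∈ lev' α i, (1 + X) ^ (n - (dn i z).card) +
        ∑ x ∈ lev α (i + 1), X ^ (up i x).card * (1 + X) ^ (n - (up i x).card)) := by
    have q1 : ∀ J ∈ (lev α i).powerset, (if low α i ∪ J ∈ upSets α then
        (((free (low α i ∪ J)).card + (mx (low α i ∪ J)ᶜ).card : ℕ) : ℤ[X]) *
          X ^ (low α i ∪ J).card else 0) =
        X ^ l * ((n : ℤ[X]) * X ^ J.card +
          ∑ z ∈ lev' α i, (if ∀ y ∈ J, y ∉ dn i z then (X : ℤ[X]) ^ J.card else 0) +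
          ∑ x ∈ lev α (i + 1), (if up i x ⊆ J then (X : ℤ[X]) ^ J.card else 0)) := by
      intro J hJ
      rw [mem_powerset] at hJ
      rw [if_pos (low_union_mem i hJ), card_low_union i hJ, card_free i hi hJ, card_mx i hJ,
        ← Finset.sum_filter, ← Finset.sum_filter, Finset.sum_const, Finset.sum_const]
      have hle : J.card ≤ n := card_le_card hJ
      have e : J.card + ((lev' α i).filter fun z => ∀ y ∈ J, y ∉ dn i z).card +
          (n - J.card + ((lev α (i + 1)).filter fun x => up i x ⊆ J).card) =
          n + ((lev' α i).filter fun z => ∀ y ∈ J, y ∉ dn i z).card +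
            ((lev α (i + 1)).filter fun x => up i x ⊆ J).card := by omega
      rw [e, pow_add]
      push_cast
      simp only [nsmul_eq_mul]
      ring
    have q2 : ∑ J ∈ (lev α i).powerset, ∑ z ∈ lev' α i,
        (if ∀ y ∈ J, y ∉ dn i z then (X : ℤ[X]) ^ J.card else 0) =
        ∑ z ∈ lev' α i, (1 + X) ^ (n - (dn i z).card) := by
      rw [Finset.sum_comm]
      exact Finset.sum_congr rfl
        (fun z _ => sumPow_disjoint (lev α i) (dn i z) (dn_subset i z))
    have q3 : ∑ J ∈ (lev α i).powerset, ∑ x ∈ lev α (i + 1),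
        (if up i x ⊆ J then (X : ℤ[X]) ^ J.card else 0) =
        ∑ x ∈ lev α (i + 1), X ^ (up i x).card * (1 + X) ^ (n - (up i x).card) := by
      rw [Finset.sum_comm]
      exact Finset.sum_congr rfl
        (fun x _ => sumPow_superset (lev α i) (up i x) (up_subset i x))
    rw [Finset.sum_congr rfl q1, ← Finset.mul_sum, Finset.sum_add_distrib,
      Finset.sum_add_distrib, ← Finset.mul_sum, sumPow, q2, q3]
  have p2 : ∑ x ∈ lev α (i + 1), ∑ J ∈ (lev α i).powerset,
      (if insert x (low α i ∪ J) ∈ upSets α then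
        (X : ℤ[X]) ^ (insert x (low α i ∪ J)).card else 0) =
      X ^ (l + 1) * ∑ x ∈ lev α (i + 1), X ^ (up i x).card * (1 + X) ^ (n - (up i x).card) := by
    rw [Finset.mul_sum]
    apply Finset.sum_congr rfl
    intro x hx
    rw [← sumPow_superset (lev α i) (up i x) (up_subset i x), Finset.mul_sum]
    apply Finset.sum_congr rfl
    intro J hJ
    rw [mem_powerset] at hJ
    rw [card_insert_low i hJ hx]
    simp only [insert_mem_iff i hJ hx]
    split_ifs
    · rw [← hl]; ring
    · rw [mul_zero]
  have p3 : X * ∑ z ∈ lev' α i, ∑ J ∈ (lev α i).powerset,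
      (if (low α i).erase z ∪ J ∈ upSets α then
        (X : ℤ[X]) ^ ((low α i).erase z ∪ J).card else 0) =
      X ^ l * ∑ z ∈ lev' α i, (1 + X) ^ (n - (dn i z).card) := by
    rw [Finset.mul_sum, Finset.mul_sum]
    apply Finset.sum_congr rfl
    intro z hz
    rw [← sumPow_disjoint (lev α i) (dn i z) (dn_subset i z)
      (dec := fun J => Classical.propDecidable _), Finset.mul_sum, Finset.mul_sum]
    apply Finset.sum_congr rfl
    intro J hJ
    rw [mem_powerset] at hJ
    have hc := card_erase_low i hJ hz
    simp only [erase_mem_iff i hJ hz]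
    split_ifs
    · rw [← pow_succ', hc, ← hl, pow_add]
    · rw [mul_zero, mul_zero]
  have p4 : ∑ J ∈ (lev α i).powerset, (if low α i ∪ J ∈ (univ : Finset (Finset α)) then
      (((lev α 0).card : ℕ) : ℤ[X]) * X ^ (low α i ∪ J).card else 0) =
      X ^ l * (((lev α 0).card : ℤ[X]) * (1 + X) ^ n) := by
    rw [hn, ← sumPow, Finset.mul_sum, Finset.mul_sum]
    apply Finset.sum_congr rfl
    intro J hJ
    rw [mem_powerset] at hJ
    rw [if_pos (mem_univ _), card_low_union i hJ, pow_add]
    ring
  have p5 : ∑ x ∈ lev α (i + 1), ∑ J ∈ (lev α i).powerset,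
      (if insert x (low α i ∪ J) ∈ (univ : Finset (Finset α)) then
        (X : ℤ[X]) ^ (insert x (low α i ∪ J)).card else 0) =
      X ^ (l + 1) * (((lev α (i + 1)).card : ℤ[X]) * (1 + X) ^ n) := by
    have : ∀ x ∈ lev α (i + 1), ∑ J ∈ (lev α i).powerset,
      (if insert x (low α i ∪ J) ∈ (univ : Finset (Finset α)) then
        (X : ℤ[X]) ^ (insert x (low α i ∪ J)).card else 0) = X ^ (l + 1) * (1 + X) ^ n := by
      intro x hx
      rw [hn, ← sumPow, Finset.mul_sum]
      apply Finset.sum_congr rfl
      intro J hJ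
      rw [mem_powerset] at hJ
      rw [if_pos (mem_univ _), card_insert_low i hJ hx, ← hl]
      ring
    rw [Finset.sum_congr rfl this, Finset.sum_const, nsmul_eq_mul]
    ring
  have p6 : X * ∑ z ∈ lev' α i, ∑ J ∈ (lev α i).powerset,
      (if (low α i).erase z ∪ J ∈ (univ : Finset (Finset α)) then
        (X : ℤ[X]) ^ ((low α i).erase z ∪ J).card else 0) =
      X ^ l * (((lev' α i).card : ℤ[X]) * (1 + X) ^ n) := by
    have : ∀ z ∈ lev' α i, X * ∑ J ∈ (lev α i).powerset,
      (if (low α i).erase z ∪ J ∈ (univ : Finset (Finset α)) then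
        (X : ℤ[X]) ^ ((low α i).erase z ∪ J).card else 0) = X ^ l * (1 + X) ^ n := by
      intro z hz
      rw [hn, ← sumPow, Finset.mul_sum, Finset.mul_sum]
      apply Finset.sum_congr rfl
      intro J hJ
      rw [mem_powerset] at hJ
      have hc := card_erase_low i hJ hz
      rw [if_pos (mem_univ _), ← pow_succ', hc, ← hl, pow_add]
    rw [Finset.mul_sum, Finset.sum_congr rfl this, Finset.sum_const, nsmul_eq_mul]
    ring
  rw [p1, p2, p4, p5] at h1
  have h2 := congrArg (fun q => (X : ℤ[X]) * q) h1
  simp only [mul_add] at h2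
  rw [p3, p6] at h2
  have h3 : (X : ℤ[X]) ^ l ≠ 0 := pow_ne_zero _ X_ne_zero
  apply mul_left_cancel₀ h3
  rw [pow_succ] at h2
  linear_combination h2

end Pool.Gauss
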