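import Pool.Agent.Gauss35.Corank

/-!
# The dual of a Gaussian poset is Gaussian; gradedness
-/

set_option autoImplicit false
open scoped Classical
open Finset

namespace Pool.Gauss

variable {α : Type} [Fintype α] [PartialOrder α]

/-- an enumeration of the poset matching `h` with the coranks -/
theorem exists_equiv {h : Fin (Fintype.card α) → ℕ} (hG : IsGaussianWith α h) :
    ∃ e : Fin (Fintype.card α) ≃ α, ∀ i, h i = corank (e i) + 1 := by
  have h1 : ∀ v : ℕ, Nonempty ({i // h i = v} ≃ {x : α // corank x + 1 = v}) := by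
    intro v
    rw [← Fintype.card_eq, Fintype.card_subtype, Fintype.card_subtype]
    exact card_h_eq hG v
  let e := Equiv.ofFiberEquiv (f := h) (g := fun x : α => corank x + 1)
    (fun v => Classical.choice (h1 v))
  exact ⟨e, fun i => (Equiv.ofFiberEquiv_map (g := fun x : α => corank x + 1) _ i).symm⟩

lemma esym_equiv {ι κ : Type} [Fintype ι] [Fintype κ] (e : ι ≃ κ) (w : κ → ℕ) (k : ℕ) :
    esym (fun i => w (e i)) k = esym w k := by
  rw [esym, esym]
  refine Finset.sum_bij' (fun s _ => s.map e.toEmbedding) (fun s _ => s.map e.symm.toEmbedding)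
    ?_ ?_ ?_ ?_ ?_
  · intro s hs
    rw [mem_powersetCard_univ] at hs ⊢
    rw [card_map, hs]
  · intro s hs
    rw [mem_powersetCard_univ] at hs ⊢
    rw [card_map, hs]
  · intro s _
    simp [Finset.map_map]
  · intro s _
    simp [Finset.map_map]
  · intro s _
    rw [Finset.sum_map]
    rfl

variable (α) in
/-- the numbers corank plus one -/
noncomputable def rr (x : α) : ℕ := corank x + 1

/-- **(I1'')** -/
theorem A_eq' {h : Fin (Fintype.card α) → ℕ} (hG : IsGaussianWith α h) (k : ℕ)
    (hk : k ≤ Fintype.card α) :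
    A α k = Uinf (univ : Finset α) * esym (fun x : α => corank x + 1) k := by
  obtain ⟨e, he⟩ := exists_equiv hG
  have h1 : h = fun i => corank (e i) + 1 := funext he
  rw [A_eq hG k hk]
  conv_lhs => rw [h1]
  rw [esym_equiv e (fun x : α => corank x + 1) k]

/-! ### duality -/

lemma sum_sub_of_le (m : ℕ) (σ : α → Fin (m + 1)) :
    (∑ x, (σ x).val) + (∑ x, (σ x).rev.val) = m * Fintype.card α := by
  rw [← Finset.sum_add_distrib]
  have : ∀ x ∈ (univ : Finset α), (σ x).val + (σ x).rev.val = m := by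
    intro x _
    rw [Fin.val_rev]
    have := (σ x).isLt
    omega
  rw [Finset.sum_congr rfl this, Finset.sum_const, smul_eq_mul, mul_comm]
  rfl

theorem dual_isGaussian_aux {h : Fin (Fintype.card α) → ℕ} (hG : IsGaussianWith α h) (m : ℕ) :
    (∑ σ ∈ (Finset.univ.filter (fun σ : α → Fin (m + 1) => Monotone σ)),
      (Polynomial.X : Polynomial ℤ) ^ (∑ x, (σ x).rev.val)) *
      ∏ i, (1 - (Polynomial.X : Polynomial ℤ) ^ (h i)) =
      ∏ i, (1 - (Polynomial.X : Polynomial ℤ) ^ (m + h i)) := by
  -- pass to the fraction field and substitute `X⁻¹`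
  let K := FractionRing (Polynomial ℤ)
  let ι := algebraMap (Polynomial ℤ) K
  have hι : Function.Injective ι := IsFractionRing.injective (Polynomial ℤ) K
  apply hι
  set x : K := ι Polynomial.X with hx
  have hx0 : x ≠ 0 := by
    intro h0
    exact Polynomial.X_ne_zero (hι (by rw [← hx, h0, map_zero]))
  have h2 := congrArg (Polynomial.aeval (x⁻¹)) (hG.2 m)
  simp only [map_mul, map_sum, map_pow, map_prod, map_sub, map_one, Polynomial.aeval_X] at h2 ⊢
  rw [← hx]
  have h3 : ∀ a : ℕ, (1 : K) - x⁻¹ ^ a = -(x⁻¹ ^ a) * (1 - x ^ a) := by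
    intro a
    have : x⁻¹ ^ a * x ^ a = 1 := by
      rw [← mul_pow, inv_mul_cancel₀ hx0, one_pow]
    linear_combination -this
  simp only [h3] at h2
  rw [Finset.prod_mul_distrib, Finset.prod_mul_distrib] at h2
  have h4 : ∏ i : Fin (Fintype.card α), -(x⁻¹ ^ (m + h i)) =
      (x⁻¹ ^ (m * Fintype.card α)) * ∏ i : Fin (Fintype.card α), -(x⁻¹ ^ (h i)) := by
    have : ∀ i : Fin (Fintype.card α), -(x⁻¹ ^ (m + h i)) = x⁻¹ ^ m * -(x⁻¹ ^ (h i)) := by
      intro i
      rw [pow_add]; ring
    simp only [this]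
    rw [Finset.prod_mul_distrib, Finset.prod_const, Finset.card_univ, Fintype.card_fin, ← pow_mul]
  rw [h4] at h2
  have h5 : ∏ i : Fin (Fintype.card α), -(x⁻¹ ^ (h i)) ≠ 0 := by
    rw [Finset.prod_ne_zero_iff]
    intro i _
    exact neg_ne_zero.2 (pow_ne_zero _ (inv_ne_zero hx0))
  have h6 : (∑ σ ∈ (Finset.univ.filter (fun σ : α → Fin (m + 1) => Monotone σ)),
      x⁻¹ ^ (∑ x, (σ x).val)) * ∏ i, (1 - x ^ (h i)) =
      x⁻¹ ^ (m * Fintype.card α) * ∏ i, (1 - x ^ (m + h i)) := by
    apply mul_left_cancel₀ h5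
    linear_combination h2
  have h7 : (∑ σ ∈ (Finset.univ.filter (fun σ : α → Fin (m + 1) => Monotone σ)),
      x ^ (∑ x, (σ x).rev.val)) = x ^ (m * Fintype.card α) *
      ∑ σ ∈ (Finset.univ.filter (fun σ : α → Fin (m + 1) => Monotone σ)),
      x⁻¹ ^ (∑ x, (σ x).val) := by
    rw [Finset.mul_sum]
    apply Finset.sum_congr rfl
    intro σ _
    rw [← sum_sub_of_le m σ, pow_add, mul_comm (x ^ _) (x ^ _), mul_assoc, ← mul_pow,
      mul_inv_cancel₀ hx0, one_pow, mul_one]
  rw [h7, mul_assoc, h6, ← mul_assoc, ← mul_pow, mul_inv_cancel₀ hx0, one_pow, one_mul]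

theorem dual_isGaussian {h : Fin (Fintype.card α) → ℕ} (hG : IsGaussianWith α h) :
    IsGaussianWith αᵒᵈ h := by
  refine ⟨hG.1, fun m => ?_⟩
  have key : (∑ σ ∈ (Finset.univ.filter (fun σ : α → Fin (m + 1) => Monotone σ)),
      (Polynomial.X : Polynomial ℤ) ^ (∑ x, (σ x).rev.val)) *
      ∏ i, (1 - (Polynomial.X : Polynomial ℤ) ^ (h i)) =
      ∏ i, (1 - (Polynomial.X : Polynomial ℤ) ^ (m + h i)) := by
    exact dual_isGaussian_aux hG m
  refine Eq.trans (congrArg₂ (· * ·) ?_ rfl) key
  refine Finset.sum_bij' (fun σ _ x => (σ (OrderDual.toDual x)).rev)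
    (fun σ _ x => (σ (OrderDual.ofDual x)).rev) ?_ ?_ ?_ ?_ ?_
  · intro σ hσ
    rw [mem_filter] at hσ ⊢
    refine ⟨mem_univ _, fun x y hxy => ?_⟩
    rw [Fin.rev_le_rev]
    exact hσ.2 (OrderDual.toDual_le_toDual.2 hxy)
  · intro σ hσ
    rw [mem_filter] at hσ ⊢
    refine ⟨mem_univ _, fun x y hxy => ?_⟩
    rw [Fin.rev_le_rev]
    exact hσ.2 (OrderDual.ofDual_le_ofDual.2 hxy)
  · intro σ _
    funext x
    simp
  · intro σ _
    funext x
    simp
  · intro σ _
    congr 1
    refine Fintype.sum_equiv OrderDual.ofDual _ _ fun x => ?_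
    simp

/-! ### the bijection between strictly and weakly reversing maps -/

lemma Uinf_dual {h : Fin (Fintype.card α) → ℕ} (hG : IsGaussianWith α h) :
    Uinf (univ : Finset αᵒᵈ) = Uinf (univ : Finset α) := by
  have h1 := A_mul_prod hG 0 (by omega)
  have h2 := A_mul_prod (dual_isGaussian hG) 0 (by omega)
  rw [A_zero] at h1 h2
  have h3 : esym h 0 = 1 := by simp [esym]
  rw [h3] at h1
  have h4 : Uinf (univ : Finset αᵒᵈ) * ∏ i, (1 - (PowerSeries.X : PowerSeries ℤ) ^ (h i)) = 1 :=
    h2.trans h3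
  calc Uinf (univ : Finset αᵒᵈ) = Uinf (univ : Finset αᵒᵈ) *
        (Uinf (univ : Finset α) * ∏ i, (1 - (PowerSeries.X : PowerSeries ℤ) ^ (h i))) := by
        rw [h1, mul_one]
    _ = (Uinf (univ : Finset αᵒᵈ) * ∏ i, (1 - (PowerSeries.X : PowerSeries ℤ) ^ (h i))) *
        Uinf (univ : Finset α) := by ring
    _ = Uinf (univ : Finset α) := by rw [h4, one_mul]

variable (α) in
lemma A_card : A α (Fintype.card α) = Ut (univ : Finset α) := by
  have e : (upSets α).filter (fun F => F.card = Fintype.card α) = {univ} := by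
    ext F
    rw [mem_filter, mem_singleton, card_eq_iff_eq_univ]
    constructor
    · exact fun h => h.2
    · rintro rfl
      exact ⟨mem_upSets.2 (by simp), rfl⟩
  have h1 : Uinf (∅ : Finset α) = 1 := by
    ext N
    rw [Uinf, coeff_cnt, PowerSeries.coeff_one, piAntidiag_empty]
    split_ifs with h0
    · have : MonoOn (∅ : Finset α) (0 : α → ℕ) := by simp [MonoOn]
      rw [filter_singleton, if_pos this]
      simp
    · simp
  rw [A, e, sum_singleton, compl_univ, h1, mul_one]

lemma Ut_univ {h : Fin (Fintype.card α) → ℕ} (hG : IsGaussianWith α h) :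
    Ut (univ : Finset α) =
      Uinf (univ : Finset αᵒᵈ) * PowerSeries.X ^ (∑ x : α, (corank x + 1)) := by
  rw [← A_card, A_eq' hG _ le_rfl, Uinf_dual hG]
  congr 1
  rw [esym]
  have e : (univ : Finset α).powersetCard (Fintype.card α) = {univ} := by
    rw [← Finset.card_univ, Finset.powersetCard_self]
  rw [e, sum_singleton]

/-- every strictly reversing map dominates the corank in the weak sense -/
theorem strictRev_sub {h : Fin (Fintype.card α) → ℕ} (hG : IsGaussianWith α h) {τ : α → ℕ}
    (hτ : StrictRev (univ : Finset α) τ) {x y : α} (hxy : x ≤ y) :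
    τ y + corank x ≤ τ x + corank y := by
  set H := ∑ x : α, (corank x + 1) with hH
  have hge : ∀ x, corank x + 1 ≤ τ x := fun x =>
    hτ.corank_lt (mem_upSets.2 (by simp)) x (mem_univ x)
  obtain ⟨N, hN⟩ : ∃ N, ∑ x, τ x = N + H := by
    refine ⟨∑ x, τ x - H, ?_⟩
    have : H ≤ ∑ x, τ x := Finset.sum_le_sum fun x _ => hge x
    omega
  -- compare coefficients
  have h1 := congrArg (PowerSeries.coeff (N + H)) (Ut_univ hG)
  rw [PowerSeries.coeff_mul_X_pow, Ut, Uinf, coeff_cnt, coeff_cnt] at h1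
  have h2 : (((univ : Finset α).piAntidiag (N + H)).filter (StrictRev univ)).card =
      (((univ : Finset αᵒᵈ).piAntidiag N).filter (MonoOn univ)).card := by exact_mod_cast h1
  -- the injection
  let φ : (αᵒᵈ → ℕ) → (α → ℕ) := fun ρ x => ρ (OrderDual.toDual x) + (corank x + 1)
  have hφ : Function.Injective φ := by
    intro ρ ρ' hρ
    funext x
    have := congrFun hρ (OrderDual.ofDual x)
    simpa [φ] using this
  have himg : (((univ : Finset αᵒᵈ).piAntidiag N).filter (MonoOn univ)).image φ ⊆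
      (((univ : Finset α).piAntidiag (N + H)).filter (StrictRev univ)) := by
    intro v hv
    rw [mem_image] at hv
    obtain ⟨ρ, hρ, rfl⟩ := hv
    rw [mem_filter, mem_piAntidiag] at hρ ⊢
    obtain ⟨⟨hρ1, _⟩, hρ2⟩ := hρ
    refine ⟨⟨?_, fun _ _ => mem_univ _⟩, ?_, ?_⟩
    · simp only [φ, Finset.sum_add_distrib]
      rw [hH, ← hρ1, Finset.sum_add_distrib]
      congr 1
    · intro x _
      simp only [φ]
      omega
    · intro x _ y _ hxy
      have h3 := hρ2 (OrderDual.toDual y) (mem_univ _) (OrderDual.toDual x) (mem_univ _)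
        (OrderDual.toDual_le_toDual.2 hxy.le)
      have h4 := corank_lt hxy
      simp only [φ]
      omega
  have heq := Finset.eq_of_subset_of_card_le himg (by
    rw [Finset.card_image_of_injective _ hφ, h2])
  have hmem : τ ∈ (((univ : Finset α).piAntidiag (N + H)).filter (StrictRev univ)) := by
    rw [mem_filter, mem_piAntidiag]
    exact ⟨⟨hN, fun _ _ => mem_univ _⟩, hτ⟩
  rw [← heq, mem_image] at hmem
  obtain ⟨ρ, hρ, rfl⟩ := hmem
  rw [mem_filter] at hρ
  have h3 := hρ.2 (OrderDual.toDual y) (mem_univ _) (OrderDual.toDual x) (mem_univ _)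
    (OrderDual.toDual_le_toDual.2 hxy)
  simp only [φ]
  omega

/-- **(I3)** a Gaussian poset is graded by the corank -/
theorem corank_covBy {h : Fin (Fintype.card α) → ℕ} (hG : IsGaussianWith α h) {x y : α}
    (hxy : x ⋖ y) : corank x = corank y + 1 := by
  have hlt := corank_lt hxy.lt
  let c : α → ℕ := fun z => (univ.filter fun w => z ≤ w ∧ w < y).card
  let L := corank x + 1
  let τ : α → ℕ := fun z => if z ≤ y then max (corank z + 1) (L + c z) else corank z + 1
  have hc : ∀ a b, a < b → b ≤ y → c b < c a := by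
    intro a b hab hby
    apply Finset.card_lt_card
    rw [Finset.ssubset_iff_of_subset]
    · refine ⟨a, ?_, ?_⟩
      · rw [mem_filter]
        exact ⟨mem_univ a, le_rfl, lt_of_lt_of_le hab hby⟩
      · rw [mem_filter]
        rintro ⟨_, h1, _⟩
        exact absurd h1 (not_le_of_gt hab)
    · intro w hw
      rw [mem_filter] at hw ⊢
      exact ⟨hw.1, hab.le.trans hw.2.1, hw.2.2⟩
  have hτ : StrictRev (univ : Finset α) τ := by
    constructor
    · intro z _
      simp only [τ]
      split_ifs <;> omega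
    · intro a _ b _ hab
      have h1 := corank_lt hab
      simp only [τ]
      by_cases hb : b ≤ y
      · have ha : a ≤ y := hab.le.trans hb
        have h2 := hc a b hab hb
        rw [if_pos hb, if_pos ha]
        omega
      · rw [if_neg hb]
        split_ifs <;> omega
  have h1 := strictRev_sub hG hτ hxy.le
  have hcy : c y = 0 := by
    simp only [c]
    rw [card_eq_zero, filter_eq_empty_iff]
    rintro w _ ⟨h2, h3⟩
    exact absurd h2 (not_le_of_gt h3)
  have hcx : c x = 1 := by
    simp only [c]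
    rw [card_eq_one]
    refine ⟨x, ?_⟩
    ext w
    rw [mem_filter, mem_singleton]
    constructor
    · rintro ⟨_, h2, h3⟩
      rcases eq_or_lt_of_le h2 with h4 | h4
      · exact h4.symm
      · exact absurd h3 (hxy.2 h4)
    · rintro rfl
      exact ⟨mem_univ _, le_rfl, hxy.lt⟩
  simp only [τ] at h1
  rw [if_pos le_rfl, if_pos hxy.le, hcy, hcx] at h1
  simp only [L] at h1
  omega

/-- the rank (length of a longest chain below) -/
noncomputable def rank (x : α) : ℕ := corank (OrderDual.toDual x)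

lemma rank_covBy {h : Fin (Fintype.card α) → ℕ} (hG : IsGaussianWith α h) {x y : α}
    (hxy : x ⋖ y) : rank y = rank x + 1 :=
  corank_covBy (dual_isGaussian hG) hxy.toDual

lemma exists_covBy_of_lt {x y : α} (h : x < y) : ∃ z, x ⋖ z ∧ z ≤ y := by
  have hne : (univ.filter fun z => x < z ∧ z ≤ y).Nonempty := ⟨y, by simp [h]⟩
  obtain ⟨z, hz⟩ := (univ.filter fun z => x < z ∧ z ≤ y).exists_minimal hne
  have hz1 := hz.prop
  rw [mem_filter] at hz1
  refine ⟨z, ⟨hz1.2.1, fun w hxw hwz => ?_⟩, hz1.2.2⟩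
  have h1 : w ∈ univ.filter fun z => x < z ∧ z ≤ y := by
    rw [mem_filter]
    exact ⟨mem_univ w, hxw, hwz.le.trans hz1.2.2⟩
  exact absurd (hz.le_of_le h1 hwz.le) (not_le_of_gt hwz)

lemma exists_covBy_of_lt' {x y : α} (h : x < y) : ∃ z, x ≤ z ∧ z ⋖ y := by
  have hne : (univ.filter fun z => x ≤ z ∧ z < y).Nonempty := ⟨x, by simp [h]⟩
  obtain ⟨z, hz⟩ := (univ.filter fun z => x ≤ z ∧ z < y).exists_maximal hne
  have hz1 := hz.prop
  rw [mem_filter] at hz1
  refine ⟨z, hz1.2.1, ⟨hz1.2.2, fun w hzw hwy => ?_⟩⟩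
  have h1 : w ∈ univ.filter fun z => x ≤ z ∧ z < y := by
    rw [mem_filter]
    exact ⟨mem_univ w, hz1.2.1.trans hzw.le, hwy⟩
  exact absurd (hz.le_of_ge h1 hzw.le) (not_le_of_gt hzw)

lemma rank_add_corank_of_le {h : Fin (Fintype.card α) → ℕ} (hG : IsGaussianWith α h) :
    ∀ x y : α, x ≤ y → rank x + corank x = rank y + corank y := by
  have key : ∀ n : ℕ, ∀ x y : α, corank x - corank y = n → x ≤ y →
      rank x + corank x = rank y + corank y := by
    intro n
    induction n using Nat.strong_induction_on with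
    | _ n ih =>
      intro x y hn hxy
      rcases eq_or_lt_of_le hxy with rfl | hlt
      · rfl
      obtain ⟨z, hxz, hzy⟩ := exists_covBy_of_lt hlt
      have h1 := corank_covBy hG hxz
      have h2 := rank_covBy hG hxz
      have h3 := corank_anti hzy
      have h4 := ih (corank z - corank y) (by omega) z y rfl hzy
      omega
  exact fun x y hxy => key _ x y rfl hxy

/-- in a connected Gaussian poset rank plus corank is constant -/
theorem rank_add_corank {h : Fin (Fintype.card α) → ℕ} (hG : IsGaussianWith α h)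
    (hc : ∀ a b : α, Relation.ReflTransGen (fun x y : α => x ≤ y ∨ y ≤ x) a b) (x y : α) :
    rank x + corank x = rank y + corank y := by
  induction hc x y with
  | refl => rfl
  | tail _ hbc ih =>
    rcases hbc with h1 | h1
    · rw [ih, rank_add_corank_of_le hG _ _ h1]
    · rw [ih, ← rank_add_corank_of_le hG _ _ h1]

/-- in a connected Gaussian poset every element that is not of maximal corank has an element of
the next corank below it -/
theorem exists_lt_of_corank_lt {h : Fin (Fintype.card α) → ℕ} (hG : IsGaussianWith α h)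
    (hc : ∀ a b : α, Relation.ReflTransGen (fun x y : α => x ≤ y ∨ y ≤ x) a b) {x w : α}
    (hxw : corank x < corank w) : ∃ y < x, corank y = corank x + 1 := by
  have h1 := rank_add_corank hG hc x w
  have h2 : 0 < rank x := by omega
  obtain ⟨y, hy, _⟩ := exists_gt_corank (x := OrderDual.toDual x) (n := rank x - 1)
    (by change rank x - 1 < rank x; omega)
  have hyx : OrderDual.ofDual y < x := hy
  obtain ⟨z, _, hz⟩ := exists_covBy_of_lt' hyx
  exact ⟨z, hz.lt, corank_covBy hG hz⟩

end Pool.Gauss
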