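import Pool.Agent.Gauss35.Three

/-!
# Weights of the energy functions of total energy two
-/

set_option autoImplicit false
open scoped Classical
open Finset

namespace Pool.Gauss

variable {α : Type} [Fintype α] [PartialOrder α]

/-- unit energy at `a` -/
noncomputable def d1 (a : α) : α → ℕ := fun y => if y = a then 1 else 0

lemma d1_self (a : α) : d1 a a = 1 := if_pos rfl
lemma d1_ne {a y : α} (h : y ≠ a) : d1 a y = 0 := if_neg h
lemma d1_le (a y : α) : d1 a y ≤ 1 := by
  unfold d1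
  split_ifs <;> omega

/-- lower level disjointness facts -/
lemma ne_of_lev' {i : ℕ} {a y : α} (ha : a ∈ lev' α i) (hy : y ∈ lev α i) : y ≠ a := by
  rintro rfl
  have := mem_lev'.1 ha
  have := mem_lev.1 hy
  omega
lemma ne_of_lev1 {i : ℕ} {a y : α} (ha : a ∈ lev α (i + 1)) (hy : y ∈ lev α i) : y ≠ a := by
  rintro rfl
  have := mem_lev.1 ha
  have := mem_lev.1 hy
  omega
lemma ne_of_lev2 {i : ℕ} {a y : α} (ha : a ∈ lev α (i + 1)) (hy : y ∈ lev' α i) : y ≠ a := by
  rintro rfl
  have := mem_lev.1 ha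
  have := mem_lev'.1 hy
  omega

lemma dn_lev {i : ℕ} {z y : α} (h : y ∈ dn i z) : y ∈ lev α i := mem_lev.2 (mem_dn.1 h).1
lemma up_lev {i : ℕ} {x y : α} (h : y ∈ up i x) : y ∈ lev α i := mem_lev.2 (mem_up.1 h).1
lemma mem_dn' {i : ℕ} {z y : α} : y ∈ dn i z ↔ y ∈ lev α i ∧ y < z := by rw [mem_dn, mem_lev]
lemma mem_up' {i : ℕ} {x y : α} : y ∈ up i x ↔ y ∈ lev α i ∧ x < y := by rw [mem_up, mem_lev]

lemma card_low' (i : ℕ) : (low α i).card = far α i + (lev' α i).card := by
  have e : low α i = (univ.filter fun y => corank y + 1 < i) ∪ lev' α i := by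
    ext y
    rw [mem_low, mem_union, mem_filter, mem_lev']
    constructor
    · intro h
      by_cases h1 : corank y + 1 < i
      · exact Or.inl ⟨mem_univ _, h1⟩
      · exact Or.inr (by omega)
    · rintro (h | h)
      · have := h.2
        omega
      · omega
  rw [e, card_union_of_disjoint, far]
  rw [Finset.disjoint_left]
  intro y hy hy'
  have h1 := (mem_filter.1 hy).2
  have := mem_lev'.1 hy'
  omega

/-- three-level functions from two levels -/
lemma three_add {i : ℕ} {a b : α} (ha : i ≤ corank a + 1 ∧ corank a ≤ i + 1)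
    (hb : i ≤ corank b + 1 ∧ corank b ≤ i + 1) : Three i (d1 a + d1 b) := by
  intro y hy
  change d1 a y + d1 b y ≠ 0 at hy
  by_cases h1 : y = a
  · rw [h1]
    exact ha
  · by_cases h2 : y = b
    · rw [h2]
      exact hb
    · rw [d1_ne h1, d1_ne h2] at hy
      exact absurd rfl hy

/-- data of a three-level function -/
lemma tm_of {i : ℕ} {ε : α → ℕ} (hg : Grad α) (h : Three i ε) (hgood : GoodE i ε)
    {N n : ℕ} (hN : far α i + (zIn i ε).card + (yIn i ε).card = N)
    (hn : (zPk i ε).card + (yPk i ε).card + (xPk i ε).card = n) :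
    tm i ε = (Polynomial.X - 1) ^ N * Polynomial.X ^ n := by
  rw [tm, if_pos hgood, inF_three hg h, pkF_three hg h, hN, hn]

lemma good_of_yIn {i : ℕ} {ε : α → ℕ} (hg : Grad α) (h : Three i ε) (h1 : yIn i ε = ∅) :
    GoodE i ε := by
  rw [goodE_three hg h]
  intro y hy h2
  have : y ∈ yIn i ε := mem_yIn.2 ⟨hy, h2.1⟩
  rw [h1] at this
  exact absurd this (notMem_empty y)

/-- if nothing is excited on the level `i + 1` then `xPk` and `yIn` are empty -/
lemma xPk_eq_empty {i : ℕ} {ε : α → ℕ} (h : ∀ x ∈ lev α (i + 1), ε x = 0) :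
    xPk i ε = ∅ := by
  ext x
  rw [mem_xPk]
  simp only [notMem_empty, iff_false, not_and]
  intro hx h1
  obtain ⟨y, hy⟩ := Finset.card_pos.1 (up_pos hx)
  have := h1 y hy
  rw [h x hx] at this
  omega

lemma yIn_eq_empty {i : ℕ} {ε : α → ℕ} (h : ∀ x ∈ lev α (i + 1), ε x = 0) :
    yIn i ε = ∅ := by
  ext y
  rw [mem_yIn]
  simp only [notMem_empty, iff_false, not_and]
  rintro _ ⟨x, hx, _, h1⟩
  rw [h x hx] at h1
  omega

lemma zPk_eq_empty {i : ℕ} {ε : α → ℕ} (h : ∀ z ∈ lev' α i, ε z = 0) :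
    zPk i ε = ∅ := by
  ext z
  rw [mem_zPk]
  simp only [notMem_empty, iff_false, not_and]
  intro hz h1
  exact absurd (h z hz) h1

lemma zIn_eq {i : ℕ} {ε : α → ℕ} (h : ∀ z ∈ lev' α i, ε z = 0) : zIn i ε = lev' α i := by
  ext z
  rw [mem_zIn]
  exact ⟨fun h1 => h1.1, fun h1 => ⟨h1, Or.inl (h z h1)⟩⟩

lemma pair_apply {a b y : α} : (d1 a + d1 b) y = d1 a y + d1 b y := rfl

/-! ### indicator functions -/

section Ind

variable {i : ℕ} {A B C : Finset α}

/-- energy one on `A ∪ B ∪ C` -/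
noncomputable def e3 (A B C : Finset α) : α → ℕ := indT (A ∪ B ∪ C)

/-- elements of level `i` outside `B` below an element of `A` -/
noncomputable def yA (i : ℕ) (A B : Finset α) : Finset α :=
  (lev α i).filter fun y => y ∉ B ∧ ∃ z ∈ A, y < z
/-- elements of level `i` outside `B` above an element of `C` -/
noncomputable def yC (i : ℕ) (C B : Finset α) : Finset α :=
  (lev α i).filter fun y => y ∉ B ∧ ∃ x ∈ C, x < y
/-- elements of `A` above an element of `B` -/
noncomputable def zB (A B : Finset α) : Finset α := A.filter fun z => ∃ y ∈ B, y < z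
/-- elements of `C` below an element of `B` -/
noncomputable def xB (C B : Finset α) : Finset α := C.filter fun x => ∃ y ∈ B, x < y

lemma mem_yA {y : α} : y ∈ yA i A B ↔ y ∈ lev α i ∧ y ∉ B ∧ ∃ z ∈ A, y < z := by simp [yA]
lemma mem_yC {y : α} : y ∈ yC i C B ↔ y ∈ lev α i ∧ y ∉ B ∧ ∃ x ∈ C, x < y := by simp [yC]
lemma mem_zB {y : α} : y ∈ zB A B ↔ y ∈ A ∧ ∃ x ∈ B, x < y := by simp [zB]
lemma mem_xB {y : α} : y ∈ xB C B ↔ y ∈ C ∧ ∃ x ∈ B, y < x := by simp [xB]

lemma e3_apply_mem {y : α} (h : y ∈ A ∪ B ∪ C) : e3 A B C y = 1 := if_pos h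
lemma e3_apply_not {y : α} (h : y ∉ A ∪ B ∪ C) : e3 A B C y = 0 := if_neg h

lemma e3_up (hB : B ⊆ lev α i) (hC : C ⊆ lev α (i + 1)) {z : α}
    (hz : z ∈ lev' α i) : e3 A B C z = if z ∈ A then 1 else 0 := by
  by_cases h : z ∈ A
  · rw [if_pos h, e3_apply_mem (by simp [h])]
  · rw [if_neg h, e3_apply_not]
    intro h1
    rw [mem_union, mem_union] at h1
    rcases h1 with (h1 | h1) | h1
    · exact h h1
    · exact ne_of_lev' hz (hB h1) rfl
    · exact ne_of_lev2 (hC h1) hz rfl

lemma e3_mid (hA : A ⊆ lev' α i) (hC : C ⊆ lev α (i + 1)) {y : α}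
    (hy : y ∈ lev α i) : e3 A B C y = if y ∈ B then 1 else 0 := by
  by_cases h : y ∈ B
  · rw [if_pos h, e3_apply_mem (by simp [h])]
  · rw [if_neg h, e3_apply_not]
    intro h1
    rw [mem_union, mem_union] at h1
    rcases h1 with (h1 | h1) | h1
    · exact ne_of_lev' (hA h1) hy rfl
    · exact h h1
    · exact ne_of_lev1 (hC h1) hy rfl

lemma e3_dn (hA : A ⊆ lev' α i) (hB : B ⊆ lev α i) {x : α}
    (hx : x ∈ lev α (i + 1)) : e3 A B C x = if x ∈ C then 1 else 0 := by
  by_cases h : x ∈ C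
  · rw [if_pos h, e3_apply_mem (by simp [h])]
  · rw [if_neg h, e3_apply_not]
    intro h1
    rw [mem_union, mem_union] at h1
    rcases h1 with (h1 | h1) | h1
    · exact ne_of_lev2 hx (hA h1) rfl
    · exact ne_of_lev1 hx (hB h1) rfl
    · exact h h1

lemma three_e3 (hA : A ⊆ lev' α i) (hB : B ⊆ lev α i) (hC : C ⊆ lev α (i + 1)) :
    Three i (e3 A B C) := by
  apply three_ind
  intro y hy
  rw [mem_union, mem_union] at hy
  rcases hy with (hy | hy) | hy
  · have := mem_lev'.1 (hA hy)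
    omega
  · have := mem_lev.1 (hB hy)
    omega
  · have := mem_lev.1 (hC hy)
    omega

lemma good_e3 (hg : Grad α) (hA : A ⊆ lev' α i) (hB : B ⊆ lev α i)
    (hC : C ⊆ lev α (i + 1)) : GoodE i (e3 A B C) ↔ Disjoint (yC i C B) (yA i A B) := by
  rw [goodE_three hg (three_e3 hA hB hC), Finset.disjoint_left]
  constructor
  · intro h y hy hy'
    rw [mem_yC] at hy
    rw [mem_yA] at hy'
    obtain ⟨h1, h2, x, hx, hxy⟩ := hy
    obtain ⟨_, _, z, hz, hyz⟩ := hy'
    refine h y h1 ⟨⟨x, hC hx, hxy, ?_⟩, z, hA hz, hyz, ?_⟩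
    · rw [e3_mid hA hC h1, e3_dn hA hB (hC hx), if_neg h2, if_pos hx]
      omega
    · rw [e3_mid hA hC h1, e3_up hB hC (hA hz), if_neg h2, if_pos hz]
      omega
  · rintro h y hy ⟨⟨x, hx, hxy, h1⟩, z, hz, hyz, h2⟩
    rw [e3_mid hA hC hy, e3_dn hA hB hx] at h1
    rw [e3_mid hA hC hy, e3_up hB hC hz] at h2
    have hyB : y ∉ B := by
      intro h3
      rw [if_pos h3] at h1
      split_ifs at h1 <;> omega
    have hxC : x ∈ C := by
      by_contra h3
      rw [if_neg h3] at h1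
      omega
    have hzA : z ∈ A := by
      by_contra h3
      rw [if_neg h3] at h2
      omega
    exact h (mem_yC.2 ⟨hy, hyB, x, hxC, hxy⟩) (mem_yA.2 ⟨hy, hyB, z, hzA, hyz⟩)

lemma zIn_e3 (hA : A ⊆ lev' α i) (hB : B ⊆ lev α i) (hC : C ⊆ lev α (i + 1)) :
    (zIn i (e3 A B C)).card + A.card = (lev' α i).card + (zB A B).card := by
  have e : zIn i (e3 A B C) = (lev' α i \ A) ∪ zB A B := by
    ext z
    rw [mem_zIn, mem_union, mem_sdiff, mem_zB]
    constructor
    · rintro ⟨hz, h⟩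
      rw [e3_up hB hC hz] at h
      by_cases hzA : z ∈ A
      · right
        rw [if_pos hzA] at h
        rcases h with h | ⟨y, hy, h⟩
        · omega
        · rw [e3_mid hA hC (dn_lev hy)] at h
          have : y ∈ B := by
            by_contra h3
            rw [if_neg h3] at h
            omega
          exact ⟨hzA, y, this, (mem_dn.1 hy).2⟩
      · exact Or.inl ⟨hz, hzA⟩
    · rintro (⟨hz, hzA⟩ | ⟨hzA, y, hy, hyz⟩)
      · refine ⟨hz, Or.inl ?_⟩
        rw [e3_up hB hC hz, if_neg hzA]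
      · refine ⟨hA hzA, Or.inr ⟨y, mem_dn'.2 ⟨hB hy, hyz⟩, ?_⟩⟩
        rw [e3_up hB hC (hA hzA), e3_mid hA hC (hB hy), if_pos hzA, if_pos hy]
  rw [e, card_union_of_disjoint, card_sdiff_of_subset hA]
  · have := card_le_card hA
    omega
  · rw [Finset.disjoint_left]
    intro z hz hz'
    exact (mem_sdiff.1 hz).2 (mem_zB.1 hz').1

lemma yIn_e3 (hA : A ⊆ lev' α i) (hB : B ⊆ lev α i) (hC : C ⊆ lev α (i + 1)) :
    yIn i (e3 A B C) = yC i C B := by
  ext y
  rw [mem_yIn, mem_yC]
  refine and_congr_right fun hy => ?_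
  constructor
  · rintro ⟨x, hx, hxy, h⟩
    rw [e3_mid hA hC hy, e3_dn hA hB hx] at h
    have hyB : y ∉ B := by
      intro h3
      rw [if_pos h3] at h
      split_ifs at h <;> omega
    have hxC : x ∈ C := by
      by_contra h3
      rw [if_neg h3] at h
      omega
    exact ⟨hyB, x, hxC, hxy⟩
  · rintro ⟨hyB, x, hx, hxy⟩
    refine ⟨x, hC hx, hxy, ?_⟩
    rw [e3_mid hA hC hy, e3_dn hA hB (hC hx), if_neg hyB, if_pos hx]
    omega

lemma zPk_e3 (hA : A ⊆ lev' α i) (hB : B ⊆ lev α i) (hC : C ⊆ lev α (i + 1)) :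
    (zPk i (e3 A B C)).card + (zB A B).card = A.card := by
  have e : zPk i (e3 A B C) = A \ zB A B := by
    ext z
    rw [mem_zPk, mem_sdiff, mem_zB]
    constructor
    · rintro ⟨hz, h, h'⟩
      rw [e3_up hB hC hz] at h
      have hzA : z ∈ A := by
        by_contra h3
        rw [if_neg h3] at h
        exact h rfl
      refine ⟨hzA, ?_⟩
      rintro ⟨_, y, hy, hyz⟩
      have := h' y (mem_dn'.2 ⟨hB hy, hyz⟩)
      rw [e3_up hB hC hz, e3_mid hA hC (hB hy), if_pos hzA, if_pos hy] at this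
      omega
    · rintro ⟨hzA, h⟩
      refine ⟨hA hzA, ?_, fun y hy => ?_⟩
      · rw [e3_up hB hC (hA hzA), if_pos hzA]
        omega
      · rw [e3_up hB hC (hA hzA), e3_mid hA hC (dn_lev hy), if_pos hzA, if_neg]
        · omega
        · intro hyB
          exact h ⟨hzA, y, hyB, (mem_dn.1 hy).2⟩
  have h1 : zB A B ⊆ A := filter_subset _ _
  rw [e, card_sdiff_of_subset h1]
  have := card_le_card h1
  omega

lemma xPk_e3 (hA : A ⊆ lev' α i) (hB : B ⊆ lev α i) (hC : C ⊆ lev α (i + 1)) :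
    (xPk i (e3 A B C)).card + (xB C B).card = C.card := by
  have e : xPk i (e3 A B C) = C \ xB C B := by
    ext x
    rw [mem_xPk, mem_sdiff, mem_xB]
    constructor
    · rintro ⟨hx, h'⟩
      have hxC : x ∈ C := by
        by_contra h3
        obtain ⟨y, hy⟩ := Finset.card_pos.1 (up_pos hx)
        have := h' y hy
        rw [e3_dn hA hB hx, if_neg h3] at this
        omega
      refine ⟨hxC, ?_⟩
      rintro ⟨_, y, hy, hxy⟩
      have := h' y (mem_up'.2 ⟨hB hy, hxy⟩)
      rw [e3_dn hA hB hx, e3_mid hA hC (hB hy), if_pos hxC, if_pos hy] at this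
      omega
    · rintro ⟨hxC, h⟩
      refine ⟨hC hxC, fun y hy => ?_⟩
      rw [e3_dn hA hB (hC hxC), e3_mid hA hC (up_lev hy), if_pos hxC, if_neg]
      · omega
      · intro hyB
        exact h ⟨hxC, y, hyB, (mem_up.1 hy).2⟩
  have h1 : xB C B ⊆ C := filter_subset _ _
  rw [e, card_sdiff_of_subset h1]
  have := card_le_card h1
  omega

lemma yPk_e3 (hA : A ⊆ lev' α i) (hB : B ⊆ lev α i) (hC : C ⊆ lev α (i + 1)) :
    yPk i (e3 A B C) = lev α i \ (yC i C B ∪ yA i A B) := by
  ext y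
  rw [mem_yPk, mem_sdiff, mem_union, mem_yC, mem_yA]
  refine and_congr_right fun hy => ?_
  constructor
  · rintro ⟨h1, h2⟩ (⟨_, h3, x, hx, hxy⟩ | ⟨_, h3, z, hz, hyz⟩)
    · have := h1 x (hC hx) hxy
      rw [e3_mid hA hC hy, e3_dn hA hB (hC hx), if_neg h3, if_pos hx] at this
      omega
    · have := h2 z (hA hz) hyz
      rw [e3_mid hA hC hy, e3_up hB hC (hA hz), if_neg h3, if_pos hz] at this
      omega
  · intro h
    push Not at h
    refine ⟨fun x hx hxy => ?_, fun z hz hyz => ?_⟩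
    · rw [e3_mid hA hC hy, e3_dn hA hB hx]
      by_cases hyB : y ∈ B
      · rw [if_pos hyB]
        split_ifs <;> omega
      · rw [if_neg (fun hxC => h.1 hy hyB x hxC hxy)]
        omega
    · rw [e3_mid hA hC hy, e3_up hB hC hz]
      by_cases hyB : y ∈ B
      · rw [if_pos hyB]
        split_ifs <;> omega
      · rw [if_neg (fun hzA => h.2 hy hyB z hzA hyz)]
        omega

/-- **weight of an indicator function** -/
theorem tm_e3 (hg : Grad α) (hA : A ⊆ lev' α i) (hB : B ⊆ lev α i)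
    (hC : C ⊆ lev α (i + 1)) : tm i (e3 A B C) =
    if Disjoint (yC i C B) (yA i A B) then
      (Polynomial.X - 1) ^ ((low α i).card - A.card + (zB A B).card + (yC i C B).card) *
      Polynomial.X ^ ((A.card - (zB A B).card) + ((lev α i).card - (yC i C B).card -
        (yA i A B).card) + (C.card - (xB C B).card))
    else 0 := by
  by_cases h : Disjoint (yC i C B) (yA i A B)
  · rw [if_pos h]
    apply tm_of hg (three_e3 hA hB hC) ((good_e3 hg hA hB hC).2 h)
    · have h1 := zIn_e3 hA hB hC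
      have h2 := card_le_card hA
      rw [yIn_e3 hA hB hC, card_low']
      omega
    · have h1 := zPk_e3 hA hB hC
      have h2 := xPk_e3 hA hB hC
      rw [yPk_e3 hA hB hC, card_sdiff_of_subset, card_union_of_disjoint h]
      · omega
      · apply union_subset
        · intro y hy
          exact (mem_yC.1 hy).1
        · intro y hy
          exact (mem_yA.1 hy).1
  · rw [if_neg h, tm, if_neg]
    rw [good_e3 hg hA hB hC]
    exact h

end Ind

end Pool.Gauss
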