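import Pool.Agent.Gauss35.Pairs

/-!
# Weights of the energy functions of total energy two, by type
-/

set_option autoImplicit false
open scoped Classical
open Finset

namespace Pool.Gauss

variable {α : Type} [Fintype α] [PartialOrder α]

lemma pair_eq_ind {a b : α} (h : a ≠ b) : d1 a + d1 b = indT {a, b} := by
  funext y
  rw [pair_apply, indT]
  by_cases h1 : y = a
  · subst h1
    rw [d1_self, d1_ne h, if_pos (mem_insert_self _ _)]
  · by_cases h2 : y = b
    · subst h2
      rw [d1_self, d1_ne h1, if_pos (by simp)]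
    · rw [d1_ne h1, d1_ne h2, if_neg]
      simp [h1, h2]

lemma yA_empty (i : ℕ) (B : Finset α) : yA i ∅ B = ∅ := by
  ext y
  rw [mem_yA]
  simp
lemma yC_empty (i : ℕ) (B : Finset α) : yC i ∅ B = ∅ := by
  ext y
  rw [mem_yC]
  simp
lemma zB_empty (A : Finset α) : zB A ∅ = ∅ := by
  ext y
  rw [mem_zB]
  simp
lemma xB_empty (A : Finset α) : xB A ∅ = ∅ := by
  ext y
  rw [mem_xB]
  simp
lemma empty_zB (A : Finset α) : zB ∅ A = ∅ := by
  ext y
  rw [mem_zB]
  simp
lemma empty_xB (A : Finset α) : xB ∅ A = ∅ := by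
  ext y
  rw [mem_xB]
  simp

variable {i : ℕ}

lemma yA_single (a : α) : yA i {a} ∅ = dn i a := by
  ext y
  rw [mem_yA, mem_dn']
  simp
lemma yA_pair (a b : α) : yA i {a, b} ∅ = dn i a ∪ dn i b := by
  ext y
  rw [mem_yA, mem_union, mem_dn', mem_dn']
  simp
  tauto
lemma yC_single (a : α) : yC i {a} ∅ = up i a := by
  ext y
  rw [mem_yC, mem_up']
  simp
lemma yC_pair (a b : α) : yC i {a, b} ∅ = up i a ∪ up i b := by
  ext y
  rw [mem_yC, mem_union, mem_up', mem_up']
  simp
  tauto
lemma yA_single' (a b : α) : yA i {a} {b} = (dn i a).erase b := by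
  ext y
  rw [mem_yA, mem_erase, mem_dn']
  simp
  tauto
lemma yC_single' (a b : α) : yC i {a} {b} = (up i a).erase b := by
  ext y
  rw [mem_yC, mem_erase, mem_up']
  simp
  tauto

lemma sub_single {s : Finset α} {a : α} (ha : a ∈ s) : {a} ⊆ s := by simpa using ha
lemma sub_pair {s : Finset α} {a b : α} (ha : a ∈ s) (hb : b ∈ s) : {a, b} ⊆ s := by
  intro y hy
  rw [mem_insert, mem_singleton] at hy
  rcases hy with rfl | rfl
  · exact ha
  · exact hb

open Polynomial

lemma tm_zz (hg : Grad α) {a b : α} (ha : a ∈ lev' α i) (hb : b ∈ lev' α i)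
    (hab : a ≠ b) : tm i (d1 a + d1 b) =
    (X - 1) ^ ((low α i).card - 2) * X ^ ((lev α i).card - (dn i a ∪ dn i b).card + 2) := by
  have e : d1 a + d1 b = e3 {a, b} ∅ ∅ := by
    rw [pair_eq_ind hab, e3]
    simp
  rw [e, tm_e3 hg (sub_pair ha hb) (empty_subset _) (empty_subset _), yC_empty, yA_pair, zB_empty,
    empty_xB, if_pos (disjoint_empty_left _), card_pair hab]
  simp only [card_empty, add_zero, Nat.sub_zero, Nat.sub_self]
  congr 2
  omega

lemma tm_xx (hg : Grad α) {a b : α} (ha : a ∈ lev α (i + 1)) (hb : b ∈ lev α (i + 1))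
    (hab : a ≠ b) : tm i (d1 a + d1 b) =
    (X - 1) ^ ((low α i).card + (up i a ∪ up i b).card) *
      X ^ ((lev α i).card - (up i a ∪ up i b).card + 2) := by
  have e : d1 a + d1 b = e3 ∅ ∅ {a, b} := by
    rw [pair_eq_ind hab, e3]
    simp
  rw [e, tm_e3 hg (empty_subset _) (empty_subset _) (sub_pair ha hb), yC_pair, yA_empty, empty_zB,
    xB_empty, if_pos (disjoint_empty_right _), card_pair hab]
  simp only [card_empty, add_zero, Nat.sub_zero, Nat.sub_self, zero_add]

lemma tm_zx (hg : Grad α) {a b : α} (ha : a ∈ lev' α i) (hb : b ∈ lev α (i + 1)) :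
    tm i (d1 a + d1 b) = if Disjoint (up i b) (dn i a) then
    (X - 1) ^ ((low α i).card - 1 + (up i b).card) *
      X ^ ((lev α i).card - (up i b).card - (dn i a).card + 2) else 0 := by
  have e : d1 a + d1 b = e3 {a} ∅ {b} := by
    rw [pair_eq_ind (ne_of_lev2 hb ha), e3]
    congr 1
  rw [e, tm_e3 hg (sub_single ha) (empty_subset _) (sub_single hb), yC_single, yA_single, zB_empty,
    xB_empty]
  simp only [card_empty, add_zero, Nat.sub_zero, card_singleton]
  by_cases h : Disjoint (up i b) (dn i a)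
  · rw [if_pos h, if_pos h]
    congr 2
    omega
  · rw [if_neg h, if_neg h]

lemma tm_zy (hg : Grad α) {a b : α} (ha : a ∈ lev' α i) (hb : b ∈ lev α i) (h : b < a) :
    tm i (d1 a + d1 b) = (X - 1) ^ (low α i).card *
      X ^ ((lev α i).card - ((dn i a).card - 1)) := by
  have e : d1 a + d1 b = e3 {a} {b} ∅ := by
    rw [pair_eq_ind (ne_of_lev' ha hb).symm, e3]
    congr 1
    ext z
    simp
  have e1 : zB {a} {b} = {a} := by
    ext z
    rw [mem_zB]
    simp only [mem_singleton, exists_eq_left]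
    constructor
    · rintro ⟨h1, _⟩
      exact h1
    · rintro rfl
      exact ⟨rfl, h⟩
  have h1 : 0 < (lev' α i).card := Finset.card_pos.2 ⟨a, ha⟩
  rw [e, tm_e3 hg (sub_single ha) (sub_single hb) (empty_subset _), yC_empty, yA_single', e1,
    empty_xB, if_pos (disjoint_empty_left _), card_singleton, card_erase_of_mem
    (mem_dn'.2 ⟨hb, h⟩), card_low']
  simp only [card_empty, add_zero, Nat.sub_zero, Nat.sub_self, zero_add]
  congr 2
  omega

lemma tm_zy' (hg : Grad α) {a b : α} (ha : a ∈ lev' α i) (hb : b ∈ lev α i) (h : ¬ b < a) :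
    tm i (d1 a + d1 b) = (X - 1) ^ ((low α i).card - 1) *
      X ^ ((lev α i).card - (dn i a).card + 1) := by
  have e : d1 a + d1 b = e3 {a} {b} ∅ := by
    rw [pair_eq_ind (ne_of_lev' ha hb).symm, e3]
    congr 1
    ext z
    simp
  have e1 : zB {a} {b} = ∅ := by
    ext z
    rw [mem_zB]
    simp only [mem_singleton, exists_eq_left, notMem_empty, iff_false]
    rintro ⟨rfl, h1⟩
    exact h h1
  have e2 : (dn i a).erase b = dn i a := erase_eq_of_notMem (fun h1 => h (mem_dn'.1 h1).2)
  rw [e, tm_e3 hg (sub_single ha) (sub_single hb) (empty_subset _), yC_empty, yA_single', e1, e2,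
    empty_xB, if_pos (disjoint_empty_left _), card_singleton]
  simp only [card_empty, add_zero, Nat.sub_zero, Nat.sub_self]
  congr 2
  omega

lemma tm_xy (hg : Grad α) {a b : α} (ha : a ∈ lev α (i + 1)) (hb : b ∈ lev α i) (h : a < b) :
    tm i (d1 a + d1 b) = (X - 1) ^ ((low α i).card + ((up i a).card - 1)) *
      X ^ ((lev α i).card - ((up i a).card - 1)) := by
  have e : d1 a + d1 b = e3 ∅ {b} {a} := by
    rw [pair_eq_ind (ne_of_lev1 ha hb).symm, e3]
    congr 1
    ext z
    simp
    tauto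
  have e1 : xB {a} {b} = {a} := by
    ext z
    rw [mem_xB]
    simp only [mem_singleton, exists_eq_left]
    constructor
    · rintro ⟨h1, _⟩
      exact h1
    · rintro rfl
      exact ⟨rfl, h⟩
  rw [e, tm_e3 hg (empty_subset _) (sub_single hb) (sub_single ha), yA_empty, yC_single', e1,
    empty_zB, if_pos (disjoint_empty_right _), card_singleton, card_erase_of_mem
    (mem_up'.2 ⟨hb, h⟩)]
  simp only [card_empty, add_zero, Nat.sub_zero, Nat.sub_self, zero_add]

lemma tm_xy' (hg : Grad α) {a b : α} (ha : a ∈ lev α (i + 1)) (hb : b ∈ lev α i)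
    (h : ¬ a < b) :
    tm i (d1 a + d1 b) = (X - 1) ^ ((low α i).card + (up i a).card) *
      X ^ ((lev α i).card - (up i a).card + 1) := by
  have e : d1 a + d1 b = e3 ∅ {b} {a} := by
    rw [pair_eq_ind (ne_of_lev1 ha hb).symm, e3]
    congr 1
    ext z
    simp
    tauto
  have e1 : xB {a} {b} = ∅ := by
    ext z
    rw [mem_xB]
    simp only [mem_singleton, exists_eq_left, notMem_empty, iff_false]
    rintro ⟨rfl, h1⟩
    exact h h1
  have e2 : (up i a).erase b = up i a := erase_eq_of_notMem (fun h1 => h (mem_up'.1 h1).2)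
  rw [e, tm_e3 hg (empty_subset _) (sub_single hb) (sub_single ha), yA_empty, yC_single', e1, e2,
    empty_zB, if_pos (disjoint_empty_right _), card_singleton]
  simp only [card_empty, add_zero, Nat.sub_zero, Nat.sub_self, zero_add]

lemma tm_yy (hg : Grad α) {a b : α} (ha : a ∈ lev α i) (hb : b ∈ lev α i) (hab : a ≠ b) :
    tm i (d1 a + d1 b) = (X - 1) ^ (low α i).card * X ^ (lev α i).card := by
  have e : d1 a + d1 b = e3 ∅ {a, b} ∅ := by
    rw [pair_eq_ind hab, e3]
    simp
  rw [e, tm_e3 hg (empty_subset _) (sub_pair ha hb) (empty_subset _), yA_empty, yC_empty,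
    empty_zB, empty_xB, if_pos (disjoint_empty_right _)]
  simp only [card_empty, add_zero, Nat.sub_zero, Nat.sub_self, zero_add]

/-! ### energy two at one element -/

/-- energy `k` at `a` -/
noncomputable def dk (k : ℕ) (a : α) : α → ℕ := fun y => if y = a then k else 0

lemma dk_self (k : ℕ) (a : α) : dk k a a = k := if_pos rfl
lemma dk_ne {k : ℕ} {a y : α} (h : y ≠ a) : dk k a y = 0 := if_neg h

lemma three_dk {k : ℕ} {a : α} (ha : i ≤ corank a + 1 ∧ corank a ≤ i + 1) :
    Three i (dk k a) := by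
  intro y hy
  by_cases h : y = a
  · rw [h]
    exact ha
  · exact absurd (dk_ne h) hy

lemma tm_2z (hg : Grad α) {k : ℕ} (hk : k ≠ 0) {a : α} (ha : a ∈ lev' α i) :
    tm i (dk k a) = (X - 1) ^ ((low α i).card - 1) *
      X ^ ((lev α i).card - (dn i a).card + 1) := by
  have ha' := mem_lev'.1 ha
  have h3 : Three i (dk k a) := three_dk (by omega)
  have hx0 : ∀ x ∈ lev α (i + 1), dk k a x = 0 := fun x hx => dk_ne (ne_of_lev2 hx ha).symm
  have hy0 : ∀ y ∈ lev α i, dk k a y = 0 := fun y hy => dk_ne (ne_of_lev' ha hy)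
  have e1 : zIn i (dk k a) = (lev' α i).erase a := by
    ext z
    rw [mem_zIn, mem_erase, and_comm (a := z ≠ a)]
    refine and_congr_right fun hz => ?_
    constructor
    · rintro (h | ⟨y, hy, h⟩) rfl
      · rw [dk_self] at h
        exact hk h
      · rw [hy0 y (dn_lev hy), dk_self] at h
        omega
    · intro h
      exact Or.inl (dk_ne h)
  have e2 : zPk i (dk k a) = {a} := by
    ext z
    rw [mem_zPk, mem_singleton]
    constructor
    · rintro ⟨_, h, _⟩
      by_contra h1
      exact h (dk_ne h1)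
    · rintro rfl
      refine ⟨ha, ?_, fun y hy => ?_⟩
      · rw [dk_self]
        exact hk
      · rw [hy0 y (dn_lev hy), dk_self]
        omega
  have e3 : yPk i (dk k a) = lev α i \ dn i a := by
    ext y
    rw [mem_yPk, mem_sdiff, mem_dn']
    refine and_congr_right fun hy => ?_
    constructor
    · rintro ⟨_, h⟩ ⟨_, h1⟩
      have := h a ha h1
      rw [hy0 y hy, dk_self] at this
      omega
    · intro h
      push Not at h
      refine ⟨fun x hx _ => by rw [hx0 x hx]; omega, fun z hz hyz => ?_⟩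
      rw [dk_ne (fun e => h hy (by rw [← e]; exact hyz))]
      omega
  have h1 : 0 < (lev' α i).card := Finset.card_pos.2 ⟨a, ha⟩
  refine tm_of hg h3 (good_of_yIn hg h3 (yIn_eq_empty hx0)) ?_ ?_
  · rw [e1, yIn_eq_empty hx0, card_empty, card_low', card_erase_of_mem ha]
    omega
  · rw [e2, e3, xPk_eq_empty hx0, card_singleton, card_empty, card_sdiff_of_subset (dn_subset i a)]
    omega

lemma tm_2x (hg : Grad α) {k : ℕ} (hk : k ≠ 0) {a : α} (ha : a ∈ lev α (i + 1)) :
    tm i (dk k a) = (X - 1) ^ ((low α i).card + (up i a).card) *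
      X ^ ((lev α i).card - (up i a).card + 1) := by
  have ha' := mem_lev.1 ha
  have h3 : Three i (dk k a) := three_dk (by omega)
  have hz0 : ∀ z ∈ lev' α i, dk k a z = 0 := fun z hz => dk_ne (ne_of_lev2 ha hz)
  have hy0 : ∀ y ∈ lev α i, dk k a y = 0 := fun y hy => dk_ne (ne_of_lev1 ha hy)
  have e1 : yIn i (dk k a) = up i a := by
    ext y
    rw [mem_yIn, mem_up']
    refine and_congr_right fun hy => ?_
    constructor
    · rintro ⟨x, hx, hxy, h⟩
      rw [hy0 y hy] at h
      have : x = a := by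
        by_contra h1
        rw [dk_ne h1] at h
        omega
      rw [← this]
      exact hxy
    · intro h
      refine ⟨a, ha, h, ?_⟩
      rw [hy0 y hy, dk_self]
      omega
  have e2 : xPk i (dk k a) = {a} := by
    ext x
    rw [mem_xPk, mem_singleton]
    constructor
    · rintro ⟨hx, h⟩
      by_contra h1
      obtain ⟨y, hy⟩ := Finset.card_pos.1 (up_pos hx)
      have := h y hy
      rw [dk_ne h1] at this
      omega
    · rintro rfl
      refine ⟨ha, fun y hy => ?_⟩
      rw [hy0 y (up_lev hy), dk_self]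
      omega
  have e3 : yPk i (dk k a) = lev α i \ up i a := by
    ext y
    rw [mem_yPk, mem_sdiff, mem_up']
    refine and_congr_right fun hy => ?_
    constructor
    · rintro ⟨h, _⟩ ⟨_, h1⟩
      have := h a ha h1
      rw [hy0 y hy, dk_self] at this
      omega
    · intro h
      push Not at h
      refine ⟨fun x hx hxy => ?_, fun z hz _ => by rw [hz0 z hz]; omega⟩
      rw [dk_ne (fun e => h hy (by rw [← e]; exact hxy))]
      omega
  have hgood : GoodE i (dk k a) := by
    rw [goodE_three hg h3]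
    rintro y hy ⟨_, z, hz, _, h⟩
    rw [hz0 z hz] at h
    omega
  refine tm_of hg h3 hgood ?_ ?_
  · rw [e1, zIn_eq hz0, card_low']
  · rw [e2, e3, zPk_eq_empty hz0, card_singleton, card_empty,
      card_sdiff_of_subset (up_subset i a)]
    omega

lemma tm_2y (hg : Grad α) {k : ℕ} (hk : k ≠ 0) {a : α} (ha : a ∈ lev α i) :
    tm i (dk k a) = (X - 1) ^ (low α i).card * X ^ (lev α i).card := by
  have ha' := mem_lev.1 ha
  have h3 : Three i (dk k a) := three_dk (by omega)
  have hx0 : ∀ x ∈ lev α (i + 1), dk k a x = 0 := fun x hx => dk_ne (ne_of_lev1 hx ha).symm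
  have hz0 : ∀ z ∈ lev' α i, dk k a z = 0 := fun z hz => dk_ne (ne_of_lev' hz ha).symm
  have e3 : yPk i (dk k a) = lev α i := by
    ext y
    rw [mem_yPk]
    constructor
    · exact fun h => h.1
    · intro hy
      exact ⟨hy, fun x hx _ => by rw [hx0 x hx]; omega, fun z hz _ => by rw [hz0 z hz]; omega⟩
  refine tm_of hg h3 (good_of_yIn hg h3 (yIn_eq_empty hx0)) ?_ ?_
  · rw [yIn_eq_empty hx0, zIn_eq hz0, card_empty, card_low']
    omega
  · rw [zPk_eq_empty hz0, e3, xPk_eq_empty hx0, card_empty]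
    omega

end Pool.Gauss
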