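import Pool.Agent.Gauss35.Pairs2

/-!
# Weights of the energy functions of total energy two: deep elements
-/

set_option autoImplicit false
open scoped Classical
open Finset

namespace Pool.Gauss

variable {α : Type} [Fintype α] [PartialOrder α] {i : ℕ}

/-- `a` two levels above level `i`, `b` its unique lower cover -/
def VZ (i : ℕ) (a b : α) : Prop := b ⋖ a ∧ (∀ z, z ⋖ a → z = b) ∧ b ∈ lev' α i

/-- `a` two levels below level `i`, `b` its unique upper cover -/
def TX (i : ℕ) (a b : α) : Prop := a ⋖ b ∧ (∀ z, a ⋖ z → z = b) ∧ b ∈ lev α (i + 1)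

lemma mem_dn_iff (hg : Grad α) {z y : α} (hz : z ∈ lev' α i) : y ∈ dn i z ↔ y ⋖ z := by
  rw [mem_dn]
  constructor
  · rintro ⟨h1, h2⟩
    have := mem_lev'.1 hz
    exact covBy_of_corank h2 (by omega)
  · intro h
    have h1 := hg y z h
    have := mem_lev'.1 hz
    exact ⟨by omega, h.lt⟩

lemma mem_up_iff (hg : Grad α) {x y : α} (hx : x ∈ lev α (i + 1)) : y ∈ up i x ↔ x ⋖ y := by
  rw [mem_up]
  constructor
  · rintro ⟨h1, h2⟩
    have := mem_lev.1 hx
    exact covBy_of_corank h2 (by omega)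
  · intro h
    have h1 := hg x y h
    have := mem_lev.1 hx
    exact ⟨by omega, h.lt⟩

lemma vz_of_good (hg : Grad α) (hD : ∀ z : α, corank z < i → ∃ y, y ⋖ z) {a b : α}
    (ha : corank a + 2 ≤ i) (hab : a ≠ b) (h : GoodE i (d1 a + d1 b)) : VZ i a b := by
  have key : ∀ z, z ⋖ a → z = b := by
    intro z hz
    by_contra hzb
    have h1 := hg z a hz
    have hza : z ≠ a := hz.lt.ne
    have e1 : (d1 a + d1 b) z = 0 := by rw [pair_apply, d1_ne hza, d1_ne hzb]
    refine h z ⟨Or.inl ⟨by omega, Or.inl (by omega)⟩, Or.inl ⟨by omega, a, hz, ?_⟩⟩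
    rw [e1, pair_apply, d1_self]
    omega
  obtain ⟨y, hy⟩ := hD a (by omega)
  have hyb := key y hy
  subst hyb
  have h1 := hg y a hy
  refine ⟨hy, key, ?_⟩
  rw [mem_lev']
  by_contra h2
  have h3 : corank y + 1 < i := by omega
  obtain ⟨x, hx⟩ := hD y (by omega)
  have h4 := hg x y hx
  have hxa : x ≠ a := by
    rintro rfl
    exact absurd (hx.lt.trans hy.lt) (lt_irrefl _)
  have e1 : (d1 a + d1 y) x = 0 := by rw [pair_apply, d1_ne hxa, d1_ne hx.lt.ne]
  refine h x ⟨Or.inl ⟨by omega, Or.inl (by omega)⟩, Or.inl ⟨by omega, y, hx, ?_⟩⟩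
  rw [e1, pair_apply, d1_self]
  omega

lemma tx_of_good (hg : Grad α) {a b : α}
    (ha : i + 2 ≤ corank a) (hab : a ≠ b) (h : GoodE i (d1 a + d1 b)) : TX i a b := by
  have key : ∀ z, a ⋖ z → z = b := by
    intro z hz
    by_contra hzb
    have h1 := hg a z hz
    have hza : z ≠ a := hz.lt.ne'
    have e1 : (d1 a + d1 b) z = 0 := by rw [pair_apply, d1_ne hza, d1_ne hzb]
    obtain ⟨u, hu⟩ := exists_covBy_up (x := z) (by omega)
    refine h z ⟨Or.inr ⟨by omega, a, hz, ?_⟩, Or.inr ⟨by omega, u, hu, by omega⟩⟩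
    rw [e1, pair_apply, d1_self]
    omega
  obtain ⟨y, hy⟩ := exists_covBy_up (x := a) (by omega)
  have hyb := key y hy
  subst hyb
  have h1 := hg a y hy
  refine ⟨hy, key, ?_⟩
  rw [mem_lev]
  by_contra h2
  have h3 : i + 2 ≤ corank y := by omega
  obtain ⟨x, hx⟩ := exists_covBy_up (x := y) (by omega)
  have h4 := hg y x hx
  obtain ⟨u, hu⟩ := exists_covBy_up (x := x) (by omega)
  have hxa : x ≠ a := by
    rintro rfl
    exact absurd (hx.lt.trans hy.lt) (lt_irrefl _)
  have e1 : (d1 a + d1 y) x = 0 := by rw [pair_apply, d1_ne hxa, d1_ne hx.lt.ne']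
  refine h x ⟨Or.inr ⟨by omega, y, hx, ?_⟩, Or.inr ⟨by omega, u, hu, by omega⟩⟩
  rw [e1, pair_apply, d1_self]
  omega

lemma not_good_2v (hg : Grad α) (hD : ∀ z : α, corank z < i → ∃ y, y ⋖ z) {k : ℕ} (hk : k ≠ 0)
    {a : α} (ha : corank a + 2 ≤ i) : ¬ GoodE i (dk k a) := by
  intro h
  obtain ⟨z, hz⟩ := hD a (by omega)
  have h1 := hg z a hz
  have e1 : dk k a z = 0 := dk_ne hz.lt.ne
  refine h z ⟨Or.inl ⟨by omega, Or.inl (by omega)⟩, Or.inl ⟨by omega, a, hz, ?_⟩⟩
  rw [e1, dk_self]
  omega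

lemma not_good_2t (hg : Grad α) {k : ℕ} (hk : k ≠ 0)
    {a : α} (ha : i + 2 ≤ corank a) : ¬ GoodE i (dk k a) := by
  intro h
  obtain ⟨z, hz⟩ := exists_covBy_up (x := a) (by omega)
  have h1 := hg a z hz
  have e1 : dk k a z = 0 := dk_ne hz.lt.ne'
  obtain ⟨u, hu⟩ := exists_covBy_up (x := z) (by omega)
  refine h z ⟨Or.inr ⟨by omega, a, hz, ?_⟩, Or.inr ⟨by omega, u, hu, by omega⟩⟩
  rw [e1, dk_self]
  omega

open Polynomial

lemma tm_vz (hg : Grad α) {a b : α} (h : VZ i a b) :
    tm i (d1 a + d1 b) = (X - 1) ^ ((low α i).card - 1) *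
      X ^ ((lev α i).card - (dn i b).card + 1) := by
  obtain ⟨hba, huniq, hb⟩ := h
  have hb' := mem_lev'.1 hb
  have hca := hg b a hba
  have hne : b ≠ a := hba.lt.ne
  have ea : (d1 a + d1 b) a = 1 := by rw [pair_apply, d1_self, d1_ne hne.symm]
  have eb : (d1 a + d1 b) b = 1 := by rw [pair_apply, d1_self, d1_ne hne]
  have e0 : ∀ y, y ≠ a → y ≠ b → (d1 a + d1 b) y = 0 := fun y h1 h2 => by
    rw [pair_apply, d1_ne h1, d1_ne h2]
  have hin : ∀ y, inE i (d1 a + d1 b) y ↔ corank y < i ∧ y ≠ b := by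
    intro y
    constructor
    · rintro (⟨h1, h2⟩ | ⟨h1, x, hx, h2⟩)
      · refine ⟨h1, ?_⟩
        rintro rfl
        rcases h2 with h2 | ⟨x, hx, h2⟩
        · rw [eb] at h2
          omega
        · have hxa : x ≠ a := fun e => lt_asymm (e ▸ hx.lt) hba.lt
          rw [eb, e0 x hxa hx.lt.ne] at h2
          omega
      · have h3 := hg x y hx
        rw [e0 x (fun e => by rw [e] at h3; omega) (fun e => by rw [e] at h3; omega)] at h2
        omega
    · rintro ⟨h1, h2⟩
      refine Or.inl ⟨h1, Or.inl ?_⟩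
      by_cases h3 : y = a
      · rw [h3, ea]
        omega
      · rw [e0 y h3 h2]
        omega
  have hout : ∀ y, outE i (d1 a + d1 b) y ↔ (y ∈ dn i b ∨ i < corank y) := by
    intro y
    rw [mem_dn_iff hg hb]
    constructor
    · rintro (⟨h1, z, hz, h2⟩ | ⟨h1, _⟩)
      · by_cases hza : z = a
        · subst hza
          have := huniq y hz
          rw [this, eb, ea] at h2
          omega
        · by_cases hzb : z = b
          · rw [hzb] at hz
            exact Or.inl hz
          · rw [e0 z hza hzb] at h2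
            omega
      · exact Or.inr h1
    · rintro (h1 | h1)
      · have h2 := hg y b h1
        refine Or.inl ⟨by omega, b, h1, ?_⟩
        have hya : y ≠ a := fun e => lt_asymm (e ▸ h1.lt) hba.lt
        rw [eb, e0 y hya h1.lt.ne]
        omega
      · obtain ⟨z, hz⟩ := exists_covBy_up (x := y) (by omega)
        refine Or.inr ⟨h1, z, hz, ?_⟩
        rw [e0 y (fun e => by rw [e] at h1; omega) (fun e => by rw [e] at h1; omega)]
        omega
  have hgood : GoodE i (d1 a + d1 b) := by
    rintro y ⟨h1, h2⟩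
    rw [hin] at h1
    rw [hout, mem_dn] at h2
    rcases h2 with h2 | h2 <;> omega
  have e1 : inF i (d1 a + d1 b) = (low α i).erase b := by
    ext y
    rw [inF, mem_filter, hin, mem_erase, mem_low]
    simp
    tauto
  have e2 : pkF i (d1 a + d1 b) = insert b (lev α i \ dn i b) := by
    ext y
    rw [pkF, mem_filter, hin, hout, mem_insert, mem_sdiff, mem_lev]
    constructor
    · rintro ⟨_, h1, h2⟩
      push Not at h1 h2
      by_cases h3 : y = b
      · exact Or.inl h3
      · have : ¬ corank y < i := fun h4 => h3 (h1 h4)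
        exact Or.inr ⟨by omega, h2.1⟩
    · rintro (rfl | ⟨h1, h2⟩)
      · refine ⟨mem_univ _, fun h1 => h1.2 rfl, ?_⟩
        push Not
        refine ⟨fun h1 => ?_, by omega⟩
        have := (mem_dn.1 h1).1
        omega
      · refine ⟨mem_univ _, fun h3 => by omega, ?_⟩
        push Not
        exact ⟨h2, by omega⟩
  rw [tm, if_pos hgood, e1, e2, card_erase_of_mem (mem_low.2 (by omega)), card_insert_of_notMem,
    card_sdiff_of_subset (dn_subset i b)]
  intro h1
  have := mem_lev.1 (mem_sdiff.1 h1).1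
  omega

lemma tm_tx (hg : Grad α) {a b : α} (h : TX i a b) :
    tm i (d1 a + d1 b) = (X - 1) ^ ((low α i).card + (up i b).card) *
      X ^ ((lev α i).card - (up i b).card + 1) := by
  obtain ⟨hab, huniq, hb⟩ := h
  have hb' := mem_lev.1 hb
  have hca := hg a b hab
  have hne : b ≠ a := hab.lt.ne'
  have ea : (d1 a + d1 b) a = 1 := by rw [pair_apply, d1_self, d1_ne hne.symm]
  have eb : (d1 a + d1 b) b = 1 := by rw [pair_apply, d1_self, d1_ne hne]
  have e0 : ∀ y, y ≠ a → y ≠ b → (d1 a + d1 b) y = 0 := fun y h1 h2 => by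
    rw [pair_apply, d1_ne h1, d1_ne h2]
  have hin : ∀ y, inE i (d1 a + d1 b) y ↔ (corank y < i ∨ y ∈ up i b) := by
    intro y
    rw [mem_up_iff hg hb]
    constructor
    · rintro (⟨h1, h2⟩ | ⟨h1, x, hx, h2⟩)
      · exact Or.inl h1
      · right
        by_cases hxa : x = a
        · subst hxa
          have := huniq y hx
          rw [this, eb, ea] at h2
          omega
        · by_cases hxb : x = b
          · rw [hxb] at hx
            exact hx
          · rw [e0 x hxa hxb] at h2
            omega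
    · rintro (h1 | h1)
      · refine Or.inl ⟨h1, Or.inl ?_⟩
        rw [e0 y (fun e => by rw [e] at h1; omega) (fun e => by rw [e] at h1; omega)]
        omega
      · have h2 := hg b y h1
        refine Or.inr ⟨by omega, b, h1, ?_⟩
        have hya : y ≠ a := fun e => lt_asymm (e ▸ h1.lt) hab.lt
        rw [eb, e0 y hya h1.lt.ne']
        omega
  have hout : ∀ y, outE i (d1 a + d1 b) y ↔ (i < corank y ∧ y ≠ b) := by
    intro y
    constructor
    · rintro (⟨h1, z, hz, h2⟩ | ⟨h1, z, hz, h2⟩)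
      · have h3 := hg y z hz
        rw [e0 z (fun e => by rw [e] at h3; omega) (fun e => by rw [e] at h3; omega)] at h2
        omega
      · refine ⟨h1, ?_⟩
        rintro rfl
        have hza : z ≠ a := fun e => lt_asymm (e ▸ hz.lt) hab.lt
        rw [eb, e0 z hza hz.lt.ne'] at h2
        omega
    · rintro ⟨h1, h2⟩
      by_cases h3 : y = a
      · subst h3
        exact Or.inr ⟨h1, b, hab, by rw [ea, eb]⟩
      · obtain ⟨z, hz⟩ := exists_covBy_up (x := y) (by omega)
        refine Or.inr ⟨h1, z, hz, ?_⟩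
        rw [e0 y h3 h2]
        omega
  have hgood : GoodE i (d1 a + d1 b) := by
    rintro y ⟨h1, h2⟩
    rw [hin, mem_up] at h1
    rw [hout] at h2
    rcases h1 with h1 | h1 <;> omega
  have e1 : inF i (d1 a + d1 b) = low α i ∪ up i b := by
    ext y
    rw [inF, mem_filter, hin, mem_union, mem_low]
    simp
  have e2 : pkF i (d1 a + d1 b) = insert b (lev α i \ up i b) := by
    ext y
    rw [pkF, mem_filter, hin, hout, mem_insert, mem_sdiff, mem_lev]
    constructor
    · rintro ⟨_, h1, h2⟩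
      push Not at h1 h2
      by_cases h3 : y = b
      · exact Or.inl h3
      · have : ¬ i < corank y := fun h4 => h3 (h2 h4)
        exact Or.inr ⟨by omega, h1.2⟩
    · rintro (rfl | ⟨h1, h2⟩)
      · refine ⟨mem_univ _, ?_, fun h1 => h1.2 rfl⟩
        push Not
        refine ⟨by omega, fun h1 => ?_⟩
        have := (mem_up.1 h1).1
        omega
      · refine ⟨mem_univ _, ?_, fun h3 => by omega⟩
        push Not
        exact ⟨by omega, h2⟩
  have e3 : Disjoint (low α i) (up i b) := by
    rw [Finset.disjoint_left]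
    intro y h1 h2
    have := mem_low.1 h1
    have := (mem_up.1 h2).1
    omega
  rw [tm, if_pos hgood, e1, e2, card_union_of_disjoint e3, card_insert_of_notMem,
    card_sdiff_of_subset (up_subset i b)]
  intro h1
  have := mem_lev.1 (mem_sdiff.1 h1).1
  omega

/-- a pair with a deep upper element -/
lemma tm_v (hg : Grad α) (hD : ∀ z : α, corank z < i → ∃ y, y ⋖ z) {a b : α}
    (ha : corank a + 2 ≤ i) (hab : a ≠ b) : tm i (d1 a + d1 b) = if VZ i a b then
      (X - 1) ^ ((low α i).card - 1) * X ^ ((lev α i).card - (dn i b).card + 1) else 0 := by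
  by_cases h : VZ i a b
  · rw [if_pos h]
    exact tm_vz hg h
  · rw [if_neg h, tm, if_neg]
    exact fun h1 => h (vz_of_good hg hD ha hab h1)

/-- a pair with a deep lower element -/
lemma tm_t (hg : Grad α) {a b : α}
    (ha : i + 2 ≤ corank a) (hab : a ≠ b) : tm i (d1 a + d1 b) = if TX i a b then
      (X - 1) ^ ((low α i).card + (up i b).card) * X ^ ((lev α i).card - (up i b).card + 1)
      else 0 := by
  by_cases h : TX i a b
  · rw [if_pos h]
    exact tm_tx hg h
  · rw [if_neg h, tm, if_neg]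
    exact fun h1 => h (tx_of_good hg ha hab h1)

end Pool.Gauss
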