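import Pool.Agent.Gauss35.FirstOrder2

/-!
# Structure of connected Gaussian posets: degrees at most two
-/

set_option autoImplicit false
open scoped Classical
open Finset

namespace Pool.Gauss

variable {α : Type} [Fintype α] [PartialOrder α]

/-- connectedness of the comparability relation -/
def Conn (α : Type) [PartialOrder α] : Prop :=
  ∀ a b : α, Relation.ReflTransGen (fun x y : α => x ≤ y ∨ y ≤ x) a b

lemma noMin_of_nonempty {h : Fin (Fintype.card α) → ℕ} (hG : IsGaussianWith α h) (hc : Conn α)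
    {i : ℕ} {w : α} (hw : i ≤ corank w + 1) : NoMin α i := by
  intro x hx
  exact exists_lt_of_corank_lt hG hc (w := w) (by omega)

lemma up_pos {i : ℕ} {x : α} (hx : x ∈ lev α (i + 1)) : 0 < (up i x).card := by
  rw [mem_lev] at hx
  obtain ⟨y, hy, hy'⟩ := exists_gt_corank (x := x) (n := i) (by omega)
  exact Finset.card_pos.2 ⟨y, mem_up.2 ⟨hy', hy⟩⟩

lemma dn_pos {h : Fin (Fintype.card α) → ℕ} (hG : IsGaussianWith α h) (hc : Conn α)
    {i : ℕ} {w : α} (hw : w ∈ lev α i) {z : α} (hz : z ∈ lev' α i) : 0 < (dn i z).card := by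
  rw [mem_lev] at hw
  rw [mem_lev'] at hz
  obtain ⟨y, hy, hy'⟩ := exists_lt_of_corank_lt hG hc (x := z) (w := w) (by omega)
  exact Finset.card_pos.2 ⟨y, mem_dn.2 ⟨by omega, hy⟩⟩

lemma card_dn_le (i : ℕ) (z : α) : (dn i z).card ≤ (lev α i).card := card_le_card (dn_subset i z)
lemma card_up_le (i : ℕ) (x : α) : (up i x).card ≤ (lev α i).card := card_le_card (up_subset i x)

/-- number of edges between consecutive levels -/
lemma edges {h : Fin (Fintype.card α) → ℕ} (hG : IsGaussianWith α h) (i : ℕ)
    (hi : NoMin α i) :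
    ∑ z ∈ lev' α i, (dn i z).card + (lev α 0).card = (lev' α i).card + (lev α i).card := by
  have h1 := congrArg (fun q => (Polynomial.derivative q).eval 0) (first_order hG i hi)
  simp only [Polynomial.derivative_add, Polynomial.derivative_mul, Polynomial.derivative_natCast,
    Polynomial.derivative_X, Polynomial.derivative_sum, Polynomial.derivative_pow,
    Polynomial.derivative_one, Polynomial.eval_add, Polynomial.eval_mul, Polynomial.eval_pow,
    Polynomial.eval_natCast, Polynomial.eval_X, Polynomial.eval_one, Polynomial.eval_finsetSum,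
    zero_mul, mul_zero, add_zero, zero_add, mul_one, one_mul, one_pow, Polynomial.eval_C] at h1
  have h2 : ∑ x ∈ lev α (i + 1), (0 : ℤ) ^ (up i x).card = 0 := by
    apply Finset.sum_eq_zero
    intro x hx
    exact zero_pow (up_pos hx).ne'
  have h3 : ∑ z ∈ lev' α i, (((lev α i).card - (dn i z).card : ℕ) : ℤ) =
      (lev' α i).card * (lev α i).card - ∑ z ∈ lev' α i, ((dn i z).card : ℤ) := by
    rw [← nsmul_eq_mul, ← Finset.sum_const, ← Finset.sum_sub_distrib]
    apply Finset.sum_congr rfl
    intro z _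
    rw [Nat.cast_sub (card_dn_le i z)]
  rw [h2, h3, Finset.sum_const, nsmul_eq_mul] at h1
  norm_num at h1
  have h4 : ((∑ z ∈ lev' α i, (dn i z).card + (lev α 0).card : ℕ) : ℤ) =
      (((lev' α i).card + (lev α i).card : ℕ) : ℤ) := by
    push_cast
    linarith
  exact_mod_cast h4

/-- double counting of the edges between levels `i` and `i + 1` -/
lemma sum_up_eq (i : ℕ) :
    ∑ x ∈ lev α (i + 1), (up i x).card = ∑ z ∈ lev' α (i + 1), (dn (i + 1) z).card := by
  have e : lev' α (i + 1) = lev α i := by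
    ext x
    rw [mem_lev', mem_lev]
    omega
  rw [e]
  have := Finset.sum_card_bipartiteAbove_eq_sum_card_bipartiteBelow
    (s := lev α (i + 1)) (t := lev α i) (fun x y => x < y)
  exact this

/-- the relation at `u = 1` -/
lemma first_order_one {h : Fin (Fintype.card α) → ℕ} (hG : IsGaussianWith α h) (i : ℕ)
    (hi : NoMin α i) :
    ((lev α i).card : ℚ) + 2 * ∑ z ∈ lev' α i, (1 / 2 : ℚ) ^ (dn i z).card +
      2 * ∑ x ∈ lev α (i + 1), (1 / 2 : ℚ) ^ (up i x).card =
    (lev α 0).card + (lev α (i + 1)).card + (lev' α i).card := by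
  have h1 := congrArg (fun q => q.eval 1) (first_order hG i hi)
  simp only [Polynomial.eval_add, Polynomial.eval_mul, Polynomial.eval_pow,
    Polynomial.eval_natCast, Polynomial.eval_X, Polynomial.eval_one, Polynomial.eval_finsetSum,
    mul_one, one_mul, one_pow, one_add_one_eq_two] at h1
  have h2 : ∀ d : ℕ, d ≤ (lev α i).card → (2 : ℚ) ^ ((lev α i).card - d) =
      2 ^ (lev α i).card * (1 / 2) ^ d := by
    intro d hd
    have : (2 : ℚ) ^ (lev α i).card = 2 ^ ((lev α i).card - d) * 2 ^ d := by
      rw [← pow_add, Nat.sub_add_cancel hd]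
    rw [this, mul_assoc, ← mul_pow]
    norm_num
  have h3 : (2 : ℚ) ^ (lev α i).card ≠ 0 := by positivity
  apply mul_left_cancel₀ h3
  have h4 := congrArg (fun z : ℤ => (z : ℚ)) h1
  push_cast at h4
  rw [Finset.sum_congr rfl (fun z _ => h2 _ (card_dn_le i z)),
    Finset.sum_congr rfl (fun x _ => h2 _ (card_up_le i x)), ← Finset.mul_sum,
    ← Finset.mul_sum] at h4
  linear_combination h4

/-- the deviation function -/
lemma dev_nonneg (d : ℕ) (hd : 0 < d) : (0 : ℚ) ≤ (d : ℚ) / 2 - 3 / 2 + 2 * (1 / 2) ^ d ∧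
    ((d : ℚ) / 2 - 3 / 2 + 2 * (1 / 2) ^ d = 0 → d ≤ 2) := by
  rcases Nat.lt_or_ge 2 d with h | h
  · have h1 : (3 : ℚ) ≤ d := by exact_mod_cast h
    have h2 : (0 : ℚ) < (1 / 2) ^ d := by positivity
    constructor
    · linarith
    · intro h3
      linarith
  · interval_cases d <;> norm_num

theorem degrees {h : Fin (Fintype.card α) → ℕ} (hG : IsGaussianWith α h) (hc : Conn α)
    {i : ℕ} {w : α} (hw : w ∈ lev α i) :
    (∀ z ∈ lev' α i, (dn i z).card = 1 ∨ (dn i z).card = 2) ∧
    (∀ x ∈ lev α (i + 1), (up i x).card = 1 ∨ (up i x).card = 2) ∧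
    ∑ z ∈ lev' α i, (dn i z).card + (lev α 0).card = (lev' α i).card + (lev α i).card ∧
    ∑ x ∈ lev α (i + 1), (up i x).card + (lev α 0).card =
      (lev α (i + 1)).card + (lev α i).card := by
  have hw' := mem_lev.1 hw
  have hi : NoMin α i := noMin_of_nonempty hG hc (w := w) (by omega)
  have hi' : NoMin α (i + 1) := noMin_of_nonempty hG hc (w := w) (by omega)
  have e1 := edges hG i hi
  have e2 := edges hG (i + 1) hi'
  rw [← sum_up_eq] at e2
  have e : lev' α (i + 1) = lev α i := by
    ext x
    rw [mem_lev', mem_lev]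
    omega
  rw [e] at e2
  have e3 := first_order_one hG i hi
  -- total deviation
  have h1 : ∑ z ∈ lev' α i, (((dn i z).card : ℚ) / 2 - 3 / 2 + 2 * (1 / 2) ^ (dn i z).card) +
      ∑ x ∈ lev α (i + 1), (((up i x).card : ℚ) / 2 - 3 / 2 + 2 * (1 / 2) ^ (up i x).card) = 0 := by
    have q1 : (∑ z ∈ lev' α i, ((dn i z).card : ℚ)) + (lev α 0).card =
        (lev' α i).card + (lev α i).card := by exact_mod_cast e1
    have q2 : (∑ x ∈ lev α (i + 1), ((up i x).card : ℚ)) + (lev α 0).card =
        (lev α i).card + (lev α (i + 1)).card := by exact_mod_cast e2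
    simp only [Finset.sum_add_distrib, Finset.sum_sub_distrib, ← Finset.sum_div,
      ← Finset.mul_sum, Finset.sum_const, nsmul_eq_mul]
    linarith
  have h2 : ∀ z ∈ lev' α i,
      0 ≤ (((dn i z).card : ℚ) / 2 - 3 / 2 + 2 * (1 / 2) ^ (dn i z).card) := fun z hz =>
    (dev_nonneg _ (dn_pos hG hc hw hz)).1
  have h3 : ∀ x ∈ lev α (i + 1),
      0 ≤ (((up i x).card : ℚ) / 2 - 3 / 2 + 2 * (1 / 2) ^ (up i x).card) := fun x hx =>
    (dev_nonneg _ (up_pos hx)).1
  have h4 := Finset.sum_nonneg h2
  have h5 := Finset.sum_nonneg h3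
  have h6 := (Finset.sum_eq_zero_iff_of_nonneg h2).1 (by linarith)
  have h7 := (Finset.sum_eq_zero_iff_of_nonneg h3).1 (by linarith)
  refine ⟨?_, ?_, e1, by omega⟩
  · intro z hz
    have h8 := dn_pos hG hc hw hz
    have h9 := (dev_nonneg _ h8).2 (h6 z hz)
    omega
  · intro x hx
    have h8 := up_pos hx
    have h9 := (dev_nonneg _ h8).2 (h7 x hx)
    omega

lemma card_two {β : Type} (s : Finset β) (f : β → ℕ) (hf : ∀ x ∈ s, f x = 1 ∨ f x = 2) :
    ∑ x ∈ s, f x = s.card + (s.filter fun x => f x = 2).card := by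
  rw [Finset.card_filter, Finset.card_eq_sum_ones, ← Finset.sum_add_distrib]
  apply Finset.sum_congr rfl
  intro x hx
  rcases hf x hx with h | h <;> simp [h]

/-- the numbers of branching elements -/
theorem branching {h : Fin (Fintype.card α) → ℕ} (hG : IsGaussianWith α h) (hc : Conn α)
    {i : ℕ} {w : α} (hw : w ∈ lev α i) :
    ((lev' α i).filter fun z => (dn i z).card = 2).card + (lev α 0).card = (lev α i).card ∧
    ((lev α (i + 1)).filter fun x => (up i x).card = 2).card + (lev α 0).card =
      (lev α i).card := by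
  obtain ⟨h1, h2, h3, h4⟩ := degrees hG hc hw
  rw [card_two _ _ h1] at h3
  rw [card_two _ _ h2] at h4
  omega

/-- every element of a connected Gaussian poset covers at most two elements and is covered by at
most two elements -/
theorem covers_le_two {h : Fin (Fintype.card α) → ℕ} (hG : IsGaussianWith α h) (hc : Conn α)
    (x : α) : (univ.filter fun y => y ⋖ x).card ≤ 2 ∧ (univ.filter fun y => x ⋖ y).card ≤ 2 := by
  constructor
  · by_cases hne : (univ.filter fun y => y ⋖ x).Nonempty
    · obtain ⟨w, hw⟩ := hne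
      rw [mem_filter] at hw
      have h1 := corank_covBy hG hw.2
      have hwl : w ∈ lev α (corank x + 1) := mem_lev.2 h1
      have h2 := (degrees hG hc hwl).1 x (mem_lev'.2 rfl)
      have h3 : (univ.filter fun y => y ⋖ x) ⊆ dn (corank x + 1) x := by
        intro y hy
        rw [mem_filter] at hy
        exact mem_dn.2 ⟨corank_covBy hG hy.2, hy.2.lt⟩
      have := card_le_card h3
      omega
    · rw [not_nonempty_iff_eq_empty] at hne
      rw [hne]
      simp
  · by_cases hne : (univ.filter fun y => x ⋖ y).Nonempty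
    · obtain ⟨w, hw⟩ := hne
      rw [mem_filter] at hw
      have h1 := corank_covBy hG hw.2
      have hwl : w ∈ lev α (corank w) := mem_lev.2 rfl
      have h2 := (degrees hG hc hwl).2.1 x (mem_lev.2 h1)
      have h3 : (univ.filter fun y => x ⋖ y) ⊆ up (corank w) x := by
        intro y hy
        rw [mem_filter] at hy
        have := corank_covBy hG hy.2
        exact mem_up.2 ⟨by omega, hy.2.lt⟩
      have := card_le_card h3
      omega
    · rw [not_nonempty_iff_eq_empty] at hne
      rw [hne]
      simp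

end Pool.Gauss
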