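import Pool.Agent.Gauss35.Pairs3
import Pool.Agent.Gauss35.Structure

/-!
# The relations of second order: sums over energy functions of total energy two
-/

set_option autoImplicit false
open scoped Classical
open Finset

namespace Pool.Gauss

variable {α : Type} [Fintype α] [PartialOrder α] {i : ℕ}

lemma dk_apply (k : ℕ) (a y : α) : dk k a y = if y = a then k else 0 := rfl

lemma dk_one (a : α) : dk 1 a = d1 a := rfl

lemma d1_add_self (a : α) : d1 a + d1 a = dk 2 a := by
  funext y
  rw [pair_apply, dk_apply]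
  by_cases h : y = a
  · rw [h, d1_self, if_pos rfl]
  · rw [d1_ne h, if_neg h]

lemma sum_dk (k : ℕ) (a : α) : ∑ y, dk k a y = k := by
  simp [dk_apply]

lemma sum_pi_shift {M : Type} [AddCommMonoid M] (F : (α → ℕ) → M) (r k : ℕ) (a : α) :
    ∑ ε ∈ (univ : Finset α).piAntidiag (r + k), (if k ≤ ε a then F ε else 0) =
      ∑ ε ∈ (univ : Finset α).piAntidiag r, F (ε + dk k a) := by
  rw [← Finset.sum_filter]
  have hsub : ∀ ε : α → ℕ, k ≤ ε a → (fun y => ε y - dk k a y) + dk k a = ε := by
    intro ε h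
    funext y
    change ε y - dk k a y + dk k a y = ε y
    rw [dk_apply]
    by_cases h1 : y = a
    · rw [if_pos h1, h1]
      omega
    · rw [if_neg h1]
      omega
  have hsum : ∀ ε : α → ℕ, ∑ y, (ε + dk k a) y = ∑ y, ε y + k := by
    intro ε
    change ∑ y, (ε y + dk k a y) = _
    rw [Finset.sum_add_distrib, sum_dk]
  refine Finset.sum_nbij' (fun ε => fun y => ε y - dk k a y) (fun ε => ε + dk k a) ?_ ?_ ?_ ?_ ?_
  · intro ε hε
    rw [mem_filter, mem_piAntidiag] at hε
    rw [mem_piAntidiag]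
    refine ⟨?_, fun _ _ => mem_univ _⟩
    have h1 := hsum (fun y => ε y - dk k a y)
    rw [hsub ε hε.2] at h1
    have h2 : ∑ y, ε y = r + k := hε.1.1
    change ∑ y, (ε y - dk k a y) = r
    omega
  · intro ε hε
    rw [mem_piAntidiag] at hε
    rw [mem_filter, mem_piAntidiag]
    refine ⟨⟨?_, fun _ _ => mem_univ _⟩, ?_⟩
    · change ∑ y, (ε + dk k a) y = r + k
      have h2 : ∑ y, ε y = r := hε.1
      rw [hsum ε, h2]
    · change k ≤ ε a + dk k a a
      rw [dk_self]
      omega
  · intro ε hε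
    rw [mem_filter] at hε
    exact hsub ε hε.2
  · intro ε _
    funext y
    change ε y + dk k a y - dk k a y = ε y
    omega
  · intro ε hε
    rw [mem_filter] at hε
    change F ε = F ((fun y => ε y - dk k a y) + dk k a)
    rw [hsub ε hε.2]

lemma sum_pi_zero {M : Type} [AddCommMonoid M] (F : (α → ℕ) → M) :
    ∑ ε ∈ (univ : Finset α).piAntidiag 0, F ε = F 0 := by
  rw [Finset.piAntidiag_zero, Finset.sum_singleton]

lemma le_of_pi {r : ℕ} {ε : α → ℕ} (h : ε ∈ (univ : Finset α).piAntidiag r) (a : α) : ε a ≤ r := by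
  rw [mem_piAntidiag] at h
  rw [← h.1]
  exact Finset.single_le_sum (f := ε) (fun _ _ => Nat.zero_le _) (mem_univ a)

lemma sum_pi_one (F : (α → ℕ) → ℤ) :
    ∑ ε ∈ (univ : Finset α).piAntidiag 1, F ε = ∑ a, F (d1 a) := by
  have h1 : ∀ a : α, F (d1 a) =
      ∑ ε ∈ (univ : Finset α).piAntidiag 1, (if 1 ≤ ε a then F ε else 0) := by
    intro a
    have := sum_pi_shift F 0 1 a
    rw [sum_pi_zero, zero_add, zero_add, dk_one] at this
    exact this.symm
  rw [Finset.sum_congr rfl (fun a _ => h1 a), Finset.sum_comm]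
  apply Finset.sum_congr rfl
  intro ε hε
  have h2 : ∀ a : α, (if 1 ≤ ε a then F ε else 0) = F ε * (ε a : ℤ) := by
    intro a
    have := le_of_pi hε a
    by_cases h : 1 ≤ ε a
    · rw [if_pos h]
      have : ε a = 1 := by omega
      rw [this]
      simp
    · rw [if_neg h]
      have : ε a = 0 := by omega
      rw [this]
      simp
  rw [Finset.sum_congr rfl (fun a _ => h2 a), ← Finset.mul_sum]
  rw [mem_piAntidiag] at hε
  have h3 : (∑ a, (ε a : ℤ)) = 1 := by
    have := hε.1
    exact_mod_cast this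
  rw [h3, mul_one]

lemma sum_pi_two (F : (α → ℕ) → ℤ) :
    2 * ∑ ε ∈ (univ : Finset α).piAntidiag 2, F ε =
      ∑ a, ∑ b, F (d1 a + d1 b) + ∑ a, F (dk 2 a) := by
  have h1 : ∀ a : α, ∑ b, F (d1 a + d1 b) =
      ∑ ε ∈ (univ : Finset α).piAntidiag 2, (if 1 ≤ ε a then F ε else 0) := by
    intro a
    have h := sum_pi_shift F 1 1 a
    rw [sum_pi_one (fun ε => F (ε + dk 1 a))] at h
    rw [show (2 : ℕ) = 1 + 1 from rfl, h]
    apply Finset.sum_congr rfl
    intro b _
    rw [dk_one, add_comm]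
  have h1' : ∀ a : α, F (dk 2 a) =
      ∑ ε ∈ (univ : Finset α).piAntidiag 2, (if 2 ≤ ε a then F ε else 0) := by
    intro a
    have := sum_pi_shift F 0 2 a
    rw [sum_pi_zero, zero_add, zero_add] at this
    exact this.symm
  rw [Finset.sum_congr rfl (fun a _ => h1 a), Finset.sum_comm,
    Finset.sum_congr rfl (fun a _ => h1' a), Finset.sum_comm (s := (univ : Finset α)) (t := _),
    ← Finset.sum_add_distrib, Finset.mul_sum]
  apply Finset.sum_congr rfl
  intro ε hε
  rw [← Finset.sum_add_distrib]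
  have h2 : ∀ a : α, ((if 1 ≤ ε a then F ε else 0) + (if 2 ≤ ε a then F ε else 0)) =
      F ε * (ε a : ℤ) := by
    intro a
    have := le_of_pi hε a
    by_cases h : 1 ≤ ε a
    · by_cases h' : 2 ≤ ε a
      · rw [if_pos h, if_pos h']
        have : ε a = 2 := by omega
        rw [this]
        push_cast
        ring
      · rw [if_pos h, if_neg h']
        have : ε a = 1 := by omega
        rw [this]
        simp
    · rw [if_neg h, if_neg (by omega)]
      have : ε a = 0 := by omega
      rw [this]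
      simp
  rw [Finset.sum_congr rfl (fun a _ => h2 a), ← Finset.mul_sum]
  rw [mem_piAntidiag] at hε
  have h3 : (∑ a, (ε a : ℤ)) = 2 := by
    have := hε.1
    exact_mod_cast this
  rw [h3]
  ring

/-! ### partition into levels -/

/-- the elements at least two levels above level `i` -/
noncomputable def fu (α : Type) [Fintype α] [PartialOrder α] (i : ℕ) : Finset α :=
  univ.filter fun a => corank a + 2 ≤ i

/-- the elements at least two levels below level `i` -/
noncomputable def fdn (α : Type) [Fintype α] [PartialOrder α] (i : ℕ) : Finset α :=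
  univ.filter fun a => i + 2 ≤ corank a

lemma mem_fu {a : α} : a ∈ fu α i ↔ corank a + 2 ≤ i := by simp [fu]
lemma mem_fdn {a : α} : a ∈ fdn α i ↔ i + 2 ≤ corank a := by simp [fdn]

lemma sum_levels (i : ℕ) (f : α → ℤ) : ∑ a, f a = ∑ a ∈ fu α i, f a + ∑ a ∈ lev' α i, f a +
    ∑ a ∈ lev α i, f a + ∑ a ∈ lev α (i + 1), f a + ∑ a ∈ fdn α i, f a := by
  have e : ∀ s : Finset α, ∑ a ∈ s, f a = ∑ a, if a ∈ s then f a else 0 := by
    intro s
    rw [Finset.sum_ite_mem, Finset.univ_inter]
  rw [e (fu α i), e (lev' α i), e (lev α i), e (lev α (i + 1)), e (fdn α i),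
    ← Finset.sum_add_distrib, ← Finset.sum_add_distrib, ← Finset.sum_add_distrib,
    ← Finset.sum_add_distrib]
  apply Finset.sum_congr rfl
  intro a _
  simp only [mem_fu, mem_lev', mem_lev, mem_fdn]
  rcases Nat.lt_or_ge (corank a + 1) i with h | h
  · rw [if_pos (by omega), if_neg (by omega), if_neg (by omega), if_neg (by omega),
      if_neg (by omega)]
    ring
  · rcases eq_or_lt_of_le h with h | h
    · rw [if_neg (by omega), if_pos (by omega), if_neg (by omega), if_neg (by omega),
        if_neg (by omega)]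
      ring
    · rcases eq_or_lt_of_le (show i ≤ corank a by omega) with h | h
      · rw [if_neg (by omega), if_neg (by omega), if_pos (by omega), if_neg (by omega),
          if_neg (by omega)]
        ring
      · rcases eq_or_lt_of_le (show i + 1 ≤ corank a by omega) with h | h
        · rw [if_neg (by omega), if_neg (by omega), if_neg (by omega), if_pos (by omega),
            if_neg (by omega)]
          ring
        · rw [if_neg (by omega), if_neg (by omega), if_neg (by omega), if_neg (by omega),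
            if_pos (by omega)]
          ring

/-- splitting a symmetric double sum -/
lemma pair_sum (i : ℕ) (G : α → α → ℤ) (hs : ∀ a b, G a b = G b a)
    (h1 : ∀ a ∈ fu α i, ∀ b, b ∉ lev' α i → G a b = 0)
    (h2 : ∀ a ∈ fdn α i, ∀ b, b ∉ lev α (i + 1) → G a b = 0) :
    ∑ a, ∑ b, G a b = ∑ a ∈ lev' α i, ∑ b ∈ lev' α i, G a b +
      ∑ a ∈ lev α (i + 1), ∑ b ∈ lev α (i + 1), G a b + ∑ a ∈ lev α i, ∑ b ∈ lev α i, G a b +
      2 * ∑ a ∈ lev' α i, ∑ b ∈ lev α (i + 1), G a b + 2 * ∑ a ∈ lev' α i, ∑ b ∈ lev α i, G a b +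
      2 * ∑ a ∈ lev α (i + 1), ∑ b ∈ lev α i, G a b +
      2 * ∑ a ∈ fu α i, ∑ b ∈ lev' α i, G a b + 2 * ∑ a ∈ fdn α i, ∑ b ∈ lev α (i + 1), G a b := by
  have z0 : ∀ a ∈ fu α i, ∀ s : Finset α, (∀ b ∈ s, b ∉ lev' α i) → ∑ b ∈ s, G a b = 0 :=
    fun a ha s hs => Finset.sum_eq_zero fun b hb => h1 a ha b (hs b hb)
  have z1 : ∀ a ∈ fdn α i, ∀ s : Finset α, (∀ b ∈ s, b ∉ lev α (i + 1)) → ∑ b ∈ s, G a b = 0 :=
    fun a ha s hs => Finset.sum_eq_zero fun b hb => h2 a ha b (hs b hb)
  have A1 : ∑ a ∈ fu α i, ∑ b, G a b = ∑ a ∈ fu α i, ∑ b ∈ lev' α i, G a b := by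
    apply Finset.sum_congr rfl
    intro a ha
    rw [sum_levels i, z0 a ha (fu α i), z0 a ha (lev α i), z0 a ha (lev α (i + 1)),
      z0 a ha (fdn α i)]
    · ring
    all_goals
      intro b hb
      simp only [mem_fu, mem_lev', mem_lev, mem_fdn] at hb ⊢
      omega
  have A2 : ∑ a ∈ fdn α i, ∑ b, G a b = ∑ a ∈ fdn α i, ∑ b ∈ lev α (i + 1), G a b := by
    apply Finset.sum_congr rfl
    intro a ha
    rw [sum_levels i, z1 a ha (fu α i), z1 a ha (lev α i), z1 a ha (lev' α i),
      z1 a ha (fdn α i)]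
    · ring
    all_goals
      intro b hb
      simp only [mem_fu, mem_lev', mem_lev, mem_fdn] at hb ⊢
      omega
  have A3 : ∀ s : Finset α, (∀ b ∈ s, b ∉ lev' α i) → ∑ a ∈ s, ∑ b ∈ fu α i, G a b = 0 := by
    intro s hs'
    rw [Finset.sum_comm]
    apply Finset.sum_eq_zero
    intro b hb
    apply Finset.sum_eq_zero
    intro a ha
    rw [hs]
    exact h1 b hb a (hs' a ha)
  have A4 : ∀ s : Finset α, (∀ b ∈ s, b ∉ lev α (i + 1)) → ∑ a ∈ s, ∑ b ∈ fdn α i, G a b = 0 := by
    intro s hs'
    rw [Finset.sum_comm]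
    apply Finset.sum_eq_zero
    intro b hb
    apply Finset.sum_eq_zero
    intro a ha
    rw [hs]
    exact h2 b hb a (hs' a ha)
  have B : ∀ s t : Finset α, ∑ a ∈ s, ∑ b ∈ t, G a b = ∑ a ∈ t, ∑ b ∈ s, G a b := by
    intro s t
    rw [Finset.sum_comm]
    exact Finset.sum_congr rfl fun a _ => Finset.sum_congr rfl fun b _ => hs b a
  rw [sum_levels i (fun a => ∑ b, G a b), A1, A2]
  have C : ∀ s : Finset α, ∑ a ∈ s, ∑ b, G a b = ∑ a ∈ s, ∑ b ∈ fu α i, G a b +
      ∑ a ∈ s, ∑ b ∈ lev' α i, G a b + ∑ a ∈ s, ∑ b ∈ lev α i, G a b +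
      ∑ a ∈ s, ∑ b ∈ lev α (i + 1), G a b + ∑ a ∈ s, ∑ b ∈ fdn α i, G a b := by
    intro s
    rw [← Finset.sum_add_distrib, ← Finset.sum_add_distrib, ← Finset.sum_add_distrib,
      ← Finset.sum_add_distrib]
    exact Finset.sum_congr rfl fun a _ => sum_levels i _
  rw [C (lev' α i), C (lev α i), C (lev α (i + 1)), A3 (lev α i), A3 (lev α (i + 1)),
    A4 (lev' α i), A4 (lev α i), B (lev' α i) (fu α i), B (lev α (i + 1)) (fdn α i),
    B (lev α i) (lev' α i), B (lev α (i + 1)) (lev' α i), B (lev α i) (lev α (i + 1))]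
  · ring
  all_goals
    intro b hb
    simp only [mem_lev', mem_lev] at hb ⊢
    omega

/-! ### two sets with one or two elements -/

/-- the number of common elements, and whether there are two of them -/
lemma two_sets {β : Type} (A B : Finset β) (hA : A.card = 1 ∨ A.card = 2)
    (hB : B.card = 1 ∨ B.card = 2) :
    (if (A ∪ B).card = 4 then (1 : ℤ) else 0) = (if A.card = 2 then 1 else 0) *
      (if B.card = 2 then 1 else 0) * (1 - (A ∩ B).card) +
      (if (A ∩ B).card = 2 then 1 else 0) ∧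
    (if (A ∪ B).card = 3 then (1 : ℤ) else 0) = (if A.card = 2 then 1 else 0) *
      (if B.card = 2 then 1 else 0) * (A ∩ B).card - 2 * (if (A ∩ B).card = 2 then 1 else 0) +
      ((if A.card = 2 then 1 else 0) + (if B.card = 2 then 1 else 0) - 2 *
      (if A.card = 2 then 1 else 0) * (if B.card = 2 then 1 else 0)) * (1 - (A ∩ B).card) ∧
    (if (A ∩ B).card = 0 ∧ A.card = 2 ∧ B.card = 2 then (1 : ℤ) else 0) =
      (if A.card = 2 then 1 else 0) *
      (if B.card = 2 then 1 else 0) * (1 - (A ∩ B).card) +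
      (if (A ∩ B).card = 2 then 1 else 0) ∧
    (if (A ∩ B).card = 0 ∧ A.card = 2 ∧ B.card = 1 then (1 : ℤ) else 0) -
      (if (A ∩ B).card = 0 ∧ A.card = 1 ∧ B.card = 2 then (1 : ℤ) else 0) =
      ((if A.card = 2 then 1 else 0) - (if B.card = 2 then 1 else 0)) * (1 - (A ∩ B).card) := by
  have h1 := card_union_add_card_inter A B
  have h2 : (A ∩ B).card ≤ A.card := card_le_card inter_subset_left
  have h3 : (A ∩ B).card ≤ B.card := card_le_card inter_subset_right
  generalize (A ∪ B).card = u at *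
  generalize (A ∩ B).card = t at *
  generalize A.card = a at *
  generalize B.card = b at *
  rcases hA with rfl | rfl <;> rcases hB with rfl | rfl
  · interval_cases t
    · obtain rfl : u = 2 := by omega
      norm_num
    · obtain rfl : u = 1 := by omega
      norm_num
  · interval_cases t
    · obtain rfl : u = 3 := by omega
      norm_num
    · obtain rfl : u = 2 := by omega
      norm_num
  · interval_cases t
    · obtain rfl : u = 3 := by omega
      norm_num
    · obtain rfl : u = 2 := by omega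
      norm_num
  · interval_cases t
    · obtain rfl : u = 4 := by omega
      norm_num
    · obtain rfl : u = 3 := by omega
      norm_num
    · obtain rfl : u = 2 := by omega
      norm_num

end Pool.Gauss
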