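import Pool.Agent.Gauss35.Second

/-!
# The relations of second order: coefficients
-/

set_option autoImplicit false
open scoped Classical
open Finset

namespace Pool.Gauss

variable {α : Type} [Fintype α] [PartialOrder α] {i : ℕ}

/-- `1` if `z` covers two elements -/
noncomputable def dz (i : ℕ) (z : α) : ℤ := if (dn i z).card = 2 then 1 else 0

/-- `1` if `x` is covered by two elements -/
noncomputable def dx (i : ℕ) (x : α) : ℤ := if (up i x).card = 2 then 1 else 0

open Polynomial

lemma cf_lt {a b j : ℕ} (h : j < b) : ((X - 1 : ℤ[X]) ^ a * X ^ b).coeff j = 0 :=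
  coeff_sub_one_mul_lt h

lemma cf_eq {a b j : ℕ} (h : j = b) : ((X - 1 : ℤ[X]) ^ a * X ^ b).coeff j = (-1) ^ a := by
  rw [h, coeff_sub_one_mul_self]

lemma cf_succ {a b j : ℕ} (h : j = b + 1) :
    ((X - 1 : ℤ[X]) ^ a * X ^ b).coeff j = - (a : ℤ) * (-1) ^ a := by
  rw [h, coeff_sub_one_mul_succ]

lemma neg_one_pow_sub_two {N : ℕ} (h : 2 ≤ N) : (-1 : ℤ) ^ (N - 2) = (-1) ^ N := by
  obtain ⟨k, rfl⟩ := Nat.exists_eq_add_of_le h
  rw [Nat.add_sub_cancel_left, pow_add]
  norm_num

lemma neg_one_pow_sub_one {N : ℕ} (h : 1 ≤ N) : (-1 : ℤ) ^ (N - 1) = -(-1) ^ N := by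
  obtain ⟨k, rfl⟩ := Nat.exists_eq_add_of_le h
  rw [Nat.add_sub_cancel_left, pow_add]
  norm_num

lemma lev'_sub_low (i : ℕ) : lev' α i ⊆ low α i := by
  intro z hz
  rw [mem_lev'] at hz
  rw [mem_low]
  omega

lemma low_pos {a : α} (ha : a ∈ lev' α i) : 1 ≤ (low α i).card :=
  Finset.card_pos.2 ⟨a, lev'_sub_low i ha⟩

lemma low_two {a b : α} (ha : a ∈ lev' α i) (hb : b ∈ lev' α i) (hab : a ≠ b) :
    2 ≤ (low α i).card := by
  rw [← card_pair hab]
  exact card_le_card (fun y hy => lev'_sub_low i (sub_pair ha hb hy))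

section coeffs

variable (hg : Grad α) (hz : ∀ z ∈ lev' α i, (dn i z).card = 1 ∨ (dn i z).card = 2)
  (hx : ∀ x ∈ lev α (i + 1), (up i x).card = 1 ∨ (up i x).card = 2) (hn : 1 ≤ (lev α i).card)

include hg hz in
lemma c2_zz {a b : α} (ha : a ∈ lev' α i) (hb : b ∈ lev' α i) (hab : a ≠ b) :
    (tm i (d1 a + d1 b)).coeff ((lev α i).card - 2) =
      (-1) ^ (low α i).card * (if (dn i a ∪ dn i b).card = 4 then 1 else 0) := by
  have h1 : (dn i a ∪ dn i b).card ≤ (lev α i).card :=
    card_le_card (union_subset (dn_subset i a) (dn_subset i b))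
  have h2 := card_union_le (dn i a) (dn i b)
  have h3 := hz a ha
  have h4 := hz b hb
  have h5 : 0 < (dn i a ∪ dn i b).card := by
    have := card_le_card (subset_union_left (s₁ := dn i a) (s₂ := dn i b))
    omega
  have h6 := low_two ha hb hab
  rw [tm_zz hg ha hb hab]
  by_cases h : (dn i a ∪ dn i b).card = 4
  · rw [if_pos h, cf_eq (by omega), neg_one_pow_sub_two h6, mul_one]
  · rw [if_neg h, cf_lt (by omega), mul_zero]

include hg hx in
lemma c2_xx {a b : α} (ha : a ∈ lev α (i + 1)) (hb : b ∈ lev α (i + 1)) (hab : a ≠ b) :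
    (tm i (d1 a + d1 b)).coeff ((lev α i).card - 2) =
      (-1) ^ (low α i).card * (if (up i a ∪ up i b).card = 4 then 1 else 0) := by
  have h1 : (up i a ∪ up i b).card ≤ (lev α i).card :=
    card_le_card (union_subset (up_subset i a) (up_subset i b))
  have h2 := card_union_le (up i a) (up i b)
  have h3 := hx a ha
  have h4 := hx b hb
  have h5 : 0 < (up i a ∪ up i b).card := by
    have := card_le_card (subset_union_left (s₁ := up i a) (s₂ := up i b))
    omega
  rw [tm_xx hg ha hb hab]
  by_cases h : (up i a ∪ up i b).card = 4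
  · rw [if_pos h, cf_eq (by omega), h, pow_add]
    norm_num
  · rw [if_neg h, cf_lt (by omega), mul_zero]

include hg hz hx in
lemma c2_zx {a b : α} (ha : a ∈ lev' α i) (hb : b ∈ lev α (i + 1)) :
    (tm i (d1 a + d1 b)).coeff ((lev α i).card - 2) =
      -(-1) ^ (low α i).card * (if (dn i a ∩ up i b).card = 0 ∧ (dn i a).card = 2 ∧
        (up i b).card = 2 then 1 else 0) := by
  have h3 := hz a ha
  have h4 := hx b hb
  have h6 := low_pos ha
  have h7 : Disjoint (up i b) (dn i a) ↔ (dn i a ∩ up i b).card = 0 := by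
    rw [disjoint_comm, Finset.card_eq_zero, Finset.disjoint_iff_inter_eq_empty]
  rw [tm_zx hg ha hb]
  by_cases h : Disjoint (up i b) (dn i a)
  · have h8 := h7.1 h
    have h9 : (dn i a ∪ up i b).card ≤ (lev α i).card :=
      card_le_card (union_subset (dn_subset i a) (up_subset i b))
    have h10 := card_union_add_card_inter (dn i a) (up i b)
    rw [if_pos h]
    rcases h3 with h3 | h3
    · rw [if_neg (by omega), cf_lt (by omega), mul_zero]
    · rcases h4 with h4 | h4
      · rw [if_neg (by omega), cf_lt (by omega), mul_zero]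
      · rw [if_pos ⟨h8, h3, h4⟩, cf_eq (by omega), h4, pow_add, neg_one_pow_sub_one h6]
        norm_num
  · rw [if_neg h, if_neg (fun h8 => h (h7.2 h8.1)), mul_zero, Polynomial.coeff_zero]

include hg hz hn in
lemma c2_zy {a b : α} (ha : a ∈ lev' α i) (hb : b ∈ lev α i) :
    (tm i (d1 a + d1 b)).coeff ((lev α i).card - 2) = 0 := by
  have h3 := hz a ha
  have h4 := card_dn_le i a
  by_cases h : b < a
  · rw [tm_zy hg ha hb h, cf_lt (by omega)]
  · rw [tm_zy' hg ha hb h, cf_lt (by omega)]

include hg hx hn in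
lemma c2_xy {a b : α} (ha : a ∈ lev α (i + 1)) (hb : b ∈ lev α i) :
    (tm i (d1 a + d1 b)).coeff ((lev α i).card - 2) = 0 := by
  have h3 := hx a ha
  have h4 := card_up_le i a
  by_cases h : a < b
  · rw [tm_xy hg ha hb h, cf_lt (by omega)]
  · rw [tm_xy' hg ha hb h, cf_lt (by omega)]

include hg hn in
lemma c_yy {a b : α} (ha : a ∈ lev α i) (hb : b ∈ lev α i) {j : ℕ} (hj : j < (lev α i).card) :
    (tm i (d1 a + d1 b)).coeff j = 0 := by
  by_cases h : a = b
  · rw [h, d1_add_self, tm_2y hg (by norm_num) hb, cf_lt hj]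
  · rw [tm_yy hg ha hb h, cf_lt hj]

include hg hz hn in
lemma c2_2z {a : α} (ha : a ∈ lev' α i) :
    (tm i (dk 2 a)).coeff ((lev α i).card - 2) = 0 := by
  have h3 := hz a ha
  have h4 := card_dn_le i a
  rw [tm_2z hg (by norm_num) ha, cf_lt (by omega)]

include hg hx hn in
lemma c2_2x {a : α} (ha : a ∈ lev α (i + 1)) :
    (tm i (dk 2 a)).coeff ((lev α i).card - 2) = 0 := by
  have h3 := hx a ha
  have h4 := card_up_le i a
  rw [tm_2x hg (by norm_num) ha, cf_lt (by omega)]

include hg hz hn in
lemma c2_v (hD : ∀ z : α, corank z < i → ∃ y, y ⋖ z) {a b : α} (ha : a ∈ fu α i) :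
    (tm i (d1 a + d1 b)).coeff ((lev α i).card - 2) = 0 := by
  rw [mem_fu] at ha
  by_cases hab : a = b
  · rw [← hab, d1_add_self, tm, if_neg (not_good_2v hg hD (by norm_num) ha), coeff_zero]
  · rw [tm_v hg hD ha hab]
    by_cases h : VZ i a b
    · have h3 := hz b h.2.2
      have h4 := card_dn_le i b
      rw [if_pos h, cf_lt (by omega)]
    · rw [if_neg h, coeff_zero]

include hg hx hn in
lemma c2_t {a b : α} (ha : a ∈ fdn α i) :
    (tm i (d1 a + d1 b)).coeff ((lev α i).card - 2) = 0 := by
  rw [mem_fdn] at ha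
  by_cases hab : a = b
  · rw [← hab, d1_add_self, tm, if_neg (not_good_2t hg (by norm_num) ha), coeff_zero]
  · rw [tm_t hg ha hab]
    by_cases h : TX i a b
    · have h3 := hx b h.2.2
      have h4 := card_up_le i b
      rw [if_pos h, cf_lt (by omega)]
    · rw [if_neg h, coeff_zero]

/-! ### the coefficient `n - 1` -/

include hg hz in
lemma c1_zz {a b : α} (ha : a ∈ lev' α i) (hb : b ∈ lev' α i) (hab : a ≠ b) :
    (tm i (d1 a + d1 b)).coeff ((lev α i).card - 1) =
      (-1) ^ (low α i).card * (-((low α i).card - 2 : ℤ) *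
        (if (dn i a ∪ dn i b).card = 4 then 1 else 0) +
        (if (dn i a ∪ dn i b).card = 3 then 1 else 0)) := by
  have h1 : (dn i a ∪ dn i b).card ≤ (lev α i).card :=
    card_le_card (union_subset (dn_subset i a) (dn_subset i b))
  have h2 := card_union_le (dn i a) (dn i b)
  have h3 := hz a ha
  have h4 := hz b hb
  have h5 : 0 < (dn i a ∪ dn i b).card := by
    have := card_le_card (subset_union_left (s₁ := dn i a) (s₂ := dn i b))
    omega
  have h6 := low_two ha hb hab
  rw [tm_zz hg ha hb hab]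
  by_cases h : (dn i a ∪ dn i b).card = 4
  · rw [if_pos h, if_neg (by omega), cf_succ (by omega), neg_one_pow_sub_two h6, Nat.cast_sub h6]
    push_cast
    ring
  · rw [if_neg h]
    by_cases h' : (dn i a ∪ dn i b).card = 3
    · rw [if_pos h', cf_eq (by omega), neg_one_pow_sub_two h6]
      ring
    · rw [if_neg h', cf_lt (by omega)]
      ring

include hg hx in
lemma c1_xx {a b : α} (ha : a ∈ lev α (i + 1)) (hb : b ∈ lev α (i + 1)) (hab : a ≠ b) :
    (tm i (d1 a + d1 b)).coeff ((lev α i).card - 1) =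
      (-1) ^ (low α i).card * (-((low α i).card + 4 : ℤ) *
        (if (up i a ∪ up i b).card = 4 then 1 else 0) -
        (if (up i a ∪ up i b).card = 3 then 1 else 0)) := by
  have h1 : (up i a ∪ up i b).card ≤ (lev α i).card :=
    card_le_card (union_subset (up_subset i a) (up_subset i b))
  have h2 := card_union_le (up i a) (up i b)
  have h3 := hx a ha
  have h4 := hx b hb
  have h5 : 0 < (up i a ∪ up i b).card := by
    have := card_le_card (subset_union_left (s₁ := up i a) (s₂ := up i b))
    omega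
  rw [tm_xx hg ha hb hab]
  by_cases h : (up i a ∪ up i b).card = 4
  · rw [if_pos h, if_neg (by omega), cf_succ (by omega), h, pow_add]
    push_cast
    ring
  · rw [if_neg h]
    by_cases h' : (up i a ∪ up i b).card = 3
    · rw [if_pos h', cf_eq (by omega), h', pow_add]
      ring
    · rw [if_neg h', cf_lt (by omega)]
      ring

include hg hz hx in
lemma c1_zx {a b : α} (ha : a ∈ lev' α i) (hb : b ∈ lev α (i + 1)) :
    (tm i (d1 a + d1 b)).coeff ((lev α i).card - 1) =
      (-1) ^ (low α i).card * (((low α i).card + 1 : ℤ) *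
        (if (dn i a ∩ up i b).card = 0 ∧ (dn i a).card = 2 ∧
        (up i b).card = 2 then 1 else 0) +
        ((if (dn i a ∩ up i b).card = 0 ∧ (dn i a).card = 2 ∧ (up i b).card = 1 then 1 else 0) -
        (if (dn i a ∩ up i b).card = 0 ∧ (dn i a).card = 1 ∧ (up i b).card = 2
          then 1 else 0))) := by
  have h3 := hz a ha
  have h4 := hx b hb
  have h6 := low_pos ha
  have h7 : Disjoint (up i b) (dn i a) ↔ (dn i a ∩ up i b).card = 0 := by
    rw [disjoint_comm, Finset.card_eq_zero, Finset.disjoint_iff_inter_eq_empty]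
  rw [tm_zx hg ha hb]
  by_cases h : Disjoint (up i b) (dn i a)
  · have h8 := h7.1 h
    have h9 : (dn i a ∪ up i b).card ≤ (lev α i).card :=
      card_le_card (union_subset (dn_subset i a) (up_subset i b))
    have h10 := card_union_add_card_inter (dn i a) (up i b)
    rw [if_pos h]
    rcases h3 with h3 | h3
    · rcases h4 with h4 | h4
      · rw [if_neg (by omega), if_neg (by omega), if_neg (by omega), cf_lt (by omega)]
        ring
      · rw [if_neg (by omega), if_neg (by omega), if_pos (by omega), cf_eq (by omega), h4,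
          pow_add, neg_one_pow_sub_one h6]
        ring
    · rcases h4 with h4 | h4
      · rw [if_neg (by omega), if_pos (by omega), if_neg (by omega), cf_eq (by omega), h4,
          pow_add, neg_one_pow_sub_one h6]
        ring
      · rw [if_pos (by omega), if_neg (by omega), if_neg (by omega), cf_succ (by omega), h4,
          pow_add, neg_one_pow_sub_one h6]
        push_cast [Nat.cast_sub h6]
        ring
  · have h8 : ¬ (dn i a ∩ up i b).card = 0 := fun h8 => h (h7.2 h8)
    rw [if_neg h, if_neg (fun h9 => h8 h9.1), if_neg (fun h9 => h8 h9.1),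
      if_neg (fun h9 => h8 h9.1), Polynomial.coeff_zero]
    ring

include hg hz hn in
lemma c1_zy {a b : α} (ha : a ∈ lev' α i) (hb : b ∈ lev α i) :
    (tm i (d1 a + d1 b)).coeff ((lev α i).card - 1) =
      (-1) ^ (low α i).card * (dz i a * (2 * (if b < a then 1 else 0) - 1)) := by
  have h3 := hz a ha
  have h4 := card_dn_le i a
  have h6 := low_pos ha
  rw [dz]
  by_cases h : b < a
  · rw [tm_zy hg ha hb h, if_pos h]
    rcases h3 with h3 | h3
    · rw [if_neg (by omega), cf_lt (by omega)]
      ring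
    · rw [if_pos h3, cf_eq (by omega)]
      ring
  · rw [tm_zy' hg ha hb h, if_neg h]
    rcases h3 with h3 | h3
    · rw [if_neg (by omega), cf_lt (by omega)]
      ring
    · rw [if_pos h3, cf_eq (by omega), neg_one_pow_sub_one h6]
      ring

include hg hx hn in
lemma c1_xy {a b : α} (ha : a ∈ lev α (i + 1)) (hb : b ∈ lev α i) :
    (tm i (d1 a + d1 b)).coeff ((lev α i).card - 1) =
      (-1) ^ (low α i).card * (dx i a * (1 - 2 * (if a < b then 1 else 0))) := by
  have h3 := hx a ha
  have h4 := card_up_le i a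
  rw [dx]
  by_cases h : a < b
  · rw [tm_xy hg ha hb h, if_pos h]
    rcases h3 with h3 | h3
    · rw [if_neg (by omega), cf_lt (by omega)]
      ring
    · rw [if_pos h3, cf_eq (by omega), h3, pow_add]
      ring
  · rw [tm_xy' hg ha hb h, if_neg h]
    rcases h3 with h3 | h3
    · rw [if_neg (by omega), cf_lt (by omega)]
      ring
    · rw [if_pos h3, cf_eq (by omega), h3, pow_add]
      ring

include hg hz hn in
lemma c1_2z {a : α} (ha : a ∈ lev' α i) :
    (tm i (dk 2 a)).coeff ((lev α i).card - 1) = (-1) ^ (low α i).card * (- dz i a) := by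
  have h3 := hz a ha
  have h4 := card_dn_le i a
  have h6 := low_pos ha
  rw [tm_2z hg (by norm_num) ha, dz]
  rcases h3 with h3 | h3
  · rw [if_neg (by omega), cf_lt (by omega)]
    ring
  · rw [if_pos h3, cf_eq (by omega), neg_one_pow_sub_one h6]
    ring

include hg hx hn in
lemma c1_2x {a : α} (ha : a ∈ lev α (i + 1)) :
    (tm i (dk 2 a)).coeff ((lev α i).card - 1) = (-1) ^ (low α i).card * dx i a := by
  have h3 := hx a ha
  have h4 := card_up_le i a
  rw [tm_2x hg (by norm_num) ha, dx]
  rcases h3 with h3 | h3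
  · rw [if_neg (by omega), cf_lt (by omega)]
    ring
  · rw [if_pos h3, cf_eq (by omega), h3, pow_add]
    ring

include hg hz hn in
lemma c1_v (hD : ∀ z : α, corank z < i → ∃ y, y ⋖ z) {a b : α} (ha : a ∈ fu α i) :
    (tm i (d1 a + d1 b)).coeff ((lev α i).card - 1) =
      (-1) ^ (low α i).card * (- (if VZ i a b then dz i b else 0)) := by
  rw [mem_fu] at ha
  by_cases hab : a = b
  · have h1 : ¬ VZ i a b := by
      rintro ⟨h1, _⟩
      rw [hab] at h1
      exact lt_irrefl _ h1.lt
    rw [if_neg h1, ← hab, d1_add_self, tm, if_neg (not_good_2v hg hD (by norm_num) ha), coeff_zero]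
    ring
  · rw [tm_v hg hD ha hab]
    by_cases h : VZ i a b
    · have h3 := hz b h.2.2
      have h4 := card_dn_le i b
      have h6 := low_pos h.2.2
      rw [if_pos h, if_pos h, dz]
      rcases h3 with h3 | h3
      · rw [if_neg (by omega), cf_lt (by omega)]
        ring
      · rw [if_pos h3, cf_eq (by omega), neg_one_pow_sub_one h6]
        ring
    · rw [if_neg h, if_neg h, coeff_zero]
      ring

include hg hx hn in
lemma c1_t {a b : α} (ha : a ∈ fdn α i) :
    (tm i (d1 a + d1 b)).coeff ((lev α i).card - 1) =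
      (-1) ^ (low α i).card * (if TX i a b then dx i b else 0) := by
  rw [mem_fdn] at ha
  by_cases hab : a = b
  · have h1 : ¬ TX i a b := by
      rintro ⟨h1, _⟩
      rw [hab] at h1
      exact lt_irrefl _ h1.lt
    rw [if_neg h1, ← hab, d1_add_self, tm, if_neg (not_good_2t hg (by norm_num) ha), coeff_zero]
    ring
  · rw [tm_t hg ha hab]
    by_cases h : TX i a b
    · have h3 := hx b h.2.2
      have h4 := card_up_le i b
      rw [if_pos h, if_pos h, dx]
      rcases h3 with h3 | h3
      · rw [if_neg (by omega), cf_lt (by omega)]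
        ring
      · rw [if_pos h3, cf_eq (by omega), h3, pow_add]
        ring
    · rw [if_neg h, if_neg h, coeff_zero]
      ring

end coeffs

end Pool.Gauss
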