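import Pool.Agent.Gauss35.Second2

/-!
# The relations of second order: E2 and R2
-/

set_option autoImplicit false
open scoped Classical
open Finset

namespace Pool.Gauss

variable {α : Type} [Fintype α] [PartialOrder α] {i : ℕ}

open Polynomial

lemma coeff_pi_two {h : Fin (Fintype.card α) → ℕ} (hG : IsGaussianWith α h) (i j : ℕ)
    (hj : j < (lev α i).card) :
    ∑ a : α, ∑ b : α, (tm i (d1 a + d1 b)).coeff j + ∑ a : α, (tm i (dk 2 a)).coeff j = 0 := by
  have h1 := root_mult_energy hG (grad hG) i 2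
  rw [Polynomial.X_pow_dvd_iff] at h1
  have h2 := h1 j hj
  rw [Polynomial.finsetSum_coeff] at h2
  rw [← sum_pi_two (fun ε => (tm i ε).coeff j), h2, mul_zero]

lemma exists_covBy_dn {h : Fin (Fintype.card α) → ℕ} (hG : IsGaussianWith α h) (hc : Conn α)
    {w : α} (hw : w ∈ lev α i) (z : α) (hz : corank z < i) : ∃ y, y ⋖ z := by
  rw [mem_lev] at hw
  obtain ⟨y, hy, hy'⟩ := exists_lt_of_corank_lt hG hc (x := z) (w := w) (by omega)
  exact ⟨y, covBy_of_corank hy hy'⟩

lemma sum_mul_left2 {s t : Finset α} (c : ℤ) (f : α → α → ℤ) :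
    ∑ a ∈ s, ∑ b ∈ t, c * f a b = c * ∑ a ∈ s, ∑ b ∈ t, f a b := by
  rw [Finset.mul_sum]
  exact Finset.sum_congr rfl fun a _ => (Finset.mul_sum _ _ _).symm

section

variable {h : Fin (Fintype.card α) → ℕ} (hG : IsGaussianWith α h) (hc : Conn α)
  {w : α} (hw : w ∈ lev α i)

include hG hc hw in
/-- the coefficient `n - 2` -/
theorem raw_two :
    ∑ a ∈ lev' α i, ∑ b ∈ lev' α i, (if (dn i a ∪ dn i b).card = 4 then (1 : ℤ) else 0) +
    ∑ a ∈ lev α (i + 1), ∑ b ∈ lev α (i + 1), (if (up i a ∪ up i b).card = 4 then (1 : ℤ) else 0) =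
    2 * ∑ a ∈ lev' α i, ∑ b ∈ lev α (i + 1), (if (dn i a ∩ up i b).card = 0 ∧
      (dn i a).card = 2 ∧ (up i b).card = 2 then (1 : ℤ) else 0) := by
  have hg := grad hG
  obtain ⟨hz, hx, -, -⟩ := degrees hG hc hw
  have hn : 1 ≤ (lev α i).card := Finset.card_pos.2 ⟨w, hw⟩
  have hD := exists_covBy_dn hG hc hw
  have h0 := coeff_pi_two hG i ((lev α i).card - 2) (by omega)
  rw [pair_sum i _ (fun a b => by rw [add_comm]) (fun a ha b _ => c2_v hg hz hn hD ha)
    (fun a ha b _ => c2_t hg hx hn ha), sum_levels i (fun a => (tm i (dk 2 a)).coeff _)] at h0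
  have zz : ∀ a ∈ lev' α i, ∀ b ∈ lev' α i,
      (tm i (d1 a + d1 b)).coeff ((lev α i).card - 2) =
      (-1) ^ (low α i).card * (if (dn i a ∪ dn i b).card = 4 then 1 else 0) := by
    intro a ha b hb
    by_cases hab : a = b
    · have := hz a ha
      rw [← hab, union_self, if_neg (by omega), d1_add_self, c2_2z hg hz hn ha, mul_zero]
    · exact c2_zz hg hz ha hb hab
  have xx : ∀ a ∈ lev α (i + 1), ∀ b ∈ lev α (i + 1),
      (tm i (d1 a + d1 b)).coeff ((lev α i).card - 2) =
      (-1) ^ (low α i).card * (if (up i a ∪ up i b).card = 4 then 1 else 0) := by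
    intro a ha b hb
    by_cases hab : a = b
    · have := hx a ha
      rw [← hab, union_self, if_neg (by omega), d1_add_self, c2_2x hg hx hn ha, mul_zero]
    · exact c2_xx hg hx ha hb hab
  rw [Finset.sum_congr rfl (fun a ha => Finset.sum_congr rfl (fun b hb => zz a ha b hb)),
    Finset.sum_congr rfl (fun a ha => Finset.sum_congr rfl (fun b hb => xx a ha b hb)),
    Finset.sum_congr rfl (fun a ha => Finset.sum_congr rfl (fun b hb =>
      c_yy hg hn ha hb (show (lev α i).card - 2 < (lev α i).card by omega))),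
    Finset.sum_congr rfl (fun a ha => Finset.sum_congr rfl (fun b hb =>
      c2_zx hg hz hx ha hb)),
    Finset.sum_congr rfl (fun a ha => Finset.sum_congr rfl (fun b hb =>
      c2_zy hg hz hn ha hb)),
    Finset.sum_congr rfl (fun a ha => Finset.sum_congr rfl (fun b hb =>
      c2_xy hg hx hn ha hb)),
    Finset.sum_congr rfl (fun a ha => Finset.sum_congr rfl (fun b hb =>
      c2_v (b := b) hg hz hn hD ha)),
    Finset.sum_congr rfl (fun a ha => Finset.sum_congr rfl (fun b hb =>
      c2_t (b := b) hg hx hn ha)),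
    Finset.sum_congr rfl (fun a (ha : a ∈ fu α i) => show (tm i (dk 2 a)).coeff
      ((lev α i).card - 2) = 0 by
        rw [tm, if_neg (not_good_2v hg hD (by norm_num) (mem_fu.1 ha)), coeff_zero]),
    Finset.sum_congr rfl (fun a ha => c2_2z hg hz hn ha),
    Finset.sum_congr rfl (fun a (ha : a ∈ lev α i) => show (tm i (dk 2 a)).coeff
      ((lev α i).card - 2) = 0 by rw [← d1_add_self]; exact c_yy hg hn ha ha (by omega)),
    Finset.sum_congr rfl (fun a ha => c2_2x hg hx hn ha),
    Finset.sum_congr rfl (fun a (ha : a ∈ fdn α i) => show (tm i (dk 2 a)).coeff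
      ((lev α i).card - 2) = 0 by
        rw [tm, if_neg (not_good_2t hg (by norm_num) (mem_fdn.1 ha)), coeff_zero]),
    sum_mul_left2, sum_mul_left2, sum_mul_left2] at h0
  simp only [Finset.sum_const_zero, mul_zero, add_zero] at h0
  have hs : (-1 : ℤ) ^ (low α i).card ≠ 0 := pow_ne_zero _ (by norm_num)
  apply mul_left_cancel₀ hs
  linear_combination h0

omit [Fintype α] in
lemma sum_diag (s : Finset α) (g : α → ℤ) :
    ∑ a ∈ s, ∑ b ∈ s, (if a = b then g a else 0) = ∑ a ∈ s, g a := by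
  apply Finset.sum_congr rfl
  intro a ha
  rw [Finset.sum_ite_eq, if_pos ha]

lemma sum_dn (i : ℕ) (a : α) : ∑ b ∈ lev α i, (if b < a then (1 : ℤ) else 0) = (dn i a).card := by
  rw [dn, Finset.card_filter]
  push_cast
  rfl

lemma sum_up (i : ℕ) (a : α) : ∑ b ∈ lev α i, (if a < b then (1 : ℤ) else 0) = (up i a).card := by
  rw [up, Finset.card_filter]
  push_cast
  rfl

lemma sum_dz (hz : ∀ z ∈ lev' α i, (dn i z).card = 1 ∨ (dn i z).card = 2) :
    ∑ a ∈ lev' α i, ∑ b ∈ lev α i, dz i a * (2 * (if b < a then 1 else 0) - 1) =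
      (4 - (lev α i).card) * ∑ a ∈ lev' α i, dz i a := by
  rw [Finset.mul_sum]
  apply Finset.sum_congr rfl
  intro a ha
  rw [← Finset.mul_sum, Finset.sum_sub_distrib, ← Finset.mul_sum, sum_dn, Finset.sum_const,
    nsmul_eq_mul, mul_one, dz]
  rcases hz a ha with h1 | h1
  · rw [if_neg (by omega)]
    ring
  · rw [if_pos h1, h1]
    push_cast
    ring

lemma sum_dx (hx : ∀ x ∈ lev α (i + 1), (up i x).card = 1 ∨ (up i x).card = 2) :
    ∑ a ∈ lev α (i + 1), ∑ b ∈ lev α i, dx i a * (1 - 2 * (if a < b then 1 else 0)) =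
      -((4 - (lev α i).card) * ∑ a ∈ lev α (i + 1), dx i a) := by
  rw [Finset.mul_sum, ← Finset.sum_neg_distrib]
  apply Finset.sum_congr rfl
  intro a ha
  rw [← Finset.mul_sum, Finset.sum_sub_distrib, ← Finset.mul_sum, sum_up, Finset.sum_const,
    nsmul_eq_mul, mul_one, dx]
  rcases hx a ha with h1 | h1
  · rw [if_neg (by omega)]
    ring
  · rw [if_pos h1, h1]
    push_cast
    ring

include hG hc hw in
/-- equality of the numbers of double elements -/
lemma dz_eq_dx : ∑ a ∈ lev' α i, dz i a = ∑ a ∈ lev α (i + 1), dx i a := by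
  obtain ⟨h1, h2⟩ := branching hG hc hw
  have h3 : ((lev' α i).filter fun z => (dn i z).card = 2).card =
      ((lev α (i + 1)).filter fun x => (up i x).card = 2).card := by omega
  rw [Finset.card_filter, Finset.card_filter] at h3
  have h4 := congrArg (fun k : ℕ => (k : ℤ)) h3
  push_cast at h4
  exact h4

include hG hc hw in
/-- the coefficient `n - 1` -/
theorem raw_one :
    3 * ∑ a ∈ lev' α i, ∑ b ∈ lev' α i, (if (dn i a ∪ dn i b).card = 4 then (1 : ℤ) else 0) +
    ∑ a ∈ lev' α i, ∑ b ∈ lev' α i, (if (dn i a ∪ dn i b).card = 3 then (1 : ℤ) else 0) -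
    3 * ∑ a ∈ lev α (i + 1), ∑ b ∈ lev α (i + 1),
      (if (up i a ∪ up i b).card = 4 then (1 : ℤ) else 0) -
    ∑ a ∈ lev α (i + 1), ∑ b ∈ lev α (i + 1), (if (up i a ∪ up i b).card = 3 then (1 : ℤ) else 0) +
    2 * ∑ a ∈ lev' α i, ∑ b ∈ lev α (i + 1),
      ((if (dn i a ∩ up i b).card = 0 ∧ (dn i a).card = 2 ∧ (up i b).card = 1 then (1 : ℤ) else 0) -
      (if (dn i a ∩ up i b).card = 0 ∧ (dn i a).card = 1 ∧ (up i b).card = 2
          then (1 : ℤ) else 0)) -
    2 * ∑ a ∈ fu α i, ∑ b ∈ lev' α i, (if VZ i a b then dz i b else 0) +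
    2 * ∑ a ∈ fdn α i, ∑ b ∈ lev α (i + 1), (if TX i a b then dx i b else 0) = 0 := by
  have hr := raw_two hG hc hw
  have hm := dz_eq_dx hG hc hw
  have hg := grad hG
  obtain ⟨hz, hx, -, -⟩ := degrees hG hc hw
  have hn : 1 ≤ (lev α i).card := Finset.card_pos.2 ⟨w, hw⟩
  have hD := exists_covBy_dn hG hc hw
  have h0 := coeff_pi_two hG i ((lev α i).card - 1) (by omega)
  rw [pair_sum i _ (fun a b => by rw [add_comm])
    (fun a ha b hb => by
      rw [c1_v hg hz hn hD ha, if_neg (fun h1 => hb h1.2.2), neg_zero, mul_zero])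
    (fun a ha b hb => by
      rw [c1_t hg hx hn ha, if_neg (fun h1 => hb h1.2.2), mul_zero]),
    sum_levels i (fun a => (tm i (dk 2 a)).coeff _)] at h0
  have zz : ∀ a ∈ lev' α i, ∀ b ∈ lev' α i,
      (tm i (d1 a + d1 b)).coeff ((lev α i).card - 1) =
      (-1) ^ (low α i).card * (-((low α i).card - 2 : ℤ) *
        (if (dn i a ∪ dn i b).card = 4 then 1 else 0) +
        (if (dn i a ∪ dn i b).card = 3 then 1 else 0) + (if a = b then - dz i a else 0)) := by
    intro a ha b hb
    by_cases hab : a = b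
    · have := hz a ha
      rw [if_pos hab, ← hab, union_self, if_neg (by omega), if_neg (by omega), d1_add_self,
        c1_2z hg hz hn ha]
      ring
    · rw [if_neg hab, c1_zz hg hz ha hb hab]
      ring
  have xx : ∀ a ∈ lev α (i + 1), ∀ b ∈ lev α (i + 1),
      (tm i (d1 a + d1 b)).coeff ((lev α i).card - 1) =
      (-1) ^ (low α i).card * (-((low α i).card + 4 : ℤ) *
        (if (up i a ∪ up i b).card = 4 then 1 else 0) -
        (if (up i a ∪ up i b).card = 3 then 1 else 0) + (if a = b then dx i a else 0)) := by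
    intro a ha b hb
    by_cases hab : a = b
    · have := hx a ha
      rw [if_pos hab, ← hab, union_self, if_neg (by omega), if_neg (by omega), d1_add_self,
        c1_2x hg hx hn ha]
      ring
    · rw [if_neg hab, c1_xx hg hx ha hb hab]
      ring
  rw [Finset.sum_congr rfl (fun a ha => Finset.sum_congr rfl (fun b hb => zz a ha b hb)),
    Finset.sum_congr rfl (fun a ha => Finset.sum_congr rfl (fun b hb => xx a ha b hb)),
    Finset.sum_congr rfl (fun a ha => Finset.sum_congr rfl (fun b hb =>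
      c_yy hg hn ha hb (show (lev α i).card - 1 < (lev α i).card by omega))),
    Finset.sum_congr rfl (fun a ha => Finset.sum_congr rfl (fun b hb =>
      c1_zx hg hz hx ha hb)),
    Finset.sum_congr rfl (fun a ha => Finset.sum_congr rfl (fun b hb =>
      c1_zy hg hz hn ha hb)),
    Finset.sum_congr rfl (fun a ha => Finset.sum_congr rfl (fun b hb =>
      c1_xy hg hx hn ha hb)),
    Finset.sum_congr rfl (fun a ha => Finset.sum_congr rfl (fun b hb =>
      c1_v (b := b) hg hz hn hD ha)),
    Finset.sum_congr rfl (fun a ha => Finset.sum_congr rfl (fun b hb =>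
      c1_t (b := b) hg hx hn ha)),
    Finset.sum_congr rfl (fun a (ha : a ∈ fu α i) => show (tm i (dk 2 a)).coeff
      ((lev α i).card - 1) = 0 by
        rw [tm, if_neg (not_good_2v hg hD (by norm_num) (mem_fu.1 ha)), coeff_zero]),
    Finset.sum_congr rfl (fun a ha => c1_2z hg hz hn ha),
    Finset.sum_congr rfl (fun a (ha : a ∈ lev α i) => show (tm i (dk 2 a)).coeff
      ((lev α i).card - 1) = 0 by rw [← d1_add_self]; exact c_yy hg hn ha ha (by omega)),
    Finset.sum_congr rfl (fun a ha => c1_2x hg hx hn ha),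
    Finset.sum_congr rfl (fun a (ha : a ∈ fdn α i) => show (tm i (dk 2 a)).coeff
      ((lev α i).card - 1) = 0 by
        rw [tm, if_neg (not_good_2t hg (by norm_num) (mem_fdn.1 ha)), coeff_zero]),
    sum_mul_left2, sum_mul_left2, sum_mul_left2, sum_mul_left2, sum_mul_left2, sum_mul_left2,
    sum_mul_left2, sum_dz hz, sum_dx hx, ← Finset.mul_sum, ← Finset.mul_sum] at h0
  simp only [Finset.sum_const_zero, mul_zero, add_zero, zero_add, Finset.sum_add_distrib,
    Finset.sum_sub_distrib, sum_diag, Finset.sum_neg_distrib, ← Finset.mul_sum] at h0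
  simp only [Finset.sum_sub_distrib]
  have hs : (-1 : ℤ) ^ (low α i).card ≠ 0 := pow_ne_zero _ (by norm_num)
  apply mul_left_cancel₀ hs
  rw [hm] at h0
  linear_combination h0 + (-1 : ℤ) ^ (low α i).card * ((low α i).card + 1) * hr

end

end Pool.Gauss
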