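import Pool.Agent.Gauss35.Second3

/-!
# The relations of second order: final forms
-/

set_option autoImplicit false
open scoped Classical
open Finset

namespace Pool.Gauss

variable {α : Type} [Fintype α] [PartialOrder α] {i : ℕ}

/-- number of elements above `y` in level `i - 1` which cover two elements -/
noncomputable def aZ (i : ℕ) (y : α) : ℤ := ∑ z ∈ lev' α i, dz i z * (if y < z then 1 else 0)

/-- number of upper covers of `y` -/
noncomputable def cZ (i : ℕ) (y : α) : ℤ := ∑ z ∈ lev' α i, (if y < z then 1 else 0)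

/-- number of elements below `y` in level `i + 1` which are covered by two elements -/
noncomputable def bX (i : ℕ) (y : α) : ℤ := ∑ x ∈ lev α (i + 1), dx i x * (if x < y then 1 else 0)

/-- number of lower covers of `y` -/
noncomputable def dX (i : ℕ) (y : α) : ℤ := ∑ x ∈ lev α (i + 1), (if x < y then 1 else 0)

lemma card_inter_eq {R S : Finset α} (hR : R ⊆ lev α i) : ((R ∩ S).card : ℤ) =
    ∑ y ∈ lev α i, (if y ∈ R then 1 else 0) * (if y ∈ S then 1 else 0) := by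
  have h1 : R ∩ S = (lev α i).filter (fun y => y ∈ R ∧ y ∈ S) := by
    ext y
    rw [mem_inter, mem_filter]
    exact ⟨fun h => ⟨hR h.1, h⟩, fun h => h.2⟩
  rw [h1, Finset.card_filter]
  push_cast
  apply Finset.sum_congr rfl
  intro y _
  by_cases h2 : y ∈ R <;> by_cases h3 : y ∈ S <;> simp [h2, h3]

lemma double_count (s t : Finset α) (f g : α → ℤ) (R S : α → Finset α)
    (hR : ∀ a, R a ⊆ lev α i) :
    ∑ a ∈ s, ∑ b ∈ t, f a * g b * ((R a ∩ S b).card : ℤ) =
      ∑ y ∈ lev α i, (∑ a ∈ s, f a * (if y ∈ R a then 1 else 0)) *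
        (∑ b ∈ t, g b * (if y ∈ S b then 1 else 0)) := by
  have h1 : ∀ a b, f a * g b * ((R a ∩ S b).card : ℤ) =
      ∑ y ∈ lev α i, (f a * (if y ∈ R a then 1 else 0)) * (g b * (if y ∈ S b then 1 else 0)) := by
    intro a b
    rw [card_inter_eq (hR a), Finset.mul_sum]
    apply Finset.sum_congr rfl
    intro y _
    ring
  simp only [h1]
  rw [Finset.sum_congr rfl (fun a _ => Finset.sum_comm), Finset.sum_comm]
  apply Finset.sum_congr rfl
  intro y _
  rw [Finset.sum_mul_sum]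

lemma aZ_eq {y : α} (hy : y ∈ lev α i) :
    ∑ a ∈ lev' α i, dz i a * (if y ∈ dn i a then 1 else 0) = aZ i y := by
  rw [aZ]
  apply Finset.sum_congr rfl
  intro z _
  simp only [mem_dn', hy, true_and]

lemma cZ_eq {y : α} (hy : y ∈ lev α i) :
    ∑ a ∈ lev' α i, 1 * (if y ∈ dn i a then (1 : ℤ) else 0) = cZ i y := by
  rw [cZ]
  apply Finset.sum_congr rfl
  intro z _
  simp only [mem_dn', hy, true_and, one_mul]

lemma bX_eq {y : α} (hy : y ∈ lev α i) :
    ∑ a ∈ lev α (i + 1), dx i a * (if y ∈ up i a then 1 else 0) = bX i y := by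
  rw [bX]
  apply Finset.sum_congr rfl
  intro z _
  simp only [mem_up', hy, true_and]

lemma dX_eq {y : α} (hy : y ∈ lev α i) :
    ∑ a ∈ lev α (i + 1), 1 * (if y ∈ up i a then (1 : ℤ) else 0) = dX i y := by
  rw [dX]
  apply Finset.sum_congr rfl
  intro z _
  simp only [mem_up', hy, true_and, one_mul]

lemma dc_zz : ∑ a ∈ lev' α i, ∑ b ∈ lev' α i, dz i a * dz i b * ((dn i a ∩ dn i b).card : ℤ) =
    ∑ y ∈ lev α i, aZ i y * aZ i y := by
  rw [double_count _ _ _ _ _ _ (dn_subset i)]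
  exact Finset.sum_congr rfl fun y hy => by rw [aZ_eq hy]

lemma dc_xx : ∑ a ∈ lev α (i + 1), ∑ b ∈ lev α (i + 1),
    dx i a * dx i b * ((up i a ∩ up i b).card : ℤ) = ∑ y ∈ lev α i, bX i y * bX i y := by
  rw [double_count _ _ _ _ _ _ (up_subset i)]
  exact Finset.sum_congr rfl fun y hy => by rw [bX_eq hy]

lemma dc_zx : ∑ a ∈ lev' α i, ∑ b ∈ lev α (i + 1),
    dz i a * dx i b * ((dn i a ∩ up i b).card : ℤ) = ∑ y ∈ lev α i, aZ i y * bX i y := by
  rw [double_count _ _ _ _ _ _ (dn_subset i)]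
  exact Finset.sum_congr rfl fun y hy => by rw [aZ_eq hy, bX_eq hy]

lemma dc_zz1 : ∑ a ∈ lev' α i, ∑ b ∈ lev' α i, dz i a * 1 * ((dn i a ∩ dn i b).card : ℤ) =
    ∑ y ∈ lev α i, aZ i y * cZ i y := by
  rw [double_count _ _ _ (fun _ => 1) _ _ (dn_subset i)]
  exact Finset.sum_congr rfl fun y hy => by rw [aZ_eq hy, cZ_eq hy]

lemma dc_z1z : ∑ a ∈ lev' α i, ∑ b ∈ lev' α i, 1 * dz i b * ((dn i a ∩ dn i b).card : ℤ) =
    ∑ y ∈ lev α i, aZ i y * cZ i y := by
  rw [double_count _ _ (fun _ => 1) _ _ _ (dn_subset i)]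
  exact Finset.sum_congr rfl fun y hy => by rw [aZ_eq hy, cZ_eq hy, mul_comm]

lemma dc_xx1 : ∑ a ∈ lev α (i + 1), ∑ b ∈ lev α (i + 1),
    dx i a * 1 * ((up i a ∩ up i b).card : ℤ) = ∑ y ∈ lev α i, bX i y * dX i y := by
  rw [double_count _ _ _ (fun _ => 1) _ _ (up_subset i)]
  exact Finset.sum_congr rfl fun y hy => by rw [bX_eq hy, dX_eq hy]

lemma dc_x1x : ∑ a ∈ lev α (i + 1), ∑ b ∈ lev α (i + 1),
    1 * dx i b * ((up i a ∩ up i b).card : ℤ) = ∑ y ∈ lev α i, bX i y * dX i y := by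
  rw [double_count _ _ (fun _ => 1) _ _ _ (up_subset i)]
  exact Finset.sum_congr rfl fun y hy => by rw [bX_eq hy, dX_eq hy, mul_comm]

lemma dc_zx1 : ∑ a ∈ lev' α i, ∑ b ∈ lev α (i + 1),
    dz i a * 1 * ((dn i a ∩ up i b).card : ℤ) = ∑ y ∈ lev α i, aZ i y * dX i y := by
  rw [double_count _ _ _ (fun _ => 1) _ _ (dn_subset i)]
  exact Finset.sum_congr rfl fun y hy => by rw [aZ_eq hy, dX_eq hy]

lemma dc_1zx : ∑ a ∈ lev' α i, ∑ b ∈ lev α (i + 1),
    1 * dx i b * ((dn i a ∩ up i b).card : ℤ) = ∑ y ∈ lev α i, cZ i y * bX i y := by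
  rw [double_count _ _ (fun _ => 1) _ _ _ (dn_subset i)]
  exact Finset.sum_congr rfl fun y hy => by rw [cZ_eq hy, bX_eq hy]

/-- number of ordered pairs of elements above sharing two lower covers (diagonal included) -/
noncomputable def eZZ (α : Type) [Fintype α] [PartialOrder α] (i : ℕ) : ℤ :=
  ∑ a ∈ lev' α i, ∑ b ∈ lev' α i, (if (dn i a ∩ dn i b).card = 2 then 1 else 0)

/-- number of ordered pairs of elements below sharing two upper covers (diagonal included) -/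
noncomputable def eXX (α : Type) [Fintype α] [PartialOrder α] (i : ℕ) : ℤ :=
  ∑ a ∈ lev α (i + 1), ∑ b ∈ lev α (i + 1), (if (up i a ∩ up i b).card = 2 then 1 else 0)

/-- number of pairs `(z, x)` sharing two elements -/
noncomputable def eZX (α : Type) [Fintype α] [PartialOrder α] (i : ℕ) : ℤ :=
  ∑ a ∈ lev' α i, ∑ b ∈ lev α (i + 1), (if (dn i a ∩ up i b).card = 2 then 1 else 0)

section

variable {h : Fin (Fintype.card α) → ℕ} (hG : IsGaussianWith α h) (hc : Conn α)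
  {w : α} (hw : w ∈ lev α i)

include hG hc hw in
/-- **E2** -/
theorem rel_E2 : ∑ y ∈ lev α i, (aZ i y - bX i y) ^ 2 = eZZ α i + eXX α i - 2 * eZX α i := by
  have h0 := raw_two hG hc hw
  obtain ⟨hz, hx, -, -⟩ := degrees hG hc hw
  have hm := dz_eq_dx hG hc hw
  have zz : ∀ a ∈ lev' α i, ∀ b ∈ lev' α i, (if (dn i a ∪ dn i b).card = 4 then (1 : ℤ) else 0) =
      dz i a * dz i b - dz i a * dz i b * ((dn i a ∩ dn i b).card : ℤ) +
      (if (dn i a ∩ dn i b).card = 2 then 1 else 0) := by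
    intro a ha b hb
    rw [(two_sets (dn i a) (dn i b) (hz a ha) (hz b hb)).1, dz, dz]
    ring
  have xx : ∀ a ∈ lev α (i + 1), ∀ b ∈ lev α (i + 1),
      (if (up i a ∪ up i b).card = 4 then (1 : ℤ) else 0) =
      dx i a * dx i b - dx i a * dx i b * ((up i a ∩ up i b).card : ℤ) +
      (if (up i a ∩ up i b).card = 2 then 1 else 0) := by
    intro a ha b hb
    rw [(two_sets (up i a) (up i b) (hx a ha) (hx b hb)).1, dx, dx]
    ring
  have zx : ∀ a ∈ lev' α i, ∀ b ∈ lev α (i + 1),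
      (if (dn i a ∩ up i b).card = 0 ∧ (dn i a).card = 2 ∧ (up i b).card = 2 then (1 : ℤ) else 0) =
      dz i a * dx i b - dz i a * dx i b * ((dn i a ∩ up i b).card : ℤ) +
      (if (dn i a ∩ up i b).card = 2 then 1 else 0) := by
    intro a ha b hb
    rw [(two_sets (dn i a) (up i b) (hz a ha) (hx b hb)).2.2.1, dz, dx]
    ring
  rw [Finset.sum_congr rfl (fun a ha => Finset.sum_congr rfl (fun b hb => zz a ha b hb)),
    Finset.sum_congr rfl (fun a ha => Finset.sum_congr rfl (fun b hb => xx a ha b hb)),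
    Finset.sum_congr rfl (fun a ha => Finset.sum_congr rfl (fun b hb => zx a ha b hb))] at h0
  simp only [Finset.sum_add_distrib, Finset.sum_sub_distrib] at h0
  rw [dc_zz, dc_xx, dc_zx, ← Finset.sum_mul_sum, ← Finset.sum_mul_sum, ← Finset.sum_mul_sum,
    hm] at h0
  have h1 : ∑ y ∈ lev α i, (aZ i y - bX i y) ^ 2 = ∑ y ∈ lev α i, aZ i y * aZ i y +
      ∑ y ∈ lev α i, bX i y * bX i y - 2 * ∑ y ∈ lev α i, aZ i y * bX i y := by
    rw [Finset.mul_sum, ← Finset.sum_add_distrib, ← Finset.sum_sub_distrib]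
    apply Finset.sum_congr rfl
    intro y _
    ring
  rw [h1, eZZ, eXX, eZX]
  linear_combination - h0

include hG hc hw in
/-- **R2** -/
theorem rel_R2 : eZZ α i - eXX α i =
    2 * ∑ y ∈ lev α i, (aZ i y - bX i y) * (cZ i y + dX i y) +
    2 * ∑ a ∈ fu α i, ∑ b ∈ lev' α i, (if VZ i a b then dz i b else 0) -
    2 * ∑ a ∈ fdn α i, ∑ b ∈ lev α (i + 1), (if TX i a b then dx i b else 0) := by
  have h0 := raw_one hG hc hw
  obtain ⟨hz, hx, -, -⟩ := degrees hG hc hw
  have hm := dz_eq_dx hG hc hw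
  have zz : 3 * ∑ a ∈ lev' α i, ∑ b ∈ lev' α i,
      (if (dn i a ∪ dn i b).card = 4 then (1 : ℤ) else 0) +
      ∑ a ∈ lev' α i, ∑ b ∈ lev' α i, (if (dn i a ∪ dn i b).card = 3 then (1 : ℤ) else 0) =
      (∑ a ∈ lev' α i, dz i a) ^ 2 + 2 * (lev' α i).card * (∑ a ∈ lev' α i, dz i a) -
      2 * ∑ y ∈ lev α i, aZ i y * cZ i y + eZZ α i := by
    rw [eZZ, two_mul (∑ y ∈ lev α i, aZ i y * cZ i y)]
    nth_rw 1 [← dc_zz1]
    rw [← dc_z1z, Finset.mul_sum, ← Finset.sum_add_distrib]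
    have e1 : (∑ a ∈ lev' α i, dz i a) ^ 2 = ∑ a ∈ lev' α i, ∑ b ∈ lev' α i, dz i a * dz i b := by
      rw [sq, Finset.sum_mul_sum]
    have e2 : 2 * ((lev' α i).card : ℤ) * (∑ a ∈ lev' α i, dz i a) =
        ∑ a ∈ lev' α i, ∑ b ∈ lev' α i, (dz i a + dz i b) := by
      simp only [Finset.sum_add_distrib, Finset.sum_const, nsmul_eq_mul, ← Finset.mul_sum]
      ring
    rw [e1, e2, ← Finset.sum_add_distrib, ← Finset.sum_add_distrib, ← Finset.sum_sub_distrib,
      ← Finset.sum_add_distrib]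
    apply Finset.sum_congr rfl
    intro a ha
    rw [Finset.mul_sum, ← Finset.sum_add_distrib, ← Finset.sum_add_distrib,
      ← Finset.sum_add_distrib, ← Finset.sum_sub_distrib, ← Finset.sum_add_distrib]
    apply Finset.sum_congr rfl
    intro b hb
    obtain ⟨t1, t2, -, -⟩ := two_sets (dn i a) (dn i b) (hz a ha) (hz b hb)
    rw [t1, t2, dz, dz]
    ring
  have xx : 3 * ∑ a ∈ lev α (i + 1), ∑ b ∈ lev α (i + 1),
      (if (up i a ∪ up i b).card = 4 then (1 : ℤ) else 0) +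
      ∑ a ∈ lev α (i + 1), ∑ b ∈ lev α (i + 1),
      (if (up i a ∪ up i b).card = 3 then (1 : ℤ) else 0) =
      (∑ a ∈ lev α (i + 1), dx i a) ^ 2 +
      2 * (lev α (i + 1)).card * (∑ a ∈ lev α (i + 1), dx i a) -
      2 * ∑ y ∈ lev α i, bX i y * dX i y + eXX α i := by
    rw [eXX, two_mul (∑ y ∈ lev α i, bX i y * dX i y)]
    nth_rw 1 [← dc_xx1]
    rw [← dc_x1x, Finset.mul_sum, ← Finset.sum_add_distrib]
    have e1 : (∑ a ∈ lev α (i + 1), dx i a) ^ 2 =
        ∑ a ∈ lev α (i + 1), ∑ b ∈ lev α (i + 1), dx i a * dx i b := by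
      rw [sq, Finset.sum_mul_sum]
    have e2 : 2 * ((lev α (i + 1)).card : ℤ) * (∑ a ∈ lev α (i + 1), dx i a) =
        ∑ a ∈ lev α (i + 1), ∑ b ∈ lev α (i + 1), (dx i a + dx i b) := by
      simp only [Finset.sum_add_distrib, Finset.sum_const, nsmul_eq_mul, ← Finset.mul_sum]
      ring
    rw [e1, e2, ← Finset.sum_add_distrib, ← Finset.sum_add_distrib, ← Finset.sum_sub_distrib,
      ← Finset.sum_add_distrib]
    apply Finset.sum_congr rfl
    intro a ha
    rw [Finset.mul_sum, ← Finset.sum_add_distrib, ← Finset.sum_add_distrib,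
      ← Finset.sum_add_distrib, ← Finset.sum_sub_distrib, ← Finset.sum_add_distrib]
    apply Finset.sum_congr rfl
    intro b hb
    obtain ⟨t1, t2, -, -⟩ := two_sets (up i a) (up i b) (hx a ha) (hx b hb)
    rw [t1, t2, dx, dx]
    ring
  have zx : ∑ a ∈ lev' α i, ∑ b ∈ lev α (i + 1),
      ((if (dn i a ∩ up i b).card = 0 ∧ (dn i a).card = 2 ∧ (up i b).card = 1 then (1 : ℤ) else 0) -
      (if (dn i a ∩ up i b).card = 0 ∧ (dn i a).card = 1 ∧ (up i b).card = 2
          then (1 : ℤ) else 0)) =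
      (lev α (i + 1)).card * (∑ a ∈ lev' α i, dz i a) -
      (lev' α i).card * (∑ a ∈ lev α (i + 1), dx i a) - ∑ y ∈ lev α i, aZ i y * dX i y +
      ∑ y ∈ lev α i, cZ i y * bX i y := by
    rw [← dc_zx1, ← dc_1zx]
    have e2 : ((lev α (i + 1)).card : ℤ) * (∑ a ∈ lev' α i, dz i a) -
        ((lev' α i).card : ℤ) * (∑ a ∈ lev α (i + 1), dx i a) =
        ∑ a ∈ lev' α i, ∑ b ∈ lev α (i + 1), (dz i a - dx i b) := by
      simp only [Finset.sum_sub_distrib, Finset.sum_const, nsmul_eq_mul, ← Finset.mul_sum]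
    rw [e2, ← Finset.sum_sub_distrib, ← Finset.sum_add_distrib]
    apply Finset.sum_congr rfl
    intro a ha
    rw [← Finset.sum_sub_distrib, ← Finset.sum_add_distrib]
    apply Finset.sum_congr rfl
    intro b hb
    rw [(two_sets (dn i a) (up i b) (hz a ha) (hx b hb)).2.2.2, dz, dx]
    ring
  have h1 : ∑ y ∈ lev α i, (aZ i y - bX i y) * (cZ i y + dX i y) =
      ∑ y ∈ lev α i, aZ i y * cZ i y + ∑ y ∈ lev α i, aZ i y * dX i y -
      ∑ y ∈ lev α i, cZ i y * bX i y - ∑ y ∈ lev α i, bX i y * dX i y := by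
    rw [← Finset.sum_add_distrib, ← Finset.sum_sub_distrib, ← Finset.sum_sub_distrib]
    apply Finset.sum_congr rfl
    intro y _
    ring
  rw [zx] at h0
  rw [hm] at zz h0
  rw [h1]
  linear_combination h0 - zz + xx

end

end Pool.Gauss
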