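import Pool.Agent.Gauss35.Second4

/-!
# The relations of second order: the telescoped form E1
-/

set_option autoImplicit false
open scoped Classical
open Finset

namespace Pool.Gauss

variable {α : Type} [Fintype α] [PartialOrder α] {i : ℕ}

/-- number of pairs `y < z`, `z ∈ R_{i-1}`, `y ∈ R_i`, where `y` is the unique lower cover of `z`
and `y` has two lower covers -/
noncomputable def qq (α : Type) [Fintype α] [PartialOrder α] (i : ℕ) : ℤ :=
  ∑ z ∈ lev' α i, ∑ y ∈ lev α i,
    (if y < z ∧ (dn i z).card = 1 ∧ (dn (i + 1) y).card = 2 then 1 else 0)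

/-- number of pairs `t < x`, `t ∈ R_{i+2}`, `x ∈ R_{i+1}`, where `x` is the unique upper cover of
`t` and `x` has two upper covers -/
noncomputable def pp (α : Type) [Fintype α] [PartialOrder α] (i : ℕ) : ℤ :=
  ∑ t ∈ lev α (i + 2), ∑ x ∈ lev α (i + 1),
    (if t < x ∧ (up (i + 1) t).card = 1 ∧ (up i x).card = 2 then 1 else 0)

/-- number of isolated edges between `R_i` and `R_{i+1}` -/
noncomputable def ee (α : Type) [Fintype α] [PartialOrder α] (i : ℕ) : ℤ :=
  ∑ x ∈ lev α (i + 1), ∑ y ∈ lev α i,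
    (if x < y ∧ (up i x).card = 1 ∧ (dn (i + 1) y).card = 1 then 1 else 0)

/-- twice the number of four-cycles between `R_i` and `R_{i+1}` -/
noncomputable def ff (α : Type) [Fintype α] [PartialOrder α] (i : ℕ) : ℤ :=
  ∑ a ∈ lev α (i + 1), ∑ b ∈ lev α (i + 1),
    (if a ≠ b ∧ (up i a ∩ up i b).card = 2 then 1 else 0)

lemma lev'_succ (k : ℕ) : lev' α (k + 1) = lev α k := by
  ext x
  rw [mem_lev', mem_lev]
  omega

lemma sum_v (hg : Grad α) (k : ℕ) :
    ∑ a ∈ fu α (k + 1), ∑ b ∈ lev' α (k + 1), (if VZ (k + 1) a b then dz (k + 1) b else 0) =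
      qq α k := by
  rw [lev'_succ, qq]
  symm
  rw [← Finset.sum_subset (s₁ := lev' α k) (s₂ := fu α (k + 1))]
  · apply Finset.sum_congr rfl
    intro z hz
    apply Finset.sum_congr rfl
    intro y hy
    have hyz : y ∈ dn k z ↔ y < z := by rw [mem_dn', and_iff_right hy]
    have h1 : VZ (k + 1) z y ↔ y < z ∧ (dn k z).card = 1 := by
      constructor
      · rintro ⟨h1, h2, h3⟩
        refine ⟨h1.lt, ?_⟩
        rw [Finset.card_eq_one]
        refine ⟨y, ?_⟩
        ext u
        rw [mem_dn_iff hg hz, mem_singleton]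
        exact ⟨h2 u, fun h => h ▸ h1⟩
      · rintro ⟨h1, h2⟩
        obtain ⟨u, hu⟩ := Finset.card_eq_one.1 h2
        have h3 := hyz.2 h1
        rw [hu, mem_singleton] at h3
        refine ⟨(mem_dn_iff hg hz).1 (hyz.2 h1), ?_, ?_⟩
        · intro v hv
          have := (mem_dn_iff hg hz).2 hv
          rw [hu, mem_singleton] at this
          rw [this, h3]
        · rw [lev'_succ]
          exact hy
    rw [dz]
    by_cases h2 : VZ (k + 1) z y
    · rw [if_pos h2]
      have h3 := h1.1 h2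
      by_cases h4 : (dn (k + 1) y).card = 2
      · rw [if_pos h4, if_pos ⟨h3.1, h3.2, h4⟩]
      · rw [if_neg h4, if_neg (fun h => h4 h.2.2)]
    · rw [if_neg h2, if_neg (fun h => h2 (h1.2 ⟨h.1, h.2.1⟩))]
  · intro z hz
    rw [mem_lev'] at hz
    rw [mem_fu]
    omega
  · intro a ha ha'
    apply Finset.sum_eq_zero
    intro b hb
    rw [if_neg]
    rintro ⟨h1, -, -⟩
    have := hg b a h1
    rw [mem_lev] at hb
    rw [mem_lev'] at ha'
    omega

lemma sum_t (hg : Grad α) (k : ℕ) :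
    ∑ a ∈ fdn α (k + 1), ∑ b ∈ lev α (k + 1 + 1), (if TX (k + 1) a b then dx (k + 1) b else 0) =
      pp α (k + 1) := by
  rw [pp]
  symm
  rw [← Finset.sum_subset (s₁ := lev α (k + 1 + 2)) (s₂ := fdn α (k + 1))]
  · apply Finset.sum_congr rfl
    intro t ht
    have ht' : t ∈ lev α (k + 1 + 1 + 1) := ht
    apply Finset.sum_congr rfl
    intro x hx
    have hxt : x ∈ up (k + 1 + 1) t ↔ t < x := by rw [mem_up', and_iff_right hx]
    have h1 : TX (k + 1) t x ↔ t < x ∧ (up (k + 1 + 1) t).card = 1 := by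
      constructor
      · rintro ⟨h1, h2, h3⟩
        refine ⟨h1.lt, ?_⟩
        rw [Finset.card_eq_one]
        refine ⟨x, ?_⟩
        ext u
        rw [mem_up_iff hg ht', mem_singleton]
        exact ⟨h2 u, fun h => h ▸ h1⟩
      · rintro ⟨h1, h2⟩
        obtain ⟨u, hu⟩ := Finset.card_eq_one.1 h2
        have h3 := hxt.2 h1
        rw [hu, mem_singleton] at h3
        refine ⟨(mem_up_iff hg ht').1 (hxt.2 h1), ?_, hx⟩
        intro v hv
        have := (mem_up_iff hg ht').2 hv
        rw [hu, mem_singleton] at this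
        rw [this, h3]
    rw [dx]
    by_cases h2 : TX (k + 1) t x
    · rw [if_pos h2]
      have h3 := h1.1 h2
      by_cases h4 : (up (k + 1) x).card = 2
      · rw [if_pos h4, if_pos ⟨h3.1, h3.2, h4⟩]
      · rw [if_neg h4, if_neg (fun h => h4 h.2.2)]
    · rw [if_neg h2, if_neg (fun h => h2 (h1.2 ⟨h.1, h.2.1⟩))]
  · intro z hz
    rw [mem_lev] at hz
    rw [mem_fdn]
    omega
  · intro a ha ha'
    apply Finset.sum_eq_zero
    intro b hb
    rw [if_neg]
    rintro ⟨h1, -, -⟩
    have := hg a b h1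
    rw [mem_lev] at hb ha'
    omega

lemma cZ_card (k : ℕ) (y : α) : cZ (k + 1) y = (up k y).card := by
  rw [cZ, lev'_succ, sum_up]

lemma dX_card (i : ℕ) (y : α) : dX i y = (dn (i + 1) y).card := by
  rw [dX, sum_dn]

lemma sum_aZ (hz : ∀ z ∈ lev' α i, (dn i z).card = 1 ∨ (dn i z).card = 2) :
    ∑ y ∈ lev α i, aZ i y = 2 * ∑ z ∈ lev' α i, dz i z := by
  simp only [aZ]
  rw [Finset.sum_comm, Finset.mul_sum]
  apply Finset.sum_congr rfl
  intro z hz'
  rw [← Finset.mul_sum, sum_dn, dz]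
  rcases hz z hz' with h | h <;> rw [h] <;> norm_num

lemma sum_bX (hx : ∀ x ∈ lev α (i + 1), (up i x).card = 1 ∨ (up i x).card = 2) :
    ∑ y ∈ lev α i, bX i y = 2 * ∑ x ∈ lev α (i + 1), dx i x := by
  simp only [bX]
  rw [Finset.sum_comm, Finset.mul_sum]
  apply Finset.sum_congr rfl
  intro z hz'
  rw [← Finset.mul_sum, sum_up, dx]
  rcases hx z hz' with h | h <;> rw [h] <;> norm_num

/-- indicator of degree one -/
lemma c_sub_a (hz : ∀ z ∈ lev' α i, (dn i z).card = 1 ∨ (dn i z).card = 2) (y : α) :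
    cZ i y - aZ i y =
      ∑ z ∈ lev' α i, (if (dn i z).card = 1 then 1 else 0) * (if y < z then 1 else 0) := by
  rw [cZ, aZ, ← Finset.sum_sub_distrib]
  apply Finset.sum_congr rfl
  intro z hz'
  rw [dz]
  rcases hz z hz' with h | h <;> rw [h] <;> norm_num

lemma d_sub_b (hx : ∀ x ∈ lev α (i + 1), (up i x).card = 1 ∨ (up i x).card = 2) (y : α) :
    dX i y - bX i y =
      ∑ x ∈ lev α (i + 1), (if (up i x).card = 1 then 1 else 0) * (if x < y then 1 else 0) := by
  rw [dX, bX, ← Finset.sum_sub_distrib]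
  apply Finset.sum_congr rfl
  intro z hz'
  rw [dx]
  rcases hx z hz' with h | h <;> rw [h] <;> norm_num

end Pool.Gauss
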