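import Pool.Agent.Gauss35.Second5

/-!
# The relation E1
-/

set_option autoImplicit false
open scoped Classical
open Finset

namespace Pool.Gauss

variable {α : Type} [Fintype α] [PartialOrder α] {i : ℕ}

lemma pointwise_S {a b c d : ℤ} {C D : ℕ} (hc : c = C) (hd : d = D) (hC : C = 1 ∨ C = 2)
    (hD : D = 1 ∨ D = 2) : (a - b) * (c + d) = 3 * (a - b) +
      (d - b) * (if C = 2 then 1 else 0) - (d - b) * (if D = 1 then 1 else 0) +
      (c - a) * (if C = 1 then 1 else 0) - (c - a) * (if D = 2 then 1 else 0) := by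
  subst hc hd
  rcases hC with rfl | rfl <;> rcases hD with rfl | rfl <;> norm_num <;> ring

lemma ite_mul3 (p q r : Prop) [Decidable p] [Decidable q] [Decidable r]
    [Decidable (q ∧ p ∧ r)] : (if p then (1 : ℤ) else 0) *
    (if q then 1 else 0) * (if r then 1 else 0) = if q ∧ p ∧ r then 1 else 0 := by
  by_cases hp : p <;> by_cases hq : q <;> by_cases hr : r <;> simp [hp, hq, hr]

section

variable {h : Fin (Fintype.card α) → ℕ} (hG : IsGaussianWith α h) (hc : Conn α)
  {k : ℕ} {w : α} (hw : w ∈ lev α (k + 2))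

include hG hc hw in
lemma exists_lev_of_le {j : ℕ} (hj : j ≤ k + 2) : ∃ v, v ∈ lev α j := by
  rcases eq_or_lt_of_le hj with rfl | hj
  · exact ⟨w, hw⟩
  · rw [mem_lev] at hw
    obtain ⟨y, hy, hy'⟩ := exists_gt_corank (x := w) (n := j) (by omega)
    exact ⟨y, mem_lev.2 hy'⟩

include hG hc hw in
lemma sum_S : ∑ y ∈ lev α (k + 1), (aZ (k + 1) y - bX (k + 1) y) * (cZ (k + 1) y + dX (k + 1) y) =
    pp α k - qq α (k + 1) + ee α k - ee α (k + 1) := by
  obtain ⟨v, hv⟩ := exists_lev_of_le hG hc hw (j := k + 1) (by omega)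
  obtain ⟨u, hu⟩ := exists_lev_of_le hG hc hw (j := k) (by omega)
  obtain ⟨hz, hx, -, -⟩ := degrees hG hc hv
  obtain ⟨hz', -, -, -⟩ := degrees hG hc hw
  obtain ⟨-, hx', -, -⟩ := degrees hG hc hu
  have hm := dz_eq_dx hG hc hv
  have hy1 : ∀ y ∈ lev α (k + 1), (up k y).card = 1 ∨ (up k y).card = 2 := hx'
  have hy2 : ∀ y ∈ lev α (k + 1), (dn (k + 1 + 1) y).card = 1 ∨ (dn (k + 1 + 1) y).card = 2 := by
    intro y hy
    rw [← lev'_succ (k + 1)] at hy
    exact hz' y hy
  rw [Finset.sum_congr rfl (fun y hy => pointwise_S (cZ_card k y) (dX_card (k + 1) y) (hy1 y hy)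
    (hy2 y hy))]
  simp only [Finset.sum_add_distrib, Finset.sum_sub_distrib, ← Finset.mul_sum]
  rw [sum_aZ hz, sum_bX hx, hm]
  have e1 : ∑ y ∈ lev α (k + 1), (dX (k + 1) y - bX (k + 1) y) *
      (if (up k y).card = 2 then 1 else 0) = pp α k := by
    rw [pp, Finset.sum_comm]
    apply Finset.sum_congr rfl
    intro y _
    rw [d_sub_b hx, Finset.sum_mul]
    apply Finset.sum_congr rfl
    intro x _
    rw [ite_mul3]
  have e2 : ∑ y ∈ lev α (k + 1), (dX (k + 1) y - bX (k + 1) y) *
      (if (dn (k + 1 + 1) y).card = 1 then 1 else 0) = ee α (k + 1) := by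
    rw [ee, Finset.sum_comm]
    apply Finset.sum_congr rfl
    intro y _
    rw [d_sub_b hx, Finset.sum_mul]
    apply Finset.sum_congr rfl
    intro x _
    rw [ite_mul3]
  have e3 : ∑ y ∈ lev α (k + 1), (cZ (k + 1) y - aZ (k + 1) y) *
      (if (up k y).card = 1 then 1 else 0) = ee α k := by
    rw [ee]
    apply Finset.sum_congr rfl
    intro y _
    rw [c_sub_a hz, Finset.sum_mul, lev'_succ]
    apply Finset.sum_congr rfl
    intro z _
    rw [ite_mul3]
    by_cases h1 : y < z <;> by_cases h2 : (dn (k + 1) z).card = 1 <;>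
      by_cases h3 : (up k y).card = 1 <;> simp [h1, h2, h3]
  have e4 : ∑ y ∈ lev α (k + 1), (cZ (k + 1) y - aZ (k + 1) y) *
      (if (dn (k + 1 + 1) y).card = 2 then 1 else 0) = qq α (k + 1) := by
    rw [qq, Finset.sum_comm]
    apply Finset.sum_congr rfl
    intro y _
    rw [c_sub_a hz, Finset.sum_mul]
    apply Finset.sum_congr rfl
    intro x _
    rw [ite_mul3]
  rw [← e1, ← e2, ← e3, ← e4]
  simp only [sub_mul, Finset.sum_sub_distrib]
  ring

end

lemma eXX_eq (i : ℕ) : eXX α i = ff α i + ∑ x ∈ lev α (i + 1), dx i x := by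
  rw [eXX, ff, ← sum_diag (lev α (i + 1)) (fun x => dx i x), ← Finset.sum_add_distrib]
  apply Finset.sum_congr rfl
  intro a _
  rw [← Finset.sum_add_distrib]
  apply Finset.sum_congr rfl
  intro b _
  by_cases h : a = b
  · subst h
    rw [inter_self, dx]
    simp
  · rw [if_neg h, add_zero]
    congr 1
    exact propext ⟨fun h1 => ⟨h, h1⟩, fun h1 => h1.2⟩

lemma off_two {s : Finset α} {D : Finset α} (hD : D ⊆ s) (hD2 : D.card ≤ 2) :
    ∑ a ∈ s, ∑ b ∈ s, (if a ≠ b ∧ a ∈ D ∧ b ∈ D then (1 : ℤ) else 0) =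
      if D.card = 2 then 2 else 0 := by
  have h1 : ∑ a ∈ s, ∑ b ∈ s, (if a ≠ b ∧ a ∈ D ∧ b ∈ D then (1 : ℤ) else 0) =
      D.offDiag.card := by
    rw [← Finset.sum_product', ← Finset.sum_filter, Finset.sum_const, nsmul_eq_mul, mul_one]
    congr 2
    ext ⟨a, b⟩
    rw [mem_filter, mem_product, mem_offDiag]
    constructor
    · rintro ⟨-, h2, h3, h4⟩
      exact ⟨h3, h4, h2⟩
    · rintro ⟨h2, h3, h4⟩
      exact ⟨⟨hD h2, hD h3⟩, h4, h2, h3⟩
  rw [h1, offDiag_card]
  interval_cases D.card <;> norm_num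

section

variable {h : Fin (Fintype.card α) → ℕ} (hG : IsGaussianWith α h) (hc : Conn α)
  {k : ℕ} {v : α} (hv : v ∈ lev α (k + 1))

include hG hc hv in
lemma ffZ_eq : ∑ a ∈ lev α k, ∑ b ∈ lev α k,
    (if a ≠ b ∧ (dn (k + 1) a ∩ dn (k + 1) b).card = 2 then (1 : ℤ) else 0) = ff α k := by
  have hu : ∃ u, u ∈ lev α k := by
    rw [mem_lev] at hv
    obtain ⟨y, hy, hy'⟩ := exists_gt_corank (x := v) (n := k) (by omega)
    exact ⟨y, mem_lev.2 hy'⟩
  obtain ⟨u, hu⟩ := hu
  obtain ⟨hz, -, -, -⟩ := degrees hG hc hv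
  obtain ⟨-, hx, -, -⟩ := degrees hG hc hu
  rw [lev'_succ] at hz
  have key : 2 * ∑ a ∈ lev α k, ∑ b ∈ lev α k,
      (if a ≠ b ∧ (dn (k + 1) a ∩ dn (k + 1) b).card = 2 then (1 : ℤ) else 0) =
      2 * ff α k := by
    have e1 : 2 * ∑ a ∈ lev α k, ∑ b ∈ lev α k,
        (if a ≠ b ∧ (dn (k + 1) a ∩ dn (k + 1) b).card = 2 then (1 : ℤ) else 0) =
        ∑ a ∈ lev α k, ∑ b ∈ lev α k, ∑ c ∈ lev α (k + 1), ∑ d ∈ lev α (k + 1),
        (if (a ≠ b ∧ c ≠ d) ∧ (c < a ∧ c < b) ∧ (d < a ∧ d < b) then (1 : ℤ) else 0) := by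
      rw [Finset.mul_sum]
      apply Finset.sum_congr rfl
      intro a ha
      rw [Finset.mul_sum]
      apply Finset.sum_congr rfl
      intro b hb
      by_cases hab : a = b
      · rw [if_neg (fun h => h.1 hab), mul_zero]
        symm
        apply Finset.sum_eq_zero
        intro c _
        apply Finset.sum_eq_zero
        intro d _
        rw [if_neg (fun h => h.1.1 hab)]
      · have h1 : (dn (k + 1) a ∩ dn (k + 1) b).card ≤ 2 := by
          have h2 := card_le_card (inter_subset_left (s₁ := dn (k + 1) a) (s₂ := dn (k + 1) b))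
          have h3 := hz a ha
          omega
        have h4 : dn (k + 1) a ∩ dn (k + 1) b ⊆ lev α (k + 1) :=
          inter_subset_left.trans (dn_subset (k + 1) a)
        have h5 := off_two h4 h1
        have h6 : ∑ c ∈ lev α (k + 1), ∑ d ∈ lev α (k + 1),
            (if (a ≠ b ∧ c ≠ d) ∧ (c < a ∧ c < b) ∧ (d < a ∧ d < b) then (1 : ℤ) else 0) =
            ∑ c ∈ lev α (k + 1), ∑ d ∈ lev α (k + 1),
            (if c ≠ d ∧ c ∈ dn (k + 1) a ∩ dn (k + 1) b ∧ d ∈ dn (k + 1) a ∩ dn (k + 1) b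
              then (1 : ℤ) else 0) := by
          apply Finset.sum_congr rfl
          intro c hc
          apply Finset.sum_congr rfl
          intro d hd
          congr 1
          rw [mem_inter, mem_inter, mem_dn', mem_dn', mem_dn', mem_dn']
          simp only [hc, hd, true_and, ne_eq, hab, not_false_eq_true]
        rw [h6, h5]
        by_cases h7 : (dn (k + 1) a ∩ dn (k + 1) b).card = 2
        · rw [if_pos h7, if_pos ⟨hab, h7⟩, mul_one]
        · rw [if_neg h7, if_neg (fun h => h7 h.2), mul_zero]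
    have e2 : 2 * ff α k =
        ∑ c ∈ lev α (k + 1), ∑ d ∈ lev α (k + 1), ∑ a ∈ lev α k, ∑ b ∈ lev α k,
        (if (a ≠ b ∧ c ≠ d) ∧ (c < a ∧ c < b) ∧ (d < a ∧ d < b) then (1 : ℤ) else 0) := by
      rw [ff, Finset.mul_sum]
      apply Finset.sum_congr rfl
      intro c hc
      rw [Finset.mul_sum]
      apply Finset.sum_congr rfl
      intro d hd
      by_cases hcd : c = d
      · rw [if_neg (fun h => h.1 hcd), mul_zero]
        symm
        apply Finset.sum_eq_zero
        intro a _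
        apply Finset.sum_eq_zero
        intro b _
        rw [if_neg (fun h => h.1.2 hcd)]
      · have h1 : (up k c ∩ up k d).card ≤ 2 := by
          have h2 := card_le_card (inter_subset_left (s₁ := up k c) (s₂ := up k d))
          have h3 := hx c hc
          omega
        have h4 : up k c ∩ up k d ⊆ lev α k := inter_subset_left.trans (up_subset k c)
        have h5 := off_two h4 h1
        have h6 : ∑ a ∈ lev α k, ∑ b ∈ lev α k,
            (if (a ≠ b ∧ c ≠ d) ∧ (c < a ∧ c < b) ∧ (d < a ∧ d < b) then (1 : ℤ) else 0) =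
            ∑ a ∈ lev α k, ∑ b ∈ lev α k,
            (if a ≠ b ∧ a ∈ up k c ∩ up k d ∧ b ∈ up k c ∩ up k d then (1 : ℤ) else 0) := by
          apply Finset.sum_congr rfl
          intro a ha
          apply Finset.sum_congr rfl
          intro b hb
          congr 1
          rw [mem_inter, mem_inter, mem_up', mem_up', mem_up', mem_up']
          simp only [ha, hb, true_and, ne_eq, hcd, not_false_eq_true, and_true]
          apply propext
          tauto
        rw [h6, h5]
        by_cases h7 : (up k c ∩ up k d).card = 2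
        · rw [if_pos h7, if_pos ⟨hcd, h7⟩, mul_one]
        · rw [if_neg h7, if_neg (fun h => h7 h.2), mul_zero]
    rw [e1, e2]
    have e3 : ∀ F : α → α → α → α → ℤ, ∑ a ∈ lev α k, ∑ b ∈ lev α k, ∑ c ∈ lev α (k + 1),
        ∑ d ∈ lev α (k + 1), F a b c d = ∑ c ∈ lev α (k + 1), ∑ d ∈ lev α (k + 1),
        ∑ a ∈ lev α k, ∑ b ∈ lev α k, F a b c d := by
      intro F
      rw [Finset.sum_congr rfl (fun a _ => Finset.sum_comm), Finset.sum_comm]
      apply Finset.sum_congr rfl
      intro c _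
      rw [Finset.sum_congr rfl (fun a _ => Finset.sum_comm), Finset.sum_comm]
    exact e3 _
  linarith

include hG hc hv in
lemma eZZ_eq : eZZ α (k + 1) = ff α k + ∑ z ∈ lev' α (k + 1), dz (k + 1) z := by
  rw [← ffZ_eq hG hc hv, eZZ, ← sum_diag (lev' α (k + 1)) (fun x => dz (k + 1) x), lev'_succ,
    ← Finset.sum_add_distrib]
  apply Finset.sum_congr rfl
  intro a _
  rw [← Finset.sum_add_distrib]
  apply Finset.sum_congr rfl
  intro b _
  by_cases h : a = b
  · subst h
    rw [inter_self, dz]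
    simp
  · rw [if_neg h, add_zero]
    congr 1
    exact propext ⟨fun h1 => ⟨h, h1⟩, fun h1 => h1.2⟩

end

section

variable {h : Fin (Fintype.card α) → ℕ} (hG : IsGaussianWith α h) (hc : Conn α)

include hG hc in
/-- one step of the telescoping -/
theorem step_E1 {k : ℕ} {w : α} (hw : w ∈ lev α (k + 2)) :
    2 * (qq α (k + 1) + pp α (k + 1) + ee α (k + 1)) - ff α (k + 1) =
      2 * (qq α k + pp α k + ee α k) - ff α k := by
  obtain ⟨v, hv⟩ := exists_lev_of_le hG hc hw (j := k + 1) (by omega)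
  have h1 := rel_R2 hG hc hv
  rw [sum_S hG hc hw, sum_v (grad hG), sum_t (grad hG), eZZ_eq hG hc hv, eXX_eq,
    dz_eq_dx hG hc hv] at h1
  linear_combination h1

include hG hc in
lemma base_E1 {w : α} (hw : w ∈ lev α 1) :
    2 * (qq α 0 + pp α 0 + ee α 0) - ff α 0 =
      2 * (2 * (lev α 0).card - (lev α 1).card) := by
  have hu : ∃ u, u ∈ lev α 0 := by
    rw [mem_lev] at hw
    obtain ⟨y, hy, hy'⟩ := exists_gt_corank (x := w) (n := 0) (by omega)
    exact ⟨y, mem_lev.2 hy'⟩
  obtain ⟨u, hu⟩ := hu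
  obtain ⟨hz, -, -, -⟩ := degrees hG hc hw
  obtain ⟨-, hx, -, -⟩ := degrees hG hc hu
  obtain ⟨-, hb⟩ := branching hG hc hu
  rw [lev'_succ] at hz
  have h1 : ∀ x ∈ lev α 1, (up 0 x).card = 1 := by
    intro x hx'
    have h2 : ((lev α (0 + 1)).filter fun x => (up 0 x).card = 2) = ∅ := by
      rw [← Finset.card_eq_zero]
      omega
    have h3 : x ∉ ((lev α (0 + 1)).filter fun x => (up 0 x).card = 2) := by
      rw [h2]
      exact notMem_empty x
    rw [mem_filter] at h3
    have h4 := hx x hx'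
    by_contra h5
    exact h3 ⟨hx', by omega⟩
  have e1 : qq α 0 = 0 := by
    have : lev' α 0 = ∅ := by
      ext x
      rw [mem_lev']
      simp
    rw [qq, this, Finset.sum_empty]
  have e2 : pp α 0 = 0 := by
    rw [pp]
    apply Finset.sum_eq_zero
    intro t _
    apply Finset.sum_eq_zero
    intro x hx'
    have := h1 x hx'
    rw [if_neg (fun h => by omega)]
  have e3 : ff α 0 = 0 := by
    rw [ff]
    apply Finset.sum_eq_zero
    intro a ha
    apply Finset.sum_eq_zero
    intro b _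
    rw [if_neg]
    rintro ⟨-, h2⟩
    have h3 := card_le_card (inter_subset_left (s₁ := up 0 a) (s₂ := up 0 b))
    have h4 := h1 a ha
    omega
  have e4 : ee α 0 = ∑ y ∈ lev α 0, (if (dn 1 y).card = 1 then (1 : ℤ) else 0) := by
    rw [ee, Finset.sum_comm]
    apply Finset.sum_congr rfl
    intro y hy
    by_cases h2 : (dn 1 y).card = 1
    · have h3 : ∀ x ∈ lev α (0 + 1), (if x < y ∧ (up 0 x).card = 1 ∧ (dn (0 + 1) y).card = 1
          then (1 : ℤ) else 0) = if x < y then 1 else 0 := by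
        intro x hx'
        congr 1
        apply propext
        exact ⟨fun h => h.1, fun h => ⟨h, h1 x hx', h2⟩⟩
      rw [Finset.sum_congr rfl h3, sum_dn, if_pos h2]
      change (((dn 1 y).card : ℕ) : ℤ) = 1
      rw [h2]
      rfl
    · rw [if_neg h2]
      apply Finset.sum_eq_zero
      intro x _
      rw [if_neg (fun h => h2 h.2.2)]
  have e5 : ∑ y ∈ lev α 0, ((dn 1 y).card : ℤ) = (lev α 1).card := by
    have h2 := sum_up_eq (α := α) 0
    rw [lev'_succ, Finset.sum_congr rfl h1, Finset.sum_const, smul_eq_mul, mul_one] at h2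
    have h3 := congrArg (fun k : ℕ => (k : ℤ)) h2
    push_cast at h3
    exact h3.symm
  have e6 : ∑ y ∈ lev α 0, ((if (dn 1 y).card = 1 then (1 : ℤ) else 0) + (dn 1 y).card) =
      2 * (lev α 0).card := by
    rw [mul_comm, ← nsmul_eq_mul, ← Finset.sum_const]
    apply Finset.sum_congr rfl
    intro y hy
    rcases hz y hy with h2 | h2
    · rw [if_pos h2, h2]
      norm_num
    · rw [if_neg (by omega), h2]
      norm_num
  rw [Finset.sum_add_distrib, e5, ← e4] at e6
  rw [e1, e2, e3]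
  linear_combination 2 * e6

include hG hc in
/-- **E1**: for every cut `j | j + 1` -/
theorem rel_E1 (j : ℕ) {w : α} (hw : w ∈ lev α (j + 1)) :
    2 * (qq α j + pp α j + ee α j) - ff α j =
      2 * (2 * (lev α 0).card - (lev α 1).card) := by
  induction j generalizing w with
  | zero => exact base_E1 hG hc hw
  | succ k ih =>
    rw [step_E1 hG hc hw]
    obtain ⟨v, hv⟩ := exists_lev_of_le hG hc hw (j := k + 1) (by omega)
    exact ih hv

end

end Pool.Gauss
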