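import Pool.Agent.Gauss35.Energy

/-!
# Energy functions supported on three consecutive levels
-/

set_option autoImplicit false
open scoped Classical
open Finset

namespace Pool.Gauss

variable {α : Type} [Fintype α] [PartialOrder α]

lemma covBy_of_corank {x y : α} (h : x < y) (hc : corank x = corank y + 1) : x ⋖ y := by
  refine ⟨h, fun z hz hz' => ?_⟩
  have h1 := corank_lt hz
  have h2 := corank_lt hz'
  omega

lemma exists_covBy_up {x : α} (h : 0 < corank x) : ∃ z, x ⋖ z := by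
  obtain ⟨y, hy, _⟩ := exists_gt_corank (x := x) (n := 0) h
  obtain ⟨z, hz, _⟩ := exists_covBy_of_lt hy
  exact ⟨z, hz⟩

/-- `ε` is supported on the levels `i - 1`, `i`, `i + 1` -/
def Three (i : ℕ) (ε : α → ℕ) : Prop := ∀ y, ε y ≠ 0 → i ≤ corank y + 1 ∧ corank y ≤ i + 1

lemma inE_far {i : ℕ} {ε : α → ℕ} (h : Three i ε) {y : α} (hy : corank y + 1 < i) :
    inE i ε y := by
  have : ε y = 0 := by
    by_contra h1
    have := h y h1
    omega
  exact Or.inl ⟨by omega, Or.inl (by omega)⟩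

lemma inE_up (hg : Grad α) {i : ℕ} {ε : α → ℕ} {z : α} (hz : z ∈ lev' α i) :
    inE i ε z ↔ ε z = 0 ∨ ∃ y ∈ dn i z, ε z ≤ ε y := by
  rw [mem_lev'] at hz
  constructor
  · rintro (⟨h1, h2⟩ | ⟨h1, _⟩)
    · rcases h2 with h2 | ⟨x, hx, h2⟩
      · exact Or.inl (by omega)
      · exact Or.inr ⟨x, mem_dn.2 ⟨by rw [hg x z hx]; exact hz, hx.lt⟩, h2⟩
    · omega
  · rintro (h | ⟨y, hy, h⟩)
    · exact Or.inl ⟨by omega, Or.inl (by omega)⟩
    · rw [mem_dn] at hy
      exact Or.inl ⟨by omega, Or.inr ⟨y, covBy_of_corank hy.2 (by omega), h⟩⟩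

lemma inE_mid (hg : Grad α) {i : ℕ} {ε : α → ℕ} {y : α} (hy : y ∈ lev α i) :
    inE i ε y ↔ ∃ x ∈ lev α (i + 1), x < y ∧ ε y < ε x := by
  rw [mem_lev] at hy
  constructor
  · rintro (⟨h1, _⟩ | ⟨_, x, hx, h2⟩)
    · omega
    · exact ⟨x, mem_lev.2 (by rw [hg x y hx]; omega), hx.lt, h2⟩
  · rintro ⟨x, hx, hxy, h⟩
    rw [mem_lev] at hx
    exact Or.inr ⟨hy.ge, x, covBy_of_corank hxy (by omega), h⟩

lemma inE_low (hg : Grad α) {i : ℕ} {ε : α → ℕ} (h : Three i ε) {y : α}
    (hy : i + 1 ≤ corank y) : ¬ inE i ε y := by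
  rintro (⟨h1, _⟩ | ⟨_, x, hx, h2⟩)
  · omega
  · have h3 := hg x y hx
    have := h x (by omega)
    omega

lemma outE_far (hg : Grad α) {i : ℕ} {ε : α → ℕ} (h : Three i ε) {y : α}
    (hy : corank y < i) : ¬ outE i ε y := by
  rintro (⟨_, z, hz, h2⟩ | ⟨h1, _⟩)
  · have h3 := hg y z hz
    have := h z (by omega)
    omega
  · omega

lemma outE_mid (hg : Grad α) {i : ℕ} {ε : α → ℕ} {y : α} (hy : y ∈ lev α i) :
    outE i ε y ↔ ∃ z ∈ lev' α i, y < z ∧ ε y < ε z := by
  rw [mem_lev] at hy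
  constructor
  · rintro (⟨_, z, hz, h2⟩ | ⟨h1, _⟩)
    · exact ⟨z, mem_lev'.2 (by rw [← hg y z hz]; exact hy), hz.lt, h2⟩
    · omega
  · rintro ⟨z, hz, hyz, h⟩
    rw [mem_lev'] at hz
    exact Or.inl ⟨hy.le, z, covBy_of_corank hyz (by omega), h⟩

lemma outE_dn (hg : Grad α) {i : ℕ} {ε : α → ℕ} {x : α} (hx : x ∈ lev α (i + 1)) :
    outE i ε x ↔ ∃ y ∈ up i x, ε x ≤ ε y := by
  rw [mem_lev] at hx
  constructor
  · rintro (⟨h1, _⟩ | ⟨_, z, hz, h2⟩)
    · omega
    · have := hg x z hz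
      exact ⟨z, mem_up.2 ⟨by omega, hz.lt⟩, h2⟩
  · rintro ⟨y, hy, h⟩
    rw [mem_up] at hy
    exact Or.inr ⟨by omega, y, covBy_of_corank hy.2 (by omega), h⟩

lemma outE_low {i : ℕ} {ε : α → ℕ} (h : Three i ε) {y : α}
    (hy : i + 2 ≤ corank y) : outE i ε y := by
  obtain ⟨z, hz⟩ := exists_covBy_up (x := y) (by omega)
  have h1 : ε y = 0 := by
    by_contra h1
    have := h y h1
    omega
  exact Or.inr ⟨by omega, z, hz, by omega⟩

/-- the number of elements of corank `< i - 1` -/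
noncomputable def far (α : Type) [Fintype α] [PartialOrder α] (i : ℕ) : ℕ :=
  ((univ : Finset α).filter fun y => corank y + 1 < i).card

lemma card_split (i : ℕ) (p : α → Prop) [DecidablePred p] (h1 : ∀ y, corank y + 1 < i → p y)
    (h2 : ∀ y, i + 1 ≤ corank y → ¬ p y) :
    (univ.filter p).card = far α i + ((lev' α i).filter p).card + ((lev α i).filter p).card := by
  have e : univ.filter p = (univ.filter fun y => corank y + 1 < i) ∪
      ((lev' α i).filter p) ∪ ((lev α i).filter p) := by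
    ext y
    simp only [mem_filter, mem_univ, true_and, mem_union, mem_lev', mem_lev]
    constructor
    · intro h
      by_cases h3 : corank y + 1 < i
      · exact Or.inl (Or.inl h3)
      · by_cases h4 : corank y + 1 = i
        · exact Or.inl (Or.inr ⟨h4, h⟩)
        · by_cases h5 : corank y = i
          · exact Or.inr ⟨h5, h⟩
          · exact absurd h (h2 y (by omega))
    · rintro ((h | h) | h)
      · exact h1 y h
      · exact h.2
      · exact h.2
  rw [e, card_union_of_disjoint, card_union_of_disjoint, far]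
  · rw [Finset.disjoint_left]
    intro y hy hy'
    rw [mem_filter] at hy hy'
    have := mem_lev'.1 hy'.1
    omega
  · rw [Finset.disjoint_left]
    intro y hy hy'
    rw [mem_union, mem_filter, mem_filter] at hy
    rw [mem_filter] at hy'
    have := mem_lev.1 hy'.1
    rcases hy with hy | hy
    · omega
    · have := mem_lev'.1 hy.1
      omega

lemma card_split' (i : ℕ) (p : α → Prop) [DecidablePred p] (h1 : ∀ y, corank y + 1 < i → ¬ p y)
    (h2 : ∀ y, i + 2 ≤ corank y → ¬ p y) :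
    (univ.filter p).card = ((lev' α i).filter p).card + ((lev α i).filter p).card +
      ((lev α (i + 1)).filter p).card := by
  have e : univ.filter p = ((lev' α i).filter p) ∪ ((lev α i).filter p) ∪
      ((lev α (i + 1)).filter p) := by
    ext y
    simp only [mem_filter, mem_univ, true_and, mem_union, mem_lev', mem_lev]
    constructor
    · intro h
      have h3 : ¬ corank y + 1 < i := fun h4 => h1 y h4 h
      have h4 : ¬ i + 2 ≤ corank y := fun h4 => h2 y h4 h
      by_cases h5 : corank y + 1 = i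
      · exact Or.inl (Or.inl ⟨h5, h⟩)
      · by_cases h6 : corank y = i
        · exact Or.inl (Or.inr ⟨h6, h⟩)
        · exact Or.inr ⟨by omega, h⟩
    · rintro ((h | h) | h)
      · exact h.2
      · exact h.2
      · exact h.2
  rw [e, card_union_of_disjoint, card_union_of_disjoint]
  · rw [Finset.disjoint_left]
    intro y hy hy'
    rw [mem_filter] at hy hy'
    have := mem_lev'.1 hy.1
    have := mem_lev.1 hy'.1
    omega
  · rw [Finset.disjoint_left]
    intro y hy hy'
    rw [mem_union, mem_filter, mem_filter] at hy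
    rw [mem_filter] at hy'
    have := mem_lev.1 hy'.1
    rcases hy with hy | hy
    · have := mem_lev'.1 hy.1
      omega
    · have := mem_lev.1 hy.1
      omega

/-- `GoodE` for three-level energy functions -/
lemma goodE_three (hg : Grad α) {i : ℕ} {ε : α → ℕ} (h : Three i ε) :
    GoodE i ε ↔ ∀ y ∈ lev α i, ¬ ((∃ x ∈ lev α (i + 1), x < y ∧ ε y < ε x) ∧
      ∃ z ∈ lev' α i, y < z ∧ ε y < ε z) := by
  constructor
  · intro h1 y hy h2
    exact h1 y ⟨(inE_mid hg hy).2 h2.1, (outE_mid hg hy).2 h2.2⟩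
  · intro h1 y h2
    by_cases h3 : corank y < i
    · exact outE_far hg h h3 h2.2
    · by_cases h4 : corank y = i
      · exact h1 y (mem_lev.2 h4) ⟨(inE_mid hg (mem_lev.2 h4)).1 h2.1,
          (outE_mid hg (mem_lev.2 h4)).1 h2.2⟩
      · exact inE_low hg h (by omega) h2.1

/-- elements of level `i - 1` which are in -/
noncomputable def zIn (i : ℕ) (ε : α → ℕ) : Finset α :=
  (lev' α i).filter fun z => ε z = 0 ∨ ∃ y ∈ dn i z, ε z ≤ ε y
/-- elements of level `i` which are in -/
noncomputable def yIn (i : ℕ) (ε : α → ℕ) : Finset α :=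
  (lev α i).filter fun y => ∃ x ∈ lev α (i + 1), x < y ∧ ε y < ε x
/-- free elements of level `i - 1` -/
noncomputable def zPk (i : ℕ) (ε : α → ℕ) : Finset α :=
  (lev' α i).filter fun z => ε z ≠ 0 ∧ ∀ y ∈ dn i z, ε y < ε z
/-- free elements of level `i` -/
noncomputable def yPk (i : ℕ) (ε : α → ℕ) : Finset α :=
  (lev α i).filter fun y => (∀ x ∈ lev α (i + 1), x < y → ε x ≤ ε y) ∧
    ∀ z ∈ lev' α i, y < z → ε z ≤ ε y
/-- free elements of level `i + 1` -/
noncomputable def xPk (i : ℕ) (ε : α → ℕ) : Finset α :=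
  (lev α (i + 1)).filter fun x => ∀ y ∈ up i x, ε y < ε x

lemma mem_zIn {i : ℕ} {ε : α → ℕ} {z : α} :
    z ∈ zIn i ε ↔ z ∈ lev' α i ∧ (ε z = 0 ∨ ∃ y ∈ dn i z, ε z ≤ ε y) := by
  unfold zIn
  exact mem_filter
lemma mem_yIn {i : ℕ} {ε : α → ℕ} {y : α} :
    y ∈ yIn i ε ↔ y ∈ lev α i ∧ ∃ x ∈ lev α (i + 1), x < y ∧ ε y < ε x := by
  simp [yIn]
lemma mem_zPk {i : ℕ} {ε : α → ℕ} {z : α} :
    z ∈ zPk i ε ↔ z ∈ lev' α i ∧ ε z ≠ 0 ∧ ∀ y ∈ dn i z, ε y < ε z := by
  unfold zPk
  exact mem_filter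
lemma mem_yPk {i : ℕ} {ε : α → ℕ} {y : α} :
    y ∈ yPk i ε ↔ y ∈ lev α i ∧ (∀ x ∈ lev α (i + 1), x < y → ε x ≤ ε y) ∧
    ∀ z ∈ lev' α i, y < z → ε z ≤ ε y := by
  unfold yPk
  exact mem_filter
lemma mem_xPk {i : ℕ} {ε : α → ℕ} {x : α} :
    x ∈ xPk i ε ↔ x ∈ lev α (i + 1) ∧ ∀ y ∈ up i x, ε y < ε x := by
  unfold xPk
  exact mem_filter

lemma inF_three (hg : Grad α) {i : ℕ} {ε : α → ℕ} (h : Three i ε) :
    (inF i ε).card = far α i + (zIn i ε).card + (yIn i ε).card := by
  rw [inF, card_split i _ (fun y hy => inE_far h hy) (fun y hy => inE_low hg h hy)]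
  have e1 : (lev' α i).filter (fun y => inE i ε y) = zIn i ε := by
    ext z
    rw [mem_filter, mem_zIn]
    exact and_congr_right fun hz => inE_up hg hz
  have e2 : (lev α i).filter (fun y => inE i ε y) = yIn i ε := by
    ext y
    rw [mem_filter, mem_yIn]
    exact and_congr_right fun hy => inE_mid hg hy
  rw [e1, e2]

lemma pkF_three (hg : Grad α) {i : ℕ} {ε : α → ℕ} (h : Three i ε) :
    (pkF i ε).card = (zPk i ε).card + (yPk i ε).card + (xPk i ε).card := by
  have e0 := card_split' i (fun y => ¬ inE i ε y ∧ ¬ outE i ε y)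
    (fun y hy h1 => h1.1 (inE_far h hy)) (fun y hy h1 => h1.2 (outE_low h hy))
  have e1 : (lev' α i).filter (fun y => ¬ inE i ε y ∧ ¬ outE i ε y) = zPk i ε := by
    ext z
    rw [mem_filter, mem_zPk]
    refine and_congr_right fun hz => ?_
    rw [inE_up hg hz]
    have h1 : ¬ outE i ε z := outE_far hg h (by have := mem_lev'.1 hz; omega)
    constructor
    · rintro ⟨h2, _⟩
      push Not at h2
      exact h2
    · rintro h2
      refine ⟨?_, h1⟩
      push Not
      exact h2
  have e2 : (lev α i).filter (fun y => ¬ inE i ε y ∧ ¬ outE i ε y) = yPk i ε := by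
    ext y
    rw [mem_filter, mem_yPk]
    refine and_congr_right fun hy => ?_
    rw [inE_mid hg hy, outE_mid hg hy]
    push Not
    rfl
  have e3 : (lev α (i + 1)).filter (fun y => ¬ inE i ε y ∧ ¬ outE i ε y) = xPk i ε := by
    ext x
    rw [mem_filter, mem_xPk]
    refine and_congr_right fun hx => ?_
    rw [outE_dn hg hx]
    have h1 : ¬ inE i ε x := inE_low hg h (by have := mem_lev.1 hx; omega)
    push Not
    constructor
    · rintro ⟨_, h2⟩
      exact h2
    · intro h2
      exact ⟨h1, h2⟩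
  rw [e1, e2, e3] at e0
  rw [← e0, pkF]

/-! ### indicator functions -/

/-- indicator function of a finset with values in `ℕ` -/
noncomputable def indT (S : Finset α) : α → ℕ := fun y => if y ∈ S then 1 else 0

/-- the energy function with value one on `A`, `B`, `C` (subsets of the levels
`i - 1`, `i`, `i + 1`) is a three-level function -/
lemma three_ind {i : ℕ} {S : Finset α} (hS : ∀ y ∈ S, i ≤ corank y + 1 ∧ corank y ≤ i + 1) :
    Three i (indT S) := by
  intro y hy
  rw [indT] at hy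
  by_cases h : y ∈ S
  · exact hS y h
  · exact absurd (if_neg h) hy

end Pool.Gauss
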