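import Pool.Agent.Gauss35.Structure

/-!
# The exact formula at the root `t = q^{-(i+1)}`

For a Gaussian poset and a level `i`, `(1 + X)^|R_i|` divides the sum over the unimodal functions
`w : α → ℕ` of given sum of `X^|In w| (1 + X)^|Pk w|`.
-/

set_option autoImplicit false
open scoped Classical
open Finset

namespace Pool.Gauss

variable {α : Type} [Fintype α] [PartialOrder α]

/-- elements that must belong to the filter -/
noncomputable def inS (i : ℕ) (w : α → ℕ) : Finset α :=
  univ.filter fun y => w y < i ∨ ∃ x, x < y ∧ w y < w x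

/-- elements that must not belong to the filter -/
noncomputable def outS (w : α → ℕ) : Finset α :=
  univ.filter fun y => ∃ z, y < z ∧ w y ≤ w z

/-- the free elements -/
noncomputable def pkS (i : ℕ) (w : α → ℕ) : Finset α := (inS i w ∪ outS w)ᶜ

/-- unimodal functions -/
def Good (i : ℕ) (w : α → ℕ) : Prop := Disjoint (inS i w) (outS w)

lemma mem_inS {i : ℕ} {w : α → ℕ} {y : α} :
    y ∈ inS i w ↔ w y < i ∨ ∃ x, x < y ∧ w y < w x := by simp [inS]

lemma mem_outS {w : α → ℕ} {y : α} : y ∈ outS w ↔ ∃ z, y < z ∧ w y ≤ w z := by simp [outS]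

lemma mem_pkS {i : ℕ} {w : α → ℕ} {y : α} :
    y ∈ pkS i w ↔ i ≤ w y ∧ (∀ x, x < y → w x ≤ w y) ∧ ∀ z, y < z → w z < w y := by
  rw [pkS, mem_compl, mem_union, mem_inS, mem_outS]
  push Not
  constructor
  · rintro ⟨⟨h1, h2⟩, h3⟩
    exact ⟨h1, h2, h3⟩
  · rintro ⟨h1, h2, h3⟩
    exact ⟨⟨h1, h2⟩, h3⟩

/-- the pairs `(F, w)` -/
def VW (i : ℕ) (F : Finset α) (w : α → ℕ) : Prop :=
  F ∈ upSets α ∧ (∀ x ∈ F, ∀ y ∈ F, x < y → w y < w x) ∧ (∀ x ∉ F, i ≤ w x) ∧
    ∀ x ∉ F, ∀ y ∉ F, x ≤ y → w x ≤ w y

lemma VW_iff {i : ℕ} {F : Finset α} {w : α → ℕ} :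
    VW i F w ↔ inS i w ⊆ F ∧ Disjoint F (outS w) := by
  constructor
  · rintro ⟨h1, h2, h3, h4⟩
    rw [mem_upSets] at h1
    constructor
    · intro y hy
      rw [mem_inS] at hy
      by_contra h0
      rcases hy with hy | ⟨x, hx, hy⟩
      · have := h3 y h0
        omega
      · have hxF : x ∉ F := fun hxF => h0 (h1 x hxF y hx.le)
        have := h4 x hxF y h0 hx.le
        omega
    · rw [Finset.disjoint_left]
      intro y hy hy'
      rw [mem_outS] at hy'
      obtain ⟨z, hz, hz'⟩ := hy'
      have := h2 y hy z (h1 y hy z hz.le) hz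
      omega
  · rintro ⟨h1, h2⟩
    rw [Finset.disjoint_left] at h2
    have hup : ∀ x ∈ F, ∀ y, x < y → w y < w x := by
      intro x hx y hxy
      by_contra h0
      exact h2 hx (mem_outS.2 ⟨y, hxy, by omega⟩)
    refine ⟨?_, ?_, ?_, ?_⟩
    · rw [mem_upSets]
      intro x hx y hxy
      rcases eq_or_lt_of_le hxy with rfl | hlt
      · exact hx
      · exact h1 (mem_inS.2 (Or.inr ⟨x, hlt, hup x hx y hlt⟩))
    · intro x hx y _ hxy
      exact hup x hx y hxy
    · intro x hx
      by_contra h0
      exact hx (h1 (mem_inS.2 (Or.inl (by omega))))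
    · intro x _ y hy hxy
      rcases eq_or_lt_of_le hxy with rfl | hlt
      · exact le_rfl
      · by_contra h0
        exact hy (h1 (mem_inS.2 (Or.inr ⟨x, hlt, by omega⟩)))

open Polynomial in
/-- the sum over the filters compatible with `w` -/
lemma sum_VW (i : ℕ) (w : α → ℕ) :
    ∑ F ∈ (univ : Finset (Finset α)).filter (fun F => VW i F w), (X : ℤ[X]) ^ F.card =
      if Good i w then X ^ (inS i w).card * (1 + X) ^ (pkS i w).card else 0 := by
  split_ifs with hg
  · have e : (univ : Finset (Finset α)).filter (fun F => VW i F w) =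
        (pkS i w).powerset.image (fun J => inS i w ∪ J) := by
      ext F
      rw [mem_filter, mem_image, VW_iff]
      constructor
      · rintro ⟨_, h1, h2⟩
        refine ⟨F \ inS i w, ?_, ?_⟩
        · rw [mem_powerset]
          intro y hy
          rw [mem_sdiff] at hy
          rw [pkS, mem_compl, mem_union]
          push Not
          exact ⟨hy.2, fun h => Finset.disjoint_left.1 h2 hy.1 h⟩
        · rw [union_sdiff_of_subset h1]
      · rintro ⟨J, hJ, rfl⟩
        rw [mem_powerset] at hJ
        refine ⟨mem_univ _, subset_union_left, ?_⟩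
        rw [disjoint_union_left]
        refine ⟨hg, ?_⟩
        rw [Finset.disjoint_left]
        intro y hy hy'
        have := hJ hy
        rw [pkS, mem_compl, mem_union] at this
        exact this (Or.inr hy')
    have hdis : ∀ J ∈ (pkS i w).powerset, Disjoint (inS i w) J := by
      intro J hJ
      rw [mem_powerset] at hJ
      rw [Finset.disjoint_left]
      intro y hy hy'
      have := hJ hy'
      rw [pkS, mem_compl, mem_union] at this
      exact this (Or.inl hy)
    rw [e, sum_image]
    · rw [Finset.sum_congr rfl (fun J hJ => by rw [card_union_of_disjoint (hdis J hJ), pow_add]),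
        ← Finset.mul_sum, sumPow]
    · intro J hJ J' hJ' h
      have h1 := hdis J hJ
      have h2 := hdis J' hJ'
      have h3 : (inS i w ∪ J) \ inS i w = (inS i w ∪ J') \ inS i w := by
        simp only at h
        rw [h]
      rwa [union_sdiff_cancel_left h1, union_sdiff_cancel_left h2] at h3
  · apply Finset.sum_eq_zero
    intro F hF
    rw [mem_filter, VW_iff] at hF
    exfalso
    apply hg
    exact (Finset.disjoint_of_subset_left hF.2.1 hF.2.2)

/-- coefficient of a term of the expansion in terms of shifted functions -/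
lemma coeff_term_shift {F : Finset α} (hF : F ∈ upSets α) (i W M : ℕ)
    (hM : M + i * Fintype.card α = W + (i + 1) * F.card) :
    PowerSeries.coeff M (Ut F * Uinf Fᶜ) =
      (((univ : Finset α).piAntidiag W).filter (fun w => VW i F w)).card := by
  have h0 := X_pow_mul_Ut_mul_Uinf 0 F
  rw [zero_mul, pow_zero, one_mul] at h0
  rw [h0, coeff_cnt]
  congr 1
  have hcard : Fintype.card α = F.card + Fᶜ.card := by
    rw [card_add_card_compl]
  refine Finset.card_nbij' (fun v x => if x ∈ F then v x - 1 else v x + i)
    (fun w x => if x ∈ F then w x + 1 else w x - i) ?_ ?_ ?_ ?_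
  · intro v hv
    simp only [Finset.coe_filter, mem_piAntidiag, Set.mem_ofPred_eq] at hv ⊢
    obtain ⟨⟨h1, _⟩, h2, h3, h4⟩ := hv
    refine ⟨⟨?_, fun _ _ => mem_univ _⟩, hF, ?_, ?_, ?_⟩
    · have h5 := Finset.sum_add_sum_compl F (fun x => if x ∈ F then v x - 1 else v x + i)
      have h6 := Finset.sum_add_sum_compl F v
      have h7 : ∑ x ∈ F, (if x ∈ F then v x - 1 else v x + i) + F.card = ∑ x ∈ F, v x := by
        rw [Finset.card_eq_sum_ones, ← Finset.sum_add_distrib]
        apply Finset.sum_congr rfl
        intro x hx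
        have := h2 x hx
        rw [if_pos hx]
        omega
      have h8 : ∑ x ∈ Fᶜ, (if x ∈ F then v x - 1 else v x + i) = ∑ x ∈ Fᶜ, v x + i * Fᶜ.card := by
        rw [mul_comm, ← smul_eq_mul, ← Finset.sum_const, ← Finset.sum_add_distrib]
        apply Finset.sum_congr rfl
        intro x hx
        rw [mem_compl] at hx
        rw [if_neg hx]
      have h9 : ∑ x, v x = M := h1
      change ∑ x, (if x ∈ F then v x - 1 else v x + i) = W
      rw [hcard] at hM
      have h10 : i * (F.card + Fᶜ.card) = i * F.card + i * Fᶜ.card := by ring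
      have h11 : (i + 1) * F.card = i * F.card + F.card := by ring
      omega
    · intro x hx y hy hxy
      have h5 := h3 x hx y hy hxy
      have h6 := h2 y hy
      simp only [hx, hy, if_true]
      omega
    · intro x hx
      simp only [hx, if_false]
      omega
    · intro x hx y hy hxy
      have h5 := h4 x hx y hy hxy
      simp only [hx, hy, if_false]
      omega
  · intro w hw
    simp only [Finset.coe_filter, mem_piAntidiag, Set.mem_ofPred_eq] at hw ⊢
    obtain ⟨⟨h1, _⟩, _, h3, h4, h5⟩ := hw
    refine ⟨⟨?_, fun _ _ => mem_univ _⟩, ?_, ?_, ?_⟩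
    · have h6 := Finset.sum_add_sum_compl F (fun x => if x ∈ F then w x + 1 else w x - i)
      have h7 := Finset.sum_add_sum_compl F w
      have h8 : ∑ x ∈ F, (if x ∈ F then w x + 1 else w x - i) = ∑ x ∈ F, w x + F.card := by
        rw [Finset.card_eq_sum_ones, ← Finset.sum_add_distrib]
        apply Finset.sum_congr rfl
        intro x hx
        rw [if_pos hx]
      have h9 : ∑ x ∈ Fᶜ, (if x ∈ F then w x + 1 else w x - i) + i * Fᶜ.card = ∑ x ∈ Fᶜ, w x := by
        rw [mul_comm, ← smul_eq_mul, ← Finset.sum_const, ← Finset.sum_add_distrib]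
        apply Finset.sum_congr rfl
        intro x hx
        rw [mem_compl] at hx
        have := h4 x hx
        rw [if_neg hx]
        omega
      have h10 : ∑ x, w x = W := h1
      change ∑ x, (if x ∈ F then w x + 1 else w x - i) = M
      rw [hcard] at hM
      have h11 : i * (F.card + Fᶜ.card) = i * F.card + i * Fᶜ.card := by ring
      have h12 : (i + 1) * F.card = i * F.card + F.card := by ring
      omega
    · intro x hx
      simp only [hx, if_true]
      omega
    · intro x hx y hy hxy
      have := h3 x hx y hy hxy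
      simp only [hx, hy, if_true]
      omega
    · intro x hx y hy hxy
      have := h5 x hx y hy hxy
      simp only [hx, hy, if_false]
      omega
  · intro v hv
    simp only [Finset.coe_filter, mem_piAntidiag, Set.mem_ofPred_eq] at hv
    obtain ⟨_, h2, _, _⟩ := hv
    funext x
    by_cases hx : x ∈ F
    · have := h2 x hx
      simp only [hx, if_true]
      omega
    · simp only [hx, if_false]
      omega
  · intro w hw
    simp only [Finset.coe_filter, mem_piAntidiag, Set.mem_ofPred_eq] at hw
    obtain ⟨_, _, _, h4, _⟩ := hw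
    funext x
    by_cases hx : x ∈ F
    · simp only [hx, if_true]
      omega
    · have := h4 x hx
      simp only [hx, if_false]
      omega

/-- no valid function if the sum is too small -/
lemma VW_sum_le {i : ℕ} {F : Finset α} {w : α → ℕ} (h : VW i F w) :
    i * Fintype.card α ≤ ∑ x, w x + i * F.card := by
  have hcard : Fintype.card α = F.card + Fᶜ.card := by
    rw [card_add_card_compl]
  have h1 := Finset.sum_add_sum_compl F w
  have h2 : i * Fᶜ.card ≤ ∑ x ∈ Fᶜ, w x := by
    rw [mul_comm, ← smul_eq_mul, ← Finset.sum_const]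
    apply Finset.sum_le_sum
    intro x hx
    rw [mem_compl] at hx
    exact h.2.2.1 x hx
  rw [hcard]
  have h10 : i * (F.card + Fᶜ.card) = i * F.card + i * Fᶜ.card := by ring
  omega

/-- coefficient with truncated index -/
noncomputable def tc (f : PowerSeries ℤ) (a b : ℕ) : ℤ :=
  if b ≤ a then PowerSeries.coeff (a - b) f else 0

lemma tc_term {F : Finset α} (hF : F ∈ upSets α) (i W : ℕ) :
    tc (Ut F * Uinf Fᶜ) (W + (i + 1) * F.card) (i * Fintype.card α) =
      (((univ : Finset α).piAntidiag W).filter (fun w => VW i F w)).card := by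
  unfold tc
  split_ifs with h
  · apply coeff_term_shift hF
    omega
  · symm
    rw [Nat.cast_eq_zero, card_eq_zero, filter_eq_empty_iff]
    intro w hw hv
    rw [mem_piAntidiag] at hw
    have h1 := VW_sum_le hv
    have h2 : ∑ x, w x = W := hw.1
    have h3 : (i + 1) * F.card = i * F.card + F.card := by ring
    omega

lemma tc_sum {ι : Type} (s : Finset ι) (f : ι → PowerSeries ℤ) (a b : ℕ) :
    tc (∑ j ∈ s, f j) a b = ∑ j ∈ s, tc (f j) a b := by
  unfold tc
  split_ifs with h
  · rw [map_sum]
  · simp

lemma tc_mul_X_pow (f : PowerSeries ℤ) (n a b : ℕ) :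
    tc (f * PowerSeries.X ^ n) a b = tc f a (b + n) := by
  unfold tc
  by_cases h : b ≤ a
  · rw [if_pos h, PowerSeries.coeff_mul_X_pow']
    by_cases h1 : n ≤ a - b
    · have e : a - b - n = a - (b + n) := by omega
      rw [if_pos h1, if_pos (by omega), e]
    · rw [if_neg h1, if_neg (by omega)]
  · rw [if_neg h, if_neg (by omega)]

lemma tc_add_add (f : PowerSeries ℤ) (a b c : ℕ) : tc f (a + c) (b + c) = tc f a b := by
  unfold tc
  by_cases h : b ≤ a
  · have e : a + c - (b + c) = a - b := by omega
    rw [if_pos h, if_pos (by omega), e]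
  · rw [if_neg h, if_neg (by omega)]

open Polynomial in
/-- regrouping of the sum over all functions -/
lemma sum_good_eq (i W : ℕ) :
    ∑ w ∈ ((univ : Finset α).piAntidiag W).filter (fun w => Good i w),
      (X : ℤ[X]) ^ (inS i w).card * (1 + X) ^ (pkS i w).card =
    ∑ k ∈ range (Fintype.card α + 1),
      C (tc (A α k) (W + (i + 1) * k) (i * Fintype.card α)) * X ^ k := by
  rw [Finset.sum_filter]
  have h1 : ∀ w ∈ (univ : Finset α).piAntidiag W,
      (if Good i w then (X : ℤ[X]) ^ (inS i w).card * (1 + X) ^ (pkS i w).card else 0) =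
      ∑ F ∈ upSets α, if VW i F w then X ^ F.card else 0 := by
    intro w _
    rw [← sum_VW, ← Finset.sum_filter]
    apply Finset.sum_congr _ (fun _ _ => rfl)
    ext F
    rw [mem_filter, mem_filter]
    exact ⟨fun h => ⟨h.2.1, h.2⟩, fun h => ⟨mem_univ _, h.2⟩⟩
  rw [Finset.sum_congr rfl h1, Finset.sum_comm]
  have h2 : ∀ F ∈ upSets α, (∑ w ∈ (univ : Finset α).piAntidiag W,
      if VW i F w then (X : ℤ[X]) ^ F.card else 0) =
      C (tc (Ut F * Uinf Fᶜ) (W + (i + 1) * F.card) (i * Fintype.card α)) * X ^ F.card := by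
    intro F hF
    rw [tc_term hF, ← Finset.sum_filter, Finset.sum_const, nsmul_eq_mul]
    simp
  rw [Finset.sum_congr rfl h2]
  have h3 : ∀ F ∈ upSets α, F.card ∈ range (Fintype.card α + 1) := fun F _ => by
    rw [mem_range, Nat.lt_succ_iff]
    exact card_le_univ F
  rw [← Finset.sum_fiberwise_of_maps_to h3]
  apply Finset.sum_congr rfl
  intro k _
  rw [A, tc_sum, map_sum, Finset.sum_mul]
  apply Finset.sum_congr rfl
  intro F hF
  rw [(mem_filter.1 hF).2]

open Polynomial in
/-- **multiplicity of the root `q^{-(i+1)}`** -/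
theorem root_mult {h : Fin (Fintype.card α) → ℕ} (hG : IsGaussianWith α h) (i W : ℕ) :
    (1 + X : ℤ[X]) ^ (lev α i).card ∣
      ∑ w ∈ ((univ : Finset α).piAntidiag W).filter (fun w => Good i w),
        X ^ (inS i w).card * (1 + X) ^ (pkS i w).card := by
  rw [sum_good_eq]
  set B := i * Fintype.card α with hB
  set U0 := Uinf (univ : Finset α) with hU0
  have h1 : ∀ k ∈ range (Fintype.card α + 1),
      C (tc (A α k) (W + (i + 1) * k) B) * (X : ℤ[X]) ^ k =
      ∑ s ∈ ((univ : Finset (Fin (Fintype.card α))).powersetCard k),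
        C (tc U0 (W + (i + 1) * s.card) (B + ∑ j ∈ s, h j)) * X ^ s.card := by
    intro k hk
    rw [mem_range, Nat.lt_succ_iff] at hk
    rw [A_eq hG k hk, esym, Finset.mul_sum, tc_sum, map_sum, Finset.sum_mul]
    apply Finset.sum_congr rfl
    intro s hs
    rw [mem_powersetCard_univ] at hs
    rw [tc_mul_X_pow, hs]
  rw [Finset.sum_congr rfl h1]
  have h2 : ∀ s ∈ (univ : Finset (Fin (Fintype.card α))).powerset,
      s.card ∈ range (Fintype.card α + 1) := fun s _ => by
    rw [mem_range, Nat.lt_succ_iff]
    have := card_le_univ s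
    rwa [Fintype.card_fin] at this
  have h3 : ∑ k ∈ range (Fintype.card α + 1),
      ∑ s ∈ ((univ : Finset (Fin (Fintype.card α))).powersetCard k),
        C (tc U0 (W + (i + 1) * s.card) (B + ∑ j ∈ s, h j)) * (X : ℤ[X]) ^ s.card =
      ∑ s ∈ (univ : Finset (Fin (Fintype.card α))).powerset,
        C (tc U0 (W + (i + 1) * s.card) (B + ∑ j ∈ s, h j)) * (X : ℤ[X]) ^ s.card := by
    rw [← Finset.sum_fiberwise_of_maps_to h2]
    apply Finset.sum_congr rfl
    intro k _
    rw [Finset.powersetCard_eq_filter]
  rw [h3]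
  set J := (univ : Finset (Fin (Fintype.card α))).filter (fun j => h j = i + 1) with hJ
  have hJc : J.card = (lev α i).card := by
    rw [hJ, card_h_eq hG]
    congr 1
    ext x
    rw [mem_filter, mem_lev]
    simp
  have h4 : ∑ s ∈ (univ : Finset (Fin (Fintype.card α))).powerset,
        C (tc U0 (W + (i + 1) * s.card) (B + ∑ j ∈ s, h j)) * (X : ℤ[X]) ^ s.card =
      ∑ s ∈ (Jᶜ).powerset, ∑ t ∈ J.powerset,
        C (tc U0 (W + (i + 1) * s.card) (B + ∑ j ∈ s, h j)) * (X : ℤ[X]) ^ s.card * X ^ t.card := by
    rw [← Finset.sum_product']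
    symm
    refine Finset.sum_nbij' (fun p => p.1 ∪ p.2) (fun s => (s \ J, s ∩ J)) ?_ ?_ ?_ ?_ ?_
    · intro p _
      rw [mem_powerset]
      exact subset_univ _
    · intro s _
      rw [mem_product, mem_powerset, mem_powerset]
      constructor
      · intro j hj
        rw [mem_sdiff] at hj
        rw [mem_compl]
        exact hj.2
      · exact inter_subset_right
    · intro p hp
      rw [mem_product, mem_powerset, mem_powerset] at hp
      have hd : Disjoint p.1 J := by
        rw [Finset.disjoint_left]
        intro j hj hj'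
        have := hp.1 hj
        rw [mem_compl] at this
        exact this hj'
      apply Prod.ext
      · change (p.1 ∪ p.2) \ J = p.1
        rw [union_sdiff_distrib, sdiff_eq_self_of_disjoint hd,
          sdiff_eq_empty_iff_subset.2 hp.2, union_empty]
      · change (p.1 ∪ p.2) ∩ J = p.2
        rw [union_inter_distrib_right, disjoint_iff_inter_eq_empty.1 hd, empty_union,
          inter_eq_left.2 hp.2]
    · intro s _
      change (s \ J) ∪ (s ∩ J) = s
      exact sdiff_union_inter s J
    · intro p hp
      rw [mem_product, mem_powerset, mem_powerset] at hp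
      have hd : Disjoint p.1 p.2 := by
        rw [Finset.disjoint_left]
        intro j hj hj'
        have h5 := hp.1 hj
        rw [mem_compl] at h5
        exact h5 (hp.2 hj')
      have hs : ∑ j ∈ p.2, h j = (i + 1) * p.2.card := by
        rw [mul_comm, ← smul_eq_mul, ← Finset.sum_const]
        apply Finset.sum_congr rfl
        intro j hj
        have := hp.2 hj
        rw [hJ, mem_filter] at this
        exact this.2
      rw [sum_union hd, card_union_of_disjoint hd, hs]
      have e1 : W + (i + 1) * (p.1.card + p.2.card) =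
          (W + (i + 1) * p.1.card) + (i + 1) * p.2.card := by ring
      have e2 : B + (∑ j ∈ p.1, h j + (i + 1) * p.2.card) =
          (B + ∑ j ∈ p.1, h j) + (i + 1) * p.2.card := by ring
      rw [e1, e2, tc_add_add, pow_add]
      ring
  rw [h4]
  apply Finset.dvd_sum
  intro s _
  rw [← Finset.mul_sum, sumPow, hJc]
  exact dvd_mul_left _ _

end Pool.Gauss
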